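import Mathlib
import Pool.Agent.H75.Perc.Prob

set_option autoImplicit false
open Finset MeasureTheory

/-! Infinitely many fair coins and uniformly random subsets of a finite set. -/

namespace Pool.Agent.H63.Perc

open Pool.Agent.H75.Perc

/-- fair coins -/
noncomputable def coins (ι : Type*) : Measure (ι → Bool) :=
  Measure.infinitePi (fun _ => (PMF.uniformOfFintype Bool).toMeasure)

lemma coin_singleton (b : Bool) : (PMF.uniformOfFintype Bool).toMeasure {b} = 1 / 2 := by
  rw [PMF.toMeasure_apply_singleton _ _ (measurableSet_singleton b)]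
  simp

variable {α ι : Type*} [DecidableEq α]

/-- the trace of a configuration on a finite set of labels -/
def tr (E : Finset α) (φ : α → ι) (ω : ι → Bool) : Finset α := E.filter (fun e => ω (φ e) = true)

lemma tr_sub (E : Finset α) (φ : α → ι) (ω : ι → Bool) : tr E φ ω ⊆ E := filter_subset _ _

lemma mem_tr {E : Finset α} {φ : α → ι} {ω : ι → Bool} {e : α} :
    e ∈ tr E φ ω ↔ e ∈ E ∧ ω (φ e) = true := by
  unfold tr; rw [mem_filter]

lemma coins_box [DecidableEq ι] (I : Finset ι) (b : ι → Bool) :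
    coins ι (Set.pi (I : Set ι) (fun i => {b i})) = (1 / 2) ^ I.card := by
  unfold coins
  rw [Measure.infinitePi_pi _ (fun i _ => measurableSet_singleton _)]
  rw [Finset.prod_congr rfl (fun i _ => coin_singleton (b i)), prod_const]

lemma tr_eq_iff [DecidableEq ι] {E : Finset α} {φ : α → ι} (hφ : Set.InjOn φ E) {s : Finset α}
    (hs : s ⊆ E) (b : ι → Bool) (hb : ∀ e ∈ E, b (φ e) = decide (e ∈ s)) :
    {ω | tr E φ ω = s} = Set.pi ((E.image φ : Finset ι) : Set ι) (fun i => {b i}) := by
  ext ω
  simp only [Set.mem_setOf_eq, Set.mem_pi, mem_coe, mem_image, forall_exists_index, and_imp,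
    forall_apply_eq_imp_iff₂, Set.mem_singleton_iff]
  constructor
  · intro h e he
    rw [hb e he, ← h]
    by_cases h1 : ω (φ e) = true
    · rw [h1]; symm; rw [decide_eq_true_iff]; exact mem_tr.2 ⟨he, h1⟩
    · have h2 : ω (φ e) = false := by simpa using h1
      rw [h2]; symm; rw [decide_eq_false_iff_not]
      intro h3
      rw [(mem_tr.1 h3).2] at h2
      cases h2
  · intro h
    ext e
    rw [mem_tr]
    constructor
    · rintro ⟨h1, h2⟩
      rw [h e h1, hb e h1, decide_eq_true_iff] at h2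
      exact h2
    · intro h1
      refine ⟨hs h1, ?_⟩
      rw [h e (hs h1), hb e (hs h1), decide_eq_true_iff]
      exact h1

lemma exists_bits [DecidableEq ι] {E : Finset α} {φ : α → ι} (hφ : Set.InjOn φ E)
    (s : Finset α) : ∃ b : ι → Bool, ∀ e ∈ E, b (φ e) = decide (e ∈ s) := by
  refine ⟨fun i => decide (∃ e ∈ E, φ e = i ∧ e ∈ s), ?_⟩
  intro e he
  rw [decide_eq_decide]
  constructor
  · rintro ⟨e', h1, h2, h3⟩
    rw [← hφ h1 he h2]
    exact h3
  · intro h
    exact ⟨e, he, rfl, h⟩

lemma measurable_tr_eq [DecidableEq ι] {E : Finset α} {φ : α → ι} (hφ : Set.InjOn φ E)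
    {s : Finset α} (hs : s ⊆ E) : MeasurableSet {ω | tr E φ ω = s} := by
  obtain ⟨b, hb⟩ := exists_bits hφ s
  rw [tr_eq_iff hφ hs b hb]
  exact MeasurableSet.pi (Finset.countable_toSet _) (fun i _ => measurableSet_singleton _)

lemma coins_tr_eq [DecidableEq ι] {E : Finset α} {φ : α → ι} (hφ : Set.InjOn φ E)
    {s : Finset α} (hs : s ⊆ E) : coins ι {ω | tr E φ ω = s} = (1 / 2) ^ E.card := by
  obtain ⟨b, hb⟩ := exists_bits hφ s
  rw [tr_eq_iff hφ hs b hb, coins_box, card_image_of_injOn hφ]

/-- Bridge between fair coins and uniformly random subsets. -/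
theorem coins_tr {E : Finset α} {φ : α → ι} (hφ : Set.InjOn φ E)
    (A : Finset α → Prop) : (coins ι {ω | A (tr E φ ω)}).toReal = Pr E A := by
  classical
  have h1 : {ω | A (tr E φ ω)} = ⋃ s ∈ E.powerset.filter A, {ω | tr E φ ω = s} := by
    ext ω
    simp only [Set.mem_setOf_eq, Set.mem_iUnion, mem_filter, mem_powerset, exists_prop,
      exists_eq_right']
    exact ⟨fun h => ⟨tr_sub _ _ _, h⟩, fun h => h.2⟩
  rw [h1, measure_biUnion_finset]
  · rw [Finset.sum_congr rfl (fun s hs => coins_tr_eq hφ (mem_powerset.1 (mem_filter.1 hs).1)),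
      sum_const, Pr_eq, nsmul_eq_mul, ENNReal.toReal_mul, ENNReal.toReal_pow]
    simp only [ENNReal.toReal_natCast, one_div, ENNReal.toReal_inv, ENNReal.toReal_ofNat]
    rw [inv_pow, div_eq_mul_inv]
  · intro s _ t _ hst
    rw [Function.onFun, Set.disjoint_left]
    intro ω h2 h3
    exact hst (h2.symm.trans h3)
  · intro s hs
    exact measurable_tr_eq hφ (mem_powerset.1 (mem_filter.1 hs).1)

lemma measurable_tr {E : Finset α} {φ : α → ι} (hφ : Set.InjOn φ E)
    (A : Finset α → Prop) : MeasurableSet {ω | A (tr E φ ω)} := by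
  classical
  have h1 : {ω | A (tr E φ ω)} = ⋃ s ∈ E.powerset.filter A, {ω | tr E φ ω = s} := by
    ext ω
    simp only [Set.mem_setOf_eq, Set.mem_iUnion, mem_filter, mem_powerset, exists_prop,
      exists_eq_right']
    exact ⟨fun h => ⟨tr_sub _ _ _, h⟩, fun h => h.2⟩
  rw [h1]
  exact Finset.measurableSet_biUnion _
    (fun s hs => measurable_tr_eq hφ (mem_powerset.1 (mem_filter.1 hs).1))

instance (ι : Type*) : IsProbabilityMeasure (coins ι) := by
  unfold coins; infer_instance

lemma coins_mono {A B : Set (ι → Bool)} (h : A ⊆ B) :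
    (coins ι A).toReal ≤ (coins ι B).toReal :=
  ENNReal.toReal_mono (measure_ne_top _ _) (measure_mono h)

/-- Harris inequality for finitely many events of probability at least `c`. -/
lemma harris_fin (E : Finset α) (A : ℕ → Finset α → Prop) (m : ℕ)
    (hA : ∀ i < m, Inc (A i)) {c : ℝ} (hc : 0 ≤ c) (hp : ∀ i < m, c ≤ Pr E (A i)) :
    c ^ m ≤ Pr E (fun ω => ∀ i < m, A i ω) ∧ Inc (fun ω => ∀ i < m, A i ω) := by
  induction m with
  | zero =>
    refine ⟨?_, ?_⟩
    · have : Pr E (fun ω => ∀ i < 0, A i ω) = 1 := by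
        rw [← Pr_true E]
        exact Pr_congr fun ω _ => by simp
      rw [this]; simp
    · intro ω ω' _ _ i hi; omega
  | succ m ih =>
    obtain ⟨h1, h2⟩ := ih (fun i hi => hA i (by omega)) (fun i hi => hp i (by omega))
    have h3 : ∀ ω, (∀ i < m + 1, A i ω) ↔ ((∀ i < m, A i ω) ∧ A m ω) := by
      intro ω
      constructor
      · intro h; exact ⟨fun i hi => h i (by omega), h m (by omega)⟩
      · rintro ⟨h, h'⟩ i hi
        rcases Nat.lt_succ_iff_lt_or_eq.1 hi with h4 | h4
        · exact h i h4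
        · rw [h4]; exact h'
    constructor
    · have h4 := Pr_harris E h2 (hA m (by omega))
      rw [Pr_congr (fun ω _ => h3 ω)]
      refine le_trans ?_ h4
      rw [pow_succ]
      exact mul_le_mul h1 (hp m (by omega)) hc (le_trans (by positivity) h1)
    · intro ω ω' hω h
      exact fun i hi => hA i hi ω ω' hω (h i hi)

/-- Pulling back along a map which is injective on the set of labels. -/
lemma Pr_pull {β : Type*} [DecidableEq β] {F : Finset α} {E : Finset β} {π : α → β}
    (hπ : Set.InjOn π F) (hE : ∀ e ∈ F, π e ∈ E) (A : Finset α → Prop) :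
    Pr E (fun ω => A (F.filter (fun e => π e ∈ ω))) = Pr F A := by
  classical
  let f : {x // x ∈ F} ↪ β := ⟨fun x => π x.1, fun x y h => Subtype.ext (hπ x.2 y.2 h)⟩
  let g : {x // x ∈ F} ↪ α := Function.Embedding.subtype _
  have hF : F = (univ : Finset {x // x ∈ F}).map g := by
    ext x; simp [g]
  have hsub : (univ : Finset {x // x ∈ F}).map f ⊆ E := by
    intro y hy
    rw [mem_map] at hy
    obtain ⟨x, _, rfl⟩ := hy
    exact hE x.1 x.2
  have h1 : Pr E (fun ω => A (F.filter (fun e => π e ∈ ω))) =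
      Pr ((univ : Finset {x // x ∈ F}).map f) (fun ω => A (F.filter (fun e => π e ∈ ω))) := by
    rw [← Pr_restrict hsub]
    apply Pr_congr
    intro ω _
    have : F.filter (fun e => π e ∈ ω) =
        F.filter (fun e => π e ∈ ω ∩ (univ : Finset {x // x ∈ F}).map f) := by
      apply filter_congr
      intro e he
      rw [mem_inter]
      constructor
      · intro h; exact ⟨h, mem_map.2 ⟨⟨e, he⟩, mem_univ _, rfl⟩⟩
      · exact fun h => h.1
    rw [this]
  have h2 : Pr F A = Pr ((univ : Finset {x // x ∈ F}).map g) A := by rw [← hF]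
  rw [h1, h2, Pr_map, Pr_map]
  apply Pr_congr
  intro ω _
  have : F.filter (fun e => π e ∈ ω.map f) = ω.map g := by
    ext e
    rw [mem_filter, mem_map, mem_map]
    constructor
    · rintro ⟨h3, x, hx, hxe⟩
      refine ⟨x, hx, ?_⟩
      exact hπ x.2 h3 hxe
    · rintro ⟨x, hx, rfl⟩
      exact ⟨x.2, x, hx, rfl⟩
  rw [this]

end Pool.Agent.H63.Perc
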