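import Mathlib
import Pool.Agent.H75.Perc.RswD
import Pool.Agent.H63.Perc.Bridge

set_option autoImplicit false
open Finset

/-! Gluing an arm of the half-plane `x + y ≥ 0` to a path that winds around the cylinder. -/

namespace Pool.Agent.H63.Perc

open Pool.Agent.H75.Perc

/-- adjacency through the labels of a set -/
def AdS (S : Set (ℤ × ℤ)) (u v : ℤ × ℤ) : Prop := IsUnit4 (v - u) ∧ u + v ∈ S

def CoS (S : Set (ℤ × ℤ)) (u v : ℤ × ℤ) : Prop := Relation.ReflTransGen (AdS S) u v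

lemma AdS.symm {S : Set (ℤ × ℤ)} {u v : ℤ × ℤ} (h : AdS S u v) : AdS S v u := by
  refine ⟨?_, by rw [add_comm]; exact h.2⟩
  have := isUnit4_neg h.1
  rwa [neg_sub] at this

lemma CoS.trans {S : Set (ℤ × ℤ)} {u v w : ℤ × ℤ} (h1 : CoS S u v) (h2 : CoS S v w) :
    CoS S u w := Relation.ReflTransGen.trans h1 h2

lemma CoS.symm {S : Set (ℤ × ℤ)} {u v : ℤ × ℤ} (h : CoS S u v) : CoS S v u := by
  induction h with
  | refl => exact Relation.ReflTransGen.refl
  | tail _ hbc ih => exact Relation.ReflTransGen.head hbc.symm ih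

lemma co_toS {S : Set (ℤ × ℤ)} {ω : Finset (ℤ × ℤ)} (hω : ∀ e ∈ ω, e ∈ S) {u v : ℤ × ℤ}
    (h : Co ω u v) : CoS S u v := by
  induction h with
  | refl => exact Relation.ReflTransGen.refl
  | tail _ hbc ih => exact Relation.ReflTransGen.tail ih ⟨hbc.1, hω _ hbc.2⟩

/-- translation in a periodic set of labels -/
lemma CoS.shift {S : Set (ℤ × ℤ)} {n : ℤ} (hS : ∀ e, e ∈ S → e + (2 * n, -(2 * n)) ∈ S)
    {u v : ℤ × ℤ} (h : CoS S u v) : CoS S (u + (n, -n)) (v + (n, -n)) := by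
  induction h with
  | refl => exact Relation.ReflTransGen.refl
  | @tail b c _ hbc ih =>
    refine Relation.ReflTransGen.tail ih ⟨?_, ?_⟩
    · rw [add_sub_add_right_eq_sub]; exact hbc.1
    · have := hS _ hbc.2
      have e : b + (n, -n) + (c + (n, -n)) = b + c + (2 * n, -(2 * n)) := by
        refine Prod.ext ?_ ?_ <;> simp only [Prod.fst_add, Prod.snd_add] <;> ring
      rw [e]; exact this

lemma CoX.mono' {ω : Finset (ℤ × ℤ)} {X Y : ℤ × ℤ → Prop} (h : ∀ z, X z → Y z) {u v : ℤ × ℤ}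
    (hc : CoX ω X u v) : CoX ω Y u v := by
  induction hc with
  | refl => exact Relation.ReflTransGen.refl
  | tail _ hbc ih => exact Relation.ReflTransGen.tail ih ⟨hbc.1, h _ hbc.2⟩

lemma CoX.rev {ω : Finset (ℤ × ℤ)} {X : ℤ × ℤ → Prop} {u v : ℤ × ℤ}
    (h : CoX ω X u v) : Relation.ReflTransGen (fun a b => Ad ω a b ∧ CoX ω X u b) v u := by
  induction h with
  | refl => exact Relation.ReflTransGen.refl
  | tail hab hbc ih => exact Relation.ReflTransGen.head ⟨hbc.1.symm, hab⟩ ih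

/-- stay in a set or leave it -/
lemma exit_or {ω : Finset (ℤ × ℤ)} {X : ℤ × ℤ → Prop} {u : ℤ × ℤ} (hu : X u) :
    ∀ v, Co ω u v → (X v ∧ CoX ω X u v) ∨
      ∃ z z', X z ∧ ¬ X z' ∧ Ad ω z z' ∧ CoX ω X u z := by
  intro v hv
  induction hv with
  | refl => exact Or.inl ⟨hu, Relation.ReflTransGen.refl⟩
  | @tail b c hab hbc ih =>
    rcases ih with ⟨h1, h2⟩ | h1
    · by_cases hc : X c
      · exact Or.inl ⟨hc, Relation.ReflTransGen.tail h2 ⟨hbc, hc⟩⟩
      · exact Or.inr ⟨b, c, h1, hc, hbc, h2⟩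
    · exact Or.inr h1

lemma row_path (A : ℤ × ℤ → Prop) (x y : ℤ) (k : ℕ) (h : ∀ i : ℕ, i ≤ k → A (x + i, y)) :
    Relation.ReflTransGen (fun u v => King (v - u) ∧ A v) (x, y) (x + k, y) := by
  induction k with
  | zero => simp only [Nat.cast_zero, add_zero]; exact Relation.ReflTransGen.refl
  | succ k ih =>
    refine Relation.ReflTransGen.tail (ih (fun i hi => h i (by omega))) ⟨?_, h (k + 1) le_rfl⟩
    unfold King
    simp only [Prod.fst_sub, Prod.snd_sub]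
    push_cast
    omega

/-- an open set with half-plane labels stays in the half-plane -/
lemma level_nonneg {ω : Finset (ℤ × ℤ)} (hω : ∀ e ∈ ω, 1 ≤ e.1 + e.2) {u v : ℤ × ℤ}
    (hu : 0 ≤ u.1 + u.2) (h : Co ω u v) : 0 ≤ v.1 + v.2 := by
  induction h with
  | refl => exact hu
  | @tail b c _ hbc _ =>
    have h1 := unit_cases hbc.1
    have h2 := hω _ hbc.2
    simp only [Prod.fst_add, Prod.snd_add] at h2
    omega

/-- the first piece: the arm from the origin is glued to the long crossing -/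
lemma start {j : ℤ} (hj : 1 ≤ j) {S : Set (ℤ × ℤ)} {ωA ωH : Finset (ℤ × ℤ)}
    (hA : ωA ⊆ Bx (-(2 * j)) (2 * j) (-(2 * j)) (2 * j)) (hA' : ∀ e ∈ ωA, 1 ≤ e.1 + e.2)
    (hSA : ∀ e ∈ ωA, e ∈ S) (hSH : ∀ e ∈ ωH, 1 ≤ e.1 + e.2 → e ∈ S)
    {v : ℤ × ℤ} (hv : v.2 = 2 * j) (h0v : Co ωA 0 v)
    (hH : HC (-(2 * j)) (6 * j) 0 (2 * j) ωH) :
    ∃ p q, inB (2 * j) (6 * j) 0 (2 * j) p ∧ p.1 = 2 * j ∧ q.1 = 6 * j ∧
      Co (ωH ∩ Bx (2 * j) (6 * j) 0 (2 * j)) p q ∧ CoS S 0 p := by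
  obtain ⟨p, q, p1, p2, p3, p4⟩ := hH
  set ω2 := ωH ∩ Bx (-(2 * j)) (6 * j) 0 (2 * j) with hω2
  have hq : inB (-(2 * j)) (6 * j) 0 (2 * j) q := p4.inB inter_subset_right p1
  -- the arm, from the bottom to the top of the strip
  have h0B : inB (-(2 * j)) (2 * j) (-(2 * j)) (2 * j) 0 := by
    unfold inB; simp only [Prod.fst_zero, Prod.snd_zero]; omega
  obtain ⟨b, b', hb, hb', hbad, hbx, -⟩ := exit_co (X := fun z => 1 ≤ z.2) h0v.symm
    (by show 1 ≤ v.2; omega) (by simp)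
  have hb0 : b'.2 = 0 := by
    have h5 := unit_cases hbad.1
    omega
  have hvb : CoX ωA (fun z => 0 ≤ z.2) v b' :=
    Relation.ReflTransGen.tail (CoX.mono' (fun z hz => by omega) hbx)
      ⟨hbad, by simp only; omega⟩
  have hBprop : ∀ w, CoX ωA (fun z => 0 ≤ z.2) v w →
      inB (-(2 * j)) (2 * j) (-(2 * j)) (2 * j) w ∧ 0 ≤ w.1 + w.2 := by
    intro w hw
    have h1 : Co ωA 0 w := h0v.trans hw.co
    exact ⟨h1.inB hA h0B, level_nonneg hA' (by simp) h1⟩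
  -- the crossing, from the left to the right
  have hXq : 0 ≤ q.1 + q.2 := by unfold inB at hq; omega
  set A : ℤ × ℤ → Prop := fun w => CoX ω2 (fun z => 0 ≤ z.1 + z.2) q w ∨
    (w.1 + w.2 < 0 ∧ 0 ≤ w.2 ∧ w.2 ≤ 2 * j) with hAdef
  have hAbox : ∀ z, A z → 0 ≤ z.2 ∧ z.2 ≤ 2 * j := by
    rintro z (hz | hz)
    · have := (CoX.co hz).inB (a := -(2 * j)) (b := 6 * j) (c := 0) (d := 2 * j)
        inter_subset_right hq
      exact this.2
    · exact hz.2
  have hleft : ∃ p' : ℤ × ℤ, p'.1 = -(2 * j) ∧ A p' ∧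
      Relation.ReflTransGen (fun u v => King (v - u) ∧ A v) p' q := by
    have hrev : ∀ z, CoX ω2 (fun z => 0 ≤ z.1 + z.2) q z →
        Relation.ReflTransGen (fun u v => King (v - u) ∧ A v) z q := by
      intro z hz
      exact Relation.ReflTransGen.mono (fun a b hab => ⟨hab.1.1.king, Or.inl hab.2⟩) _ _
        (CoX.rev hz)
    rcases exit_or (X := fun z => 0 ≤ z.1 + z.2) hXq p p4.symm with ⟨_, h2⟩ |
      ⟨z, z', hz, hz', had, hcx⟩
    · exact ⟨p, p2, Or.inl h2, hrev p h2⟩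
    · have hz'B := (had.inB (a := -(2 * j)) (b := 6 * j) (c := 0) (d := 2 * j)
        inter_subset_right).2
      unfold inB at hz'B
      have h5 := unit_cases had.1
      refine ⟨(-(2 * j), z'.2), rfl, Or.inr ?_, ?_⟩
      · simp only; omega
      · have hrow := row_path A (-(2 * j)) z'.2 (z'.1 + 2 * j).toNat (by
          intro i hi
          right
          simp only
          omega)
        have e : (-(2 * j) + ((z'.1 + 2 * j).toNat : ℤ), z'.2) = z' := by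
          refine Prod.ext ?_ rfl
          simp only
          omega
        rw [e] at hrow
        refine hrow.trans (Relation.ReflTransGen.head ⟨?_, Or.inl hcx⟩ (hrev z hcx))
        exact had.symm.1.king
  obtain ⟨p', hp'1, hp'A, hp'path⟩ := hleft
  obtain ⟨w, hwA, hwB⟩ := cross_set (A := A) (B := fun w => CoX ωA (fun z => 0 ≤ z.2) v w)
    (a := -(2 * j)) (b := 6 * j) (c := 0) (d := 2 * j)
    hp'path hp'A
    (Relation.ReflTransGen.mono (fun a b hab => ⟨hab.1.1, hab.2⟩) _ _ (CoX.rev hvb)) hvb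
    hAbox (fun z hz => by have := (hBprop z hz).1; unfold inB at this; omega)
    hp'1 p3 hb0 hv
  obtain ⟨hwbox, hwlev⟩ := hBprop w hwB
  have hwX : CoX ω2 (fun z => 0 ≤ z.1 + z.2) q w := by
    rcases hwA with h | h
    · exact h
    · omega
  -- connections in `S`
  have hS2 : ∀ w, CoX ω2 (fun z => 0 ≤ z.1 + z.2) q w → CoS S q w := by
    intro w hw
    induction hw with
    | refl => exact Relation.ReflTransGen.refl
    | @tail b c hab hbc ih =>
      refine Relation.ReflTransGen.tail ih ⟨hbc.1.1, ?_⟩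
      apply hSH _ (mem_inter.1 hbc.1.2).1
      have h1 := CoX.mem (X := fun z => 0 ≤ z.1 + z.2) hab hXq
      have h2 := hbc.2
      have h3 := unit_cases hbc.1.1
      simp only at h1 h2
      simp only [Prod.fst_add, Prod.snd_add]
      omega
  have h0w : CoS S 0 w := co_toS hSA (h0v.trans hwB.co)
  have hqw : CoS S q w := hS2 w hwX
  -- the left end of the piece
  obtain ⟨z, z', hz, hz', had, hcx, -⟩ := exit_co
    (X := fun z => inB (-(2 * j)) (6 * j) 0 (2 * j) z ∧ 2 * j + 1 ≤ z.1) (CoX.co hwX)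
    ⟨hq, by omega⟩ (by unfold inB at hwbox; omega)
  have hz'B := (had.inB (a := -(2 * j)) (b := 6 * j) (c := 0) (d := 2 * j)
    inter_subset_right).2
  have hz'1 : z'.1 = 2 * j := by
    have h5 := unit_cases had.1
    have h6 : ¬ 2 * j + 1 ≤ z'.1 := fun h => hz' ⟨hz'B, h⟩
    omega
  have hbox' : inB (2 * j) (6 * j) 0 (2 * j) z' := by unfold inB at hz'B ⊢; omega
  have hqbox : inB (2 * j) (6 * j) 0 (2 * j) q := by unfold inB at hq ⊢; omega
  have hcx' : CoX ω2 (inB (2 * j) (6 * j) 0 (2 * j)) q z' :=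
    Relation.ReflTransGen.tail (CoX.mono' (fun z hz => by
      unfold inB at hz ⊢; omega) hcx) ⟨had, hbox'⟩
  have hco : Co (ω2 ∩ Bx (2 * j) (6 * j) 0 (2 * j)) q z' := hcx'.box (fun z hz => hz) hqbox
  have hco' : Co (ωH ∩ Bx (2 * j) (6 * j) 0 (2 * j)) q z' :=
    hco.mono (inter_subset_inter_right inter_subset_left)
  refine ⟨z', q, hbox', hz'1, p3, hco'.symm, ?_⟩
  refine (h0w.trans hqw.symm).trans (co_toS ?_ hco')
  intro e he
  rw [mem_inter] at he
  have h7 := mem_Bx.1 he.2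
  exact hSH e he.1 (by omega)

/-- a horizontal and a vertical crossing meet -/
lemma meet {S : Set (ℤ × ℤ)} {ω1 ω2 : Finset (ℤ × ℤ)} (h1 : ∀ e ∈ ω1, e ∈ S)
    (h2 : ∀ e ∈ ω2, e ∈ S) {a b c d a' b' c' d' : ℤ} (ha : a ≤ a') (hb : b' ≤ b) (hc : c ≤ c')
    (hd : d' ≤ d) (hω1 : ω1 ⊆ Bx a b c' d') (hω2 : ω2 ⊆ Bx a' b' c d) {p q r s : ℤ × ℤ}
    (hp : inB a b c' d' p) (hr : inB a' b' c d r) (hp1 : p.1 = a) (hq1 : q.1 = b)
    (hr2 : r.2 = c) (hs2 : s.2 = d) (hpq : Co ω1 p q) (hrs : Co ω2 r s) : CoS S p r := by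
  obtain ⟨z, z1, z2⟩ := cross_co (hω1.trans (Bx_sub le_rfl le_rfl hc hd))
    (hω2.trans (Bx_sub ha hb le_rfl le_rfl)) (by unfold inB at hp ⊢; omega)
    (by unfold inB at hr ⊢; omega) hpq hrs hp1 hq1 hr2 hs2
  exact (co_toS h1 z1).trans (co_toS h2 z2).symm

/-- a horizontal piece of the staircase that is connected to the origin -/
def Piece (S : Set (ℤ × ℤ)) (j t : ℤ) (p : ℤ × ℤ) : Prop :=
  ∃ (ω1 : Finset (ℤ × ℤ)) (q : ℤ × ℤ), (∀ e ∈ ω1, e ∈ S) ∧
    ω1 ⊆ Bx (2 * j + t) (6 * j + t) (-t) (2 * j - t) ∧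
    inB (2 * j + t) (6 * j + t) (-t) (2 * j - t) p ∧ p.1 = 2 * j + t ∧ q.1 = 6 * j + t ∧
    Co ω1 p q

/-- a vertical piece of the staircase -/
def PieceV (S : Set (ℤ × ℤ)) (j t : ℤ) : Prop :=
  ∃ (ω1 : Finset (ℤ × ℤ)) (r s : ℤ × ℤ), (∀ e ∈ ω1, e ∈ S) ∧
    ω1 ⊆ Bx (4 * j + t) (6 * j + t) (-(2 * j) - t) (2 * j - t) ∧
    inB (4 * j + t) (6 * j + t) (-(2 * j) - t) (2 * j - t) r ∧ r.2 = -(2 * j) - t ∧
    s.2 = 2 * j - t ∧ Co ω1 r s

lemma stair_step {S : Set (ℤ × ℤ)} {j t t' : ℤ} (hj : 1 ≤ j) (h1 : t ≤ t') (h2 : t' ≤ t + 2 * j)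
    {p p' : ℤ × ℤ} (hp : Piece S j t p) (hp' : Piece S j t' p') (hV : PieceV S j t) :
    CoS S p p' := by
  obtain ⟨ω1, q, a1, a2, a3, a4, a5, a6⟩ := hp
  obtain ⟨ω1', q', b1, b2, b3, b4, b5, b6⟩ := hp'
  obtain ⟨ω2, r, s, c1, c2, c3, c4, c5, c6⟩ := hV
  have k1 : CoS S p r := meet a1 c1 (a := 2 * j + t) (b := 6 * j + t) (c := -(2 * j) - t)
    (d := 2 * j - t) (a' := 4 * j + t) (b' := 6 * j + t) (c' := -t) (d' := 2 * j - t)
    (by omega) le_rfl (by omega) le_rfl a2 c2 a3 c3 a4 a5 c4 c5 a6 c6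
  have k2 : CoS S p' r := meet b1 c1 (a := 2 * j + t') (b := 6 * j + t') (c := -(2 * j) - t)
    (d := 2 * j - t) (a' := 4 * j + t) (b' := 6 * j + t) (c' := -t') (d' := 2 * j - t')
    (by omega) (by omega) (by omega) (by omega) b2 c2 b3 c3 b4 b5 c4 c5 b6 c6
  exact k1.trans k2.symm

/-- the whole staircase -/
lemma stair {S : Set (ℤ × ℤ)} {n j : ℤ} (hj : 1 ≤ j)
    (hS : ∀ e, e ∈ S → e + (2 * n, -(2 * n)) ∈ S) (t : ℕ → ℤ) (M : ℕ) (hM : 1 ≤ M)
    (h0 : t 0 = 0) (hn : t M = n) (ht : ∀ i < M, t i ≤ t (i + 1) ∧ t (i + 1) ≤ t i + 2 * j)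
    {p : ℤ × ℤ} (hp : Piece S j 0 p) (h0p : CoS S 0 p)
    (hH : ∀ i, 1 ≤ i → i < M → ∃ p, Piece S j (t i) p) (hV : ∀ i < M, PieceV S j (t i)) :
    CoS S 0 (n, -n) := by
  -- the translate of the first piece
  have hlast : Piece S j n (p + (n, -n)) := by
    obtain ⟨ω1, q, a1, a2, a3, a4, a5, a6⟩ := hp
    refine ⟨ω1.map (syT (n, -n)).G, q + (n, -n), ?_, ?_, ?_, ?_, ?_, ?_⟩
    · intro e he
      rw [mem_map] at he
      obtain ⟨x, hx, rfl⟩ := he
      have := hS x (a1 x hx)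
      have e1 : (syT (n, -n)).G x = x + (2 * n, -(2 * n)) := by
        simp only [syT, Function.Embedding.coeFn_mk]
        refine Prod.ext ?_ ?_ <;> simp only [Prod.fst_add, Prod.snd_add]; ring
      rw [e1]; exact this
    · intro e he
      rw [mem_map] at he
      obtain ⟨x, hx, rfl⟩ := he
      have h3 := mem_Bx.1 (a2 hx)
      rw [mem_Bx]
      simp only [syT, Function.Embedding.coeFn_mk]
      omega
    · unfold inB at a3 ⊢
      simp only [Prod.fst_add, Prod.snd_add]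
      omega
    · simp only [Prod.fst_add]; omega
    · simp only [Prod.fst_add]; omega
    · exact ((syT (n, -n)).co_iff ω1 p q).2 a6
  -- all the pieces are connected to the origin
  have key : ∀ i, i < M → ∃ p, Piece S j (t i) p ∧ CoS S 0 p := by
    intro i
    induction i with
    | zero => intro _; exact ⟨p, by rw [h0]; exact hp, h0p⟩
    | succ i ih =>
      intro hi
      obtain ⟨p1, hp1, hc1⟩ := ih (by omega)
      obtain ⟨p2, hp2⟩ := hH (i + 1) (by omega) hi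
      have h3 := ht i (by omega)
      exact ⟨p2, hp2, hc1.trans (stair_step hj h3.1 h3.2 hp1 hp2 (hV i (by omega)))⟩
  obtain ⟨p1, hp1, hc1⟩ := key (M - 1) (by omega)
  have h3 := ht (M - 1) (by omega)
  have e : M - 1 + 1 = M := by omega
  rw [e, hn] at h3
  have h4 := stair_step hj h3.1 h3.2 hp1 hlast (hV (M - 1) (by omega))
  have h5 : CoS S (0 + (n, -n)) (p + (n, -n)) := h0p.shift hS
  rw [zero_add] at h5
  exact (hc1.trans h4).trans h5.symm

end Pool.Agent.H63.Perc
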