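import Mathlib
import Pool.Agent.H63.Perc.Geo
import Pool.Agent.H65.Perc.HalfDefs

set_option autoImplicit false
open Finset MeasureTheory

/-! The half-plane one-arm probability is at most a constant times the winding probability. -/

namespace Pool.Agent.H63.Perc

open Pool.Agent.H75.Perc
open Pool.Agent.H65.Perc (CConf cylGraph Winds cylMeasure PConf halfGraph HalfArm planeMeasure)

/-! ### labels modulo the period -/

/-- canonical representative of a label modulo `(2n, -2n)` -/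
def rp (n : ℤ) (e : ℤ × ℤ) : ℤ × ℤ := (e.1 % (2 * n), e.1 + e.2 - e.1 % (2 * n))

lemma rp_shift {n : ℤ} (e : ℤ × ℤ) : rp n (e + (2 * n, -(2 * n))) = rp n e := by
  unfold rp
  simp only [Prod.fst_add, Prod.snd_add]
  rw [Int.add_emod_right]
  refine Prod.ext rfl ?_
  simp only; ring

/-- labels of the cylinder of circumference `n` -/
noncomputable def EC (n L : ℤ) : Finset (ℤ × ℤ) :=
  ((Icc 0 (2 * n)) ×ˢ (Icc (-(2 * n) - L) (2 * n + L))).filter
    (fun e => e.1 < 2 * n ∧ (-L ≤ e.1 + e.2 ∧ e.1 + e.2 ≤ L) ∧ (e.1 + e.2) % 2 = 1)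

lemma mem_EC {n L : ℤ} {e : ℤ × ℤ} : e ∈ EC n L ↔
    (0 ≤ e.1 ∧ e.1 < 2 * n) ∧ (-L ≤ e.1 + e.2 ∧ e.1 + e.2 ≤ L) ∧ (e.1 + e.2) % 2 = 1 := by
  unfold EC
  simp only [mem_filter, mem_product, mem_Icc]
  constructor
  · rintro ⟨h1, h2⟩; omega
  · rintro ⟨h1, h2, h3⟩; omega

/-- labels of the half-infinite cylinder -/
noncomputable def EH (n L : ℤ) : Finset (ℤ × ℤ) := (EC n L).filter (fun e => 1 ≤ e.1 + e.2)

lemma mem_EH {n L : ℤ} {e : ℤ × ℤ} : e ∈ EH n L ↔ e ∈ EC n L ∧ 1 ≤ e.1 + e.2 := by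
  unfold EH; rw [mem_filter]

/-- pull back of a set of canonical labels -/
def pull (n : ℤ) (F ω : Finset (ℤ × ℤ)) : Finset (ℤ × ℤ) := F.filter (fun e => rp n e ∈ ω)

lemma mem_pull {n : ℤ} {F ω : Finset (ℤ × ℤ)} {e : ℤ × ℤ} :
    e ∈ pull n F ω ↔ e ∈ F ∧ rp n e ∈ ω := by
  unfold pull; rw [mem_filter]

lemma pull_sub (n : ℤ) (F ω : Finset (ℤ × ℤ)) : pull n F ω ⊆ F := filter_subset _ _

lemma pull_mono {n : ℤ} {F ω ω' : Finset (ℤ × ℤ)} (h : ω ⊆ ω') : pull n F ω ⊆ pull n F ω' := by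
  intro e he
  rw [mem_pull] at he ⊢
  exact ⟨he.1, h he.2⟩

/-- the periodic set of open half-plane labels -/
def PS (n : ℤ) (ω : Finset (ℤ × ℤ)) : Set (ℤ × ℤ) := fun e => 1 ≤ e.1 + e.2 ∧ rp n e ∈ ω

lemma mem_PS {n : ℤ} {ω : Finset (ℤ × ℤ)} {e : ℤ × ℤ} :
    e ∈ PS n ω ↔ 1 ≤ e.1 + e.2 ∧ rp n e ∈ ω := Iff.rfl

lemma PS_shift {n : ℤ} {ω : Finset (ℤ × ℤ)} : ∀ e, e ∈ PS n ω → e + (2 * n, -(2 * n)) ∈ PS n ω := by
  intro e he
  rw [mem_PS] at he ⊢
  rw [rp_shift]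
  simp only [Prod.fst_add, Prod.snd_add]
  exact ⟨by omega, he.2⟩

lemma rp_sum (n : ℤ) (e : ℤ × ℤ) : (rp n e).1 + (rp n e).2 = e.1 + e.2 := by
  unfold rp; simp only; ring

lemma rp_inj {n : ℤ} {F : Finset (ℤ × ℤ)}
    (hF : ∀ e ∈ F, ∀ e' ∈ F, e.1 - e'.1 < 2 * n) : Set.InjOn (rp n) F := by
  intro e he e' he' h
  have h1 := hF e he e' he'
  have h2 := hF e' he' e he
  have h3 := rp_sum n e
  have h4 := rp_sum n e'
  rw [h, h4] at h3
  have h5 : e.1 % (2 * n) = e'.1 % (2 * n) := congrArg Prod.fst h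
  have h6 := Int.emod_add_mul_ediv e.1 (2 * n)
  have h7 := Int.emod_add_mul_ediv e'.1 (2 * n)
  have h8 : e.1 - e'.1 = 2 * n * (e.1 / (2 * n) - e'.1 / (2 * n)) := by
    rw [← h6, ← h7, h5]
    have : e'.1 % (2 * n) + 2 * n * (e'.1 / (2 * n)) = e'.1 := h7
    rw [this, ← h5, h6]
    linarith
  have hn : 0 < 2 * n := by
    rcases le_or_gt (2 * n) 0 with h9 | h9
    · have := hF e he e he; omega
    · exact h9
  have h10 : e.1 / (2 * n) - e'.1 / (2 * n) = 0 := by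
    by_contra h11
    rcases lt_or_gt_of_ne h11 with h12 | h12
    · have : 2 * n * (e.1 / (2 * n) - e'.1 / (2 * n)) ≤ 2 * n * (-1) :=
        mul_le_mul_of_nonneg_left (by omega) hn.le
      linarith
    · have : 2 * n * 1 ≤ 2 * n * (e.1 / (2 * n) - e'.1 / (2 * n)) :=
        mul_le_mul_of_nonneg_left (by omega) hn.le
      linarith
  rw [h10, mul_zero] at h8
  refine Prod.ext ?_ ?_ <;> omega

lemma rp_mem_EC {n L : ℤ} (hn : 1 ≤ n) {e : ℤ × ℤ} (h1 : -L ≤ e.1 + e.2) (h2 : e.1 + e.2 ≤ L)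
    (h3 : (e.1 + e.2) % 2 = 1) : rp n e ∈ EC n L := by
  rw [mem_EC, rp_sum]
  refine ⟨⟨?_, ?_⟩, ⟨h1, h2⟩, h3⟩
  · unfold rp; exact Int.emod_nonneg _ (by omega)
  · unfold rp; exact Int.emod_lt_of_pos _ (by omega)

/-! ### events -/

/-- labels of the window of the arm -/
noncomputable def FA (j : ℤ) : Finset (ℤ × ℤ) :=
  (Bx (-(2 * j)) (2 * j) (-(2 * j)) (2 * j)).filter (fun e => 1 ≤ e.1 + e.2)

lemma mem_FA {j : ℤ} {e : ℤ × ℤ} : e ∈ FA j ↔
    e ∈ Bx (-(2 * j)) (2 * j) (-(2 * j)) (2 * j) ∧ 1 ≤ e.1 + e.2 := by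
  unfold FA; rw [mem_filter]

/-- the arm reaches the top of the window -/
def AT (j : ℤ) (ω : Finset (ℤ × ℤ)) : Prop := ∃ v : ℤ × ℤ, v.2 = 2 * j ∧ Co ω 0 v

/-- the arm reaches the right side of the window -/
def AR' (j : ℤ) (ω : Finset (ℤ × ℤ)) : Prop := ∃ v : ℤ × ℤ, v.1 = 2 * j ∧ Co ω 0 v

lemma AT_inc (j : ℤ) : Inc (AT j) := by
  rintro ω ω' h ⟨v, h1, h2⟩
  exact ⟨v, h1, h2.mono h⟩

lemma Pr_AR' (j : ℤ) : Pr (FA j) (AR' j) = Pr (FA j) (AT j) := by
  have hE : ∀ e, e ∈ FA j ↔ syD.G' e ∈ FA j := by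
    intro e
    rw [mem_FA, mem_FA, mem_Bx, mem_Bx]
    simp only [syD]
    omega
  rw [syD.Pr hE]
  apply Pr_congr
  intro ω _
  constructor
  · rintro ⟨v, h1, h2⟩
    refine ⟨(v.2, v.1), h1, ?_⟩
    have := (syD.co_iff (ω.map syD.G) 0 v).2
    have h3 : syD.g 0 = 0 := rfl
    have h4 : syD.g (v.2, v.1) = v := rfl
    rw [← h3, ← h4] at h2
    exact (syD.co_iff ω 0 (v.2, v.1)).1 h2
  · rintro ⟨v, h1, h2⟩
    refine ⟨(v.2, v.1), h1, ?_⟩
    have h3 := (syD.co_iff ω 0 v).2 h2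
    exact h3

def evA (n j : ℤ) (ω : Finset (ℤ × ℤ)) : Prop := AT j (pull n (FA j) ω)

def evS (n j : ℤ) (ω : Finset (ℤ × ℤ)) : Prop :=
  HC (-(2 * j)) (6 * j) 0 (2 * j) (pull n (Bx (-(2 * j)) (6 * j) 0 (2 * j)) ω)

def evH (n j t : ℤ) (ω : Finset (ℤ × ℤ)) : Prop :=
  HC (2 * j + t) (6 * j + t) (-t) (2 * j - t)
    (pull n (Bx (2 * j + t) (6 * j + t) (-t) (2 * j - t)) ω)

def evV (n j t : ℤ) (ω : Finset (ℤ × ℤ)) : Prop :=
  VC (4 * j + t) (6 * j + t) (-(2 * j) - t) (2 * j - t)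
    (pull n (Bx (4 * j + t) (6 * j + t) (-(2 * j) - t) (2 * j - t)) ω)

lemma evA_inc (n j : ℤ) : Inc (evA n j) := fun _ _ h h' => AT_inc j _ _ (pull_mono h) h'
lemma evS_inc (n j : ℤ) : Inc (evS n j) := fun _ _ h h' => HC_inc _ _ _ _ _ _ (pull_mono h) h'
lemma evH_inc (n j t : ℤ) : Inc (evH n j t) := fun _ _ h h' => HC_inc _ _ _ _ _ _ (pull_mono h) h'
lemma evV_inc (n j t : ℤ) : Inc (evV n j t) := fun _ _ h h' => VC_inc _ _ _ _ _ _ (pull_mono h) h'

lemma Pr_evA {n j L : ℤ} (hj : 1 ≤ j) (hn : 8 * j < n) (hL : 16 * j ≤ L) :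
    Pr (EC n L) (evA n j) = Pr (FA j) (AT j) := by
  unfold evA pull
  refine Pr_pull (rp_inj ?_) ?_ (AT j)
  · intro e he e' he'
    have h1 := mem_Bx.1 (mem_FA.1 he).1
    have h2 := mem_Bx.1 (mem_FA.1 he').1
    omega
  · intro e he
    have h1 := mem_Bx.1 (mem_FA.1 he).1
    exact rp_mem_EC (by omega) (by omega) (by omega) h1.2.2

lemma Pr_evS {n j L : ℤ} (hj : 1 ≤ j) (hn : 8 * j < n) (hL : 16 * j ≤ L) :
    Pr (EC n L) (evS n j) = fc (8 * j) (2 * j) := by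
  have h : Pr (EC n L) (evS n j) = hc (-(2 * j)) (6 * j) 0 (2 * j) := by
    unfold evS pull
    refine Pr_pull (rp_inj ?_) ?_ (HC (-(2 * j)) (6 * j) 0 (2 * j))
    · intro e he e' he'
      have h1 := mem_Bx.1 he
      have h2 := mem_Bx.1 he'
      omega
    · intro e he
      have h1 := mem_Bx.1 he
      exact rp_mem_EC (by omega) (by omega) (by omega) h1.2.2
  rw [h, hc_eq]
  congr 1 <;> ring

lemma Pr_evH {n j L t : ℤ} (hj : 1 ≤ j) (hn : 8 * j < n) (hL : 16 * j ≤ L) :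
    Pr (EC n L) (evH n j t) = fc (4 * j) (2 * j) := by
  have h : Pr (EC n L) (evH n j t) = hc (2 * j + t) (6 * j + t) (-t) (2 * j - t) := by
    unfold evH pull
    refine Pr_pull (rp_inj ?_) ?_ (HC (2 * j + t) (6 * j + t) (-t) (2 * j - t))
    · intro e he e' he'
      have h1 := mem_Bx.1 he
      have h2 := mem_Bx.1 he'
      omega
    · intro e he
      have h1 := mem_Bx.1 he
      exact rp_mem_EC (by omega) (by omega) (by omega) h1.2.2
  rw [h, hc_eq]
  congr 1 <;> ring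

lemma Pr_evV {n j L t : ℤ} (hj : 1 ≤ j) (hn : 8 * j < n) (hL : 16 * j ≤ L) :
    Pr (EC n L) (evV n j t) = fc (4 * j) (2 * j) := by
  have h : Pr (EC n L) (evV n j t) =
      Pr (Bx (4 * j + t) (6 * j + t) (-(2 * j) - t) (2 * j - t))
        (VC (4 * j + t) (6 * j + t) (-(2 * j) - t) (2 * j - t)) := by
    unfold evV pull
    refine Pr_pull (rp_inj ?_) ?_ (VC (4 * j + t) (6 * j + t) (-(2 * j) - t) (2 * j - t))
    · intro e he e' he'
      have h1 := mem_Bx.1 he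
      have h2 := mem_Bx.1 he'
      omega
    · intro e he
      have h1 := mem_Bx.1 he
      exact rp_mem_EC (by omega) (by omega) (by omega) h1.2.2
  rw [h, Pr_VC (subset_refl _)]
  congr 1 <;> ring

/-! ### the deterministic part on the cylinder -/

lemma glue_all {n j : ℤ} (hj : 1 ≤ j) (ω : Finset (ℤ × ℤ)) (t : ℕ → ℤ)
    (M : ℕ) (hM : 1 ≤ M) (h0 : t 0 = 0) (htn : t M = n)
    (ht : ∀ i < M, t i ≤ t (i + 1) ∧ t (i + 1) ≤ t i + 2 * j)
    (hA : evA n j ω) (hS : evS n j ω) (hH : ∀ i < M, evH n j (t i) ω)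
    (hV : ∀ i < M, evV n j (t i) ω) : CoS (PS n ω) 0 (n, -n) := by
  obtain ⟨v, hv1, hv2⟩ := hA
  obtain ⟨p, q, s1, s2, s3, s4, s5⟩ := start hj (S := PS n ω)
    (ωA := pull n (FA j) ω) (ωH := pull n (Bx (-(2 * j)) (6 * j) 0 (2 * j)) ω)
    (fun e he => (mem_FA.1 (pull_sub _ _ _ he)).1)
    (fun e he => (mem_FA.1 (pull_sub _ _ _ he)).2)
    (fun e he => ⟨(mem_FA.1 (pull_sub _ _ _ he)).2, (mem_pull.1 he).2⟩)
    (fun e he h1 => ⟨h1, (mem_pull.1 he).2⟩) hv1 hv2 hS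
  refine stair hj PS_shift t M hM h0 htn ht (p := p) ?_ s5 ?_ ?_
  · refine ⟨pull n (Bx (-(2 * j)) (6 * j) 0 (2 * j)) ω ∩ Bx (2 * j) (6 * j) 0 (2 * j), q,
      ?_, ?_, ?_, ?_, ?_, s4⟩
    · intro e he
      rw [mem_inter] at he
      have h1 := mem_Bx.1 he.2
      exact ⟨by omega, (mem_pull.1 he.1).2⟩
    · intro e he
      have h1 := mem_Bx.1 (mem_inter.1 he).2
      rw [mem_Bx]; omega
    · unfold inB at s1 ⊢; omega
    · omega
    · omega
  · intro i _ hi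
    obtain ⟨p', q', a1, a2, a3, a4⟩ := hH i hi
    refine ⟨p', pull n (Bx (2 * j + t i) (6 * j + t i) (-t i) (2 * j - t i)) ω ∩
      Bx (2 * j + t i) (6 * j + t i) (-t i) (2 * j - t i), q', ?_, inter_subset_right, a1, a2, a3,
      a4⟩
    intro e he
    rw [mem_inter] at he
    have h1 := mem_Bx.1 he.2
    exact ⟨by omega, (mem_pull.1 he.1).2⟩
  · intro i hi
    obtain ⟨p', q', a1, a2, a3, a4⟩ := hV i hi
    refine ⟨pull n (Bx (4 * j + t i) (6 * j + t i) (-(2 * j) - t i) (2 * j - t i)) ω ∩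
      Bx (4 * j + t i) (6 * j + t i) (-(2 * j) - t i) (2 * j - t i), p', q', ?_,
      inter_subset_right, a1, a2, a3, a4⟩
    intro e he
    rw [mem_inter] at he
    have h1 := mem_Bx.1 he.2
    exact ⟨by omega, (mem_pull.1 he.1).2⟩

/-- the finite winding event -/
def WE (n : ℤ) (ω : Finset (ℤ × ℤ)) : Prop := CoS (PS n ω) 0 (n, -n)

lemma WE_inc (n : ℤ) : Inc (WE n) := by
  intro ω ω' h h'
  exact Relation.ReflTransGen.mono (fun a b hab => ⟨hab.1, hab.2.1, h hab.2.2⟩) _ _ h'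

lemma WE_half {n L : ℤ} {ω : Finset (ℤ × ℤ)} (hω : ω ⊆ EC n L) (h : WE n ω) :
    WE n (ω ∩ EH n L) := by
  refine Relation.ReflTransGen.mono (fun a b hab => ⟨hab.1, hab.2.1, ?_⟩) _ _ h
  have h1 : rp n (a + b) ∈ ω := hab.2.2
  rw [mem_inter, mem_EH]
  refine ⟨h1, hω h1, ?_⟩
  rw [rp_sum]; exact hab.2.1

lemma Pr_WE_lower {n j L : ℤ} (hj : 1 ≤ j) (hn : 8 * j < n) (hn' : n ≤ 18 * j)
    (hL : 16 * j ≤ L) : Pr (FA j) (AT j) * (1 / 2 ^ 317) ≤ Pr (EH n L) (WE n) := by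
  obtain ⟨i, rfl⟩ : ∃ i : ℕ, j = i := ⟨j.toNat, by omega⟩
  have hi : 1 ≤ i := by omega
  set E := EC n L with hE
  set t : ℕ → ℤ := fun k => min (2 * (i : ℤ) * k) n with htdef
  have ht : ∀ k : ℕ, t k ≤ t (k + 1) ∧ t (k + 1) ≤ t k + 2 * (i : ℤ) := by
    intro k
    have e1 : t k = min (2 * (i : ℤ) * k) n := rfl
    have e2 : t (k + 1) = min (2 * (i : ℤ) * k + 2 * i) n := by
      show min (2 * (i : ℤ) * ((k + 1 : ℕ) : ℤ)) n = _
      rw [show (2 * (i : ℤ) * ((k + 1 : ℕ) : ℤ)) = 2 * (i : ℤ) * k + 2 * i by push_cast; ring]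
    rw [e1, e2]
    omega
  have ht0 : t 0 = 0 := by simp only [htdef]; push_cast; omega
  have ht9 : t 9 = n := by simp only [htdef]; push_cast; omega
  have hHfin := harris_fin E (fun k => evH n i (t k)) 9 (fun k _ => evH_inc _ _ _)
    (c := 1 / 2 ^ 15) (by positivity) (fun k _ => by
      rw [Pr_evH hj hn hL]
      exact fc_four hi)
  have hVfin := harris_fin E (fun k => evV n i (t k)) 9 (fun k _ => evV_inc _ _ _)
    (c := 1 / 2 ^ 15) (by positivity) (fun k _ => by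
      rw [Pr_evV hj hn hL]
      exact fc_four hi)
  have f1 := Pr_harris E (evA_inc n i) (evS_inc n i)
  have f2 := Pr_harris E hHfin.2 hVfin.2
  have f3 := Pr_harris E (A := fun ω => evA n i ω ∧ evS n i ω)
    (B := fun ω => (∀ k < 9, evH n i (t k) ω) ∧ (∀ k < 9, evV n i (t k) ω))
    (fun _ _ h h' => ⟨evA_inc _ _ _ _ h h'.1, evS_inc _ _ _ _ h h'.2⟩)
    (fun _ _ h h' => ⟨hHfin.2 _ _ h h'.1, hVfin.2 _ _ h h'.2⟩)
  have f4 : Pr E (fun ω => (evA n i ω ∧ evS n i ω) ∧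
      ((∀ k < 9, evH n i (t k) ω) ∧ (∀ k < 9, evV n i (t k) ω))) ≤ Pr (EH n L) (WE n) := by
    rw [← Pr_restrict (E := E) (E1 := EH n L) (filter_subset _ _)]
    apply Pr_mono
    rintro ω hω ⟨⟨h1, h2⟩, h3, h4⟩
    exact WE_half hω (glue_all hj ω t 9 (by norm_num) ht0 ht9 (fun k _ => ht k) h1 h2 h3 h4)
  have g1 : Pr E (evA n i) = Pr (FA i) (AT i) := Pr_evA hj hn hL
  have g2 : (1 : ℝ) / 2 ^ 47 ≤ Pr E (evS n i) := by
    rw [Pr_evS hj hn hL]; exact fc_eight hi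
  have hA0 : 0 ≤ Pr (FA i) (AT i) := Pr_nonneg _ _
  have k1 : Pr (FA i) (AT i) * (1 / 2 ^ 47) ≤ Pr E (fun ω => evA n i ω ∧ evS n i ω) := by
    refine le_trans ?_ f1
    rw [g1]
    exact mul_le_mul_of_nonneg_left g2 hA0
  have k2 : ((1 : ℝ) / 2 ^ 15) ^ 9 * (1 / 2 ^ 15) ^ 9 ≤
      Pr E (fun ω => (∀ k < 9, evH n i (t k) ω) ∧ (∀ k < 9, evV n i (t k) ω)) := by
    refine le_trans ?_ f2
    exact mul_le_mul hHfin.1 hVfin.1 (by positivity) (Pr_nonneg _ _)
  have k3 := (mul_le_mul k1 k2 (by positivity) (Pr_nonneg _ _)).trans (f3.trans f4)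
  refine le_trans (le_of_eq ?_) k3
  have e : (1 : ℝ) / 2 ^ 317 = 1 / 2 ^ 47 * ((1 / 2 ^ 15) ^ 9 * (1 / 2 ^ 15) ^ 9) := by
    simp only [one_div, ← inv_pow]
    rw [← pow_mul, ← pow_add, ← pow_add]
  rw [e]
  generalize ((1 : ℝ) / 2 ^ 15) ^ 9 = y
  ring

/-! ### the cylinder -/

/-- the edge of the cylinder with a given label -/
def phC (n : ℕ) (e : ℤ × ℤ) : ℕ × ZMod n × Bool :=
  (((e.1 + e.2 - 1) / 2).toNat, ((e.1 / 2 : ℤ) : ZMod n), decide (e.1 % 2 = 1))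

lemma phC_inj (n : ℕ) (L : ℤ) : Set.InjOn (phC n) (EH n L) := by
  intro e he e' he' h
  obtain ⟨h1, h2⟩ := mem_EH.1 he
  obtain ⟨h1', h2'⟩ := mem_EH.1 he'
  rw [mem_EC] at h1 h1'
  unfold phC at h
  simp only [Prod.mk.injEq, decide_eq_decide] at h
  obtain ⟨h3, h4, h5⟩ := h
  rw [ZMod.intCast_eq_intCast_iff] at h4
  have h6 : e.1 / 2 = e'.1 / 2 := by
    unfold Int.ModEq at h4
    rw [Int.emod_eq_of_lt (by omega) (by omega), Int.emod_eq_of_lt (by omega) (by omega)] at h4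
    exact h4
  have h7 : e.1 = e'.1 := by omega
  refine Prod.ext h7 ?_
  omega

lemma phC_rp {n : ℕ} (e : ℤ × ℤ) : phC n (rp n e) = phC n e := by
  have h1 := rp_sum n e
  unfold phC
  rw [h1]
  have h2 := Int.emod_add_mul_ediv e.1 (2 * (n : ℤ))
  have h3 : (rp n e).1 = e.1 % (2 * (n : ℤ)) := rfl
  have h4 : e.1 / 2 = (rp n e).1 / 2 + n * (e.1 / (2 * (n : ℤ))) := by
    rw [h3]
    have : e.1 = e.1 % (2 * (n : ℤ)) + 2 * ((n : ℤ) * (e.1 / (2 * (n : ℤ)))) := by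
      rw [← mul_assoc]; exact h2.symm
    omega
  have h5 : (rp n e).1 % 2 = e.1 % 2 := by
    rw [h3]
    have : e.1 = e.1 % (2 * (n : ℤ)) + 2 * ((n : ℤ) * (e.1 / (2 * (n : ℤ)))) := by
      rw [← mul_assoc]; exact h2.symm
    omega
  rw [h5, h4]
  push_cast
  simp

lemma phC_val {n : ℕ} {e : ℤ × ℤ} (k : ℕ) (x : ℤ) (b : Bool)
    (h1 : ((e.1 + e.2 - 1) / 2).toNat = k) (h2 : e.1 / 2 = x) (h3 : e.1 % 2 = 1 ↔ b = true) :
    phC n e = (k, (x : ZMod n), b) := by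
  unfold phC
  rw [h1, h2]
  congr 2
  rw [Bool.eq_iff_iff, decide_eq_true_iff]
  exact h3

lemma cyl_adj {n : ℕ} {L : ℤ} {ω : CConf n} {u v : ℤ × ℤ}
    (h : AdS (PS n (tr (EH n L) (phC n) ω)) u v) : (cylGraph n ω).Adj u v := by
  obtain ⟨h1, h2, h3⟩ := h
  have h4 := (mem_tr.1 h3).2
  rw [phC_rp] at h4
  have hu := unit_cases h1
  simp only [Prod.fst_add, Prod.snd_add] at h2
  unfold cylGraph
  rw [SimpleGraph.fromRel_adj]
  have hne : u ≠ v := by
    rintro rfl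
    omega
  refine ⟨hne, ?_⟩
  rcases hu with ⟨a, b⟩ | ⟨a, b⟩ | ⟨a, b⟩ | ⟨a, b⟩
  · left
    refine ⟨by omega, Or.inl ⟨Prod.ext a b, ?_⟩⟩
    rw [phC_val (u.1 + u.2).toNat u.1 true (by simp only [Prod.fst_add, Prod.snd_add]; omega)
      (by simp only [Prod.fst_add]; omega)
      (by simp only [Prod.fst_add, eq_self_iff_true, iff_true]; omega)] at h4
    exact h4
  · left
    refine ⟨by omega, Or.inr ⟨Prod.ext a b, ?_⟩⟩
    rw [phC_val (u.1 + u.2).toNat u.1 false (by simp only [Prod.fst_add, Prod.snd_add]; omega)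
      (by simp only [Prod.fst_add]; omega)
      (by simp only [Prod.fst_add, Bool.false_eq_true, iff_false]; omega)] at h4
    exact h4
  · right
    refine ⟨by omega, Or.inl ⟨Prod.ext (by simp only; omega) b.symm, ?_⟩⟩
    rw [phC_val (v.1 + v.2).toNat v.1 true (by simp only [Prod.fst_add, Prod.snd_add]; omega)
      (by simp only [Prod.fst_add]; omega)
      (by simp only [Prod.fst_add, eq_self_iff_true, iff_true]; omega)] at h4
    exact h4
  · right
    refine ⟨by omega, Or.inr ⟨Prod.ext a.symm (by simp only; omega), ?_⟩⟩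
    rw [phC_val (v.1 + v.2).toNat v.1 false (by simp only [Prod.fst_add, Prod.snd_add]; omega)
      (by simp only [Prod.fst_add]; omega)
      (by simp only [Prod.fst_add, Bool.false_eq_true, iff_false]; omega)] at h4
    exact h4

lemma winds_of_WE {n : ℕ} {L : ℤ} {ω : CConf n} (h : WE n (tr (EH n L) (phC n) ω)) :
    Winds n ω 0 := by
  refine ⟨1, one_ne_zero, ?_⟩
  have h1 : ∀ v, CoS (PS n (tr (EH n L) (phC n) ω)) 0 v → (cylGraph n ω).Reachable 0 v := by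
    intro v hv
    induction hv with
    | refl => exact SimpleGraph.Reachable.refl _
    | tail _ hbc ih => exact ih.trans (cyl_adj hbc).reachable
  have h2 := h1 _ h
  have e1 : ((0 : ℤ), -(0 : ℤ)) = 0 := by simp
  have e2 : ((0 : ℤ) + 1 * (n : ℤ), -((0 : ℤ) + 1 * (n : ℤ))) = ((n : ℤ), -(n : ℤ)) := by simp
  rw [e1, e2]
  exact h2

lemma cyl_lower (n : ℕ) (L : ℤ) :
    Pr (EH n L) (WE n) ≤ ((cylMeasure n) {ω | Winds n ω 0}).toReal := by
  rw [← coins_tr (phC_inj n L) (WE n)]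
  exact coins_mono (fun ω hω => winds_of_WE hω)

/-! ### the plane -/

/-- the edge of the plane with a given label -/
def phP (e : ℤ × ℤ) : (ℤ × ℤ) × Bool := ((e.1 / 2, e.2 / 2), decide (e.1 % 2 = 1))

lemma phP_inj (j : ℤ) : Set.InjOn phP (FA j) := by
  intro e he e' he' h
  have h1 := mem_Bx.1 (mem_FA.1 he).1
  have h2 := mem_Bx.1 (mem_FA.1 he').1
  unfold phP at h
  simp only [Prod.mk.injEq, decide_eq_decide] at h
  refine Prod.ext ?_ ?_ <;> omega

lemma phP_val {e : ℤ × ℤ} (v : ℤ × ℤ) (b : Bool)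
    (h1 : e.1 / 2 = v.1) (h2 : e.2 / 2 = v.2) (h3 : e.1 % 2 = 1 ↔ b = true) :
    phP e = (v, b) := by
  unfold phP
  rw [h1, h2]
  congr 1
  rw [Bool.eq_iff_iff, decide_eq_true_iff]
  exact h3

lemma plane_arm {n : ℕ} {j : ℤ} (hj : 1 ≤ j) (hjn : 2 * j ≤ n) {ω : PConf} (h : HalfArm n ω) :
    AT j (tr (FA j) phP ω) ∨ AR' j (tr (FA j) phP ω) := by
  obtain ⟨v, hv, hr⟩ := h
  rw [SimpleGraph.reachable_iff_reflTransGen] at hr
  set X : ℤ × ℤ → Prop := fun z => z.1 < 2 * j ∧ z.2 < 2 * j ∧ 0 ≤ z.1 + z.2 with hX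
  set ω' := tr (FA j) phP ω with hω'
  have key : ∀ v, Relation.ReflTransGen (halfGraph ω).Adj (0, 0) v →
      (X v ∧ Co ω' 0 v) ∨ (AT j ω' ∨ AR' j ω') := by
    intro v hv
    induction hv with
    | refl =>
      left
      refine ⟨⟨by simp only; omega, by simp only; omega, by simp⟩, Co.refl _ _⟩
    | @tail b c _ hbc ih =>
      rcases ih with ⟨hb, hco⟩ | h
      · obtain ⟨hb1, hb2, hb3⟩ := hb
        -- the edge
        have hedge : IsUnit4 (c - b) ∧ b + c ∈ ω' ∧ 0 ≤ c.1 + c.2 := by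
          unfold halfGraph at hbc
          rw [SimpleGraph.fromRel_adj] at hbc
          obtain ⟨_, hbc⟩ := hbc
          have hcases : (c.1 = b.1 + 1 ∧ c.2 = b.2 ∧ ω ((b.1, b.2), true) = true) ∨
              (c.1 = b.1 ∧ c.2 = b.2 + 1 ∧ ω ((b.1, b.2), false) = true) ∨
              (b.1 = c.1 + 1 ∧ b.2 = c.2 ∧ ω ((c.1, c.2), true) = true ∧ 0 ≤ c.1 + c.2) ∨
              (b.1 = c.1 ∧ b.2 = c.2 + 1 ∧ ω ((c.1, c.2), false) = true ∧ 0 ≤ c.1 + c.2) := by
            rcases hbc with ⟨h1, ⟨h2, h3⟩ | ⟨h2, h3⟩⟩ | ⟨h1, ⟨h2, h3⟩ | ⟨h2, h3⟩⟩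
            · left
              exact ⟨by rw [h2], by rw [h2], h3⟩
            · right; left
              exact ⟨by rw [h2], by rw [h2], h3⟩
            · right; right; left
              exact ⟨by rw [h2], by rw [h2], h3, h1⟩
            · right; right; right
              exact ⟨by rw [h2], by rw [h2], h3, h1⟩
          refine ⟨?_, ?_, by omega⟩
          · unfold IsUnit4
            simp only [Prod.ext_iff, Prod.fst_sub, Prod.snd_sub]
            omega
          · rw [hω', mem_tr, mem_FA, mem_Bx]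
            simp only [Prod.fst_add, Prod.snd_add]
            refine ⟨by omega, ?_⟩
            rcases hcases with ⟨a1, a2, a3⟩ | ⟨a1, a2, a3⟩ | ⟨a1, a2, a3, _⟩ | ⟨a1, a2, a3, _⟩
            · rw [phP_val b true (by simp only [Prod.fst_add]; omega)
                (by simp only [Prod.snd_add]; omega)
                (by simp only [Prod.fst_add, eq_self_iff_true, iff_true]; omega)]
              exact a3
            · rw [phP_val b false (by simp only [Prod.fst_add]; omega)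
                (by simp only [Prod.snd_add]; omega)
                (by simp only [Prod.fst_add, Bool.false_eq_true, iff_false]; omega)]
              exact a3
            · rw [phP_val c true (by simp only [Prod.fst_add]; omega)
                (by simp only [Prod.snd_add]; omega)
                (by simp only [Prod.fst_add, eq_self_iff_true, iff_true]; omega)]
              exact a3
            · rw [phP_val c false (by simp only [Prod.fst_add]; omega)
                (by simp only [Prod.snd_add]; omega)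
                (by simp only [Prod.fst_add, Bool.false_eq_true, iff_false]; omega)]
              exact a3
        obtain ⟨g1, g2, g3⟩ := hedge
        have hco' : Co ω' 0 c := Relation.ReflTransGen.tail hco ⟨g1, g2⟩
        have hu := unit_cases g1
        by_cases hc1 : c.2 = 2 * j
        · exact Or.inr (Or.inl ⟨c, hc1, hco'⟩)
        by_cases hc2 : c.1 = 2 * j
        · exact Or.inr (Or.inr ⟨c, hc2, hco'⟩)
        exact Or.inl ⟨⟨by omega, by omega, g3⟩, hco'⟩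
      · exact Or.inr h
  rcases key v hr with ⟨hv', _⟩ | h
  · exfalso
    obtain ⟨h1, h2, h3⟩ := hv'
    rcases hv with h4 | h4
    · have : |v.1| < n := by rw [abs_lt]; omega
      omega
    · have : |v.2| < n := by rw [abs_lt]; omega
      omega
  · exact h

lemma plane_upper {n : ℕ} {j : ℤ} (hj : 1 ≤ j) (hjn : 2 * j ≤ n) :
    (planeMeasure {ω | HalfArm n ω}).toReal ≤ 2 * Pr (FA j) (AT j) := by
  have h1 : (planeMeasure {ω | HalfArm n ω}).toReal ≤
      (coins ((ℤ × ℤ) × Bool) {ω | AT j (tr (FA j) phP ω) ∨ AR' j (tr (FA j) phP ω)}).toReal :=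
    coins_mono (fun ω hω => plane_arm hj hjn hω)
  refine h1.trans ?_
  rw [coins_tr (phP_inj j) (fun ω => AT j ω ∨ AR' j ω)]
  refine (Pr_or_le _ _ _).trans ?_
  rw [Pr_AR']
  linarith

/-! ### small circumference -/

lemma small_lower {n : ℕ} (hn : 1 ≤ n) :
    (1 / 2 : ℝ) ^ (2 * n) ≤ Pr (EH n 1) (WE n) := by
  classical
  have hcard : (EH n 1).card ≤ 2 * n := by
    have : EH (n : ℤ) 1 ⊆ (Icc 0 (2 * (n : ℤ) - 1)).image (fun x => (x, 1 - x)) := by
      intro e he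
      obtain ⟨h1, h2⟩ := mem_EH.1 he
      rw [mem_EC] at h1
      rw [mem_image]
      refine ⟨e.1, by rw [mem_Icc]; omega, Prod.ext rfl (by simp only; omega)⟩
    refine (card_le_card this).trans (card_image_le.trans ?_)
    rw [Int.card_Icc]; omega
  have hall : WE n (EH n 1) := by
    have step : ∀ k : ℕ, CoS (PS n (EH n 1)) 0 ((k : ℤ), -(k : ℤ)) := by
      intro k
      induction k with
      | zero => simp only [Nat.cast_zero, neg_zero]; exact Relation.ReflTransGen.refl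
      | succ k ih =>
        refine Relation.ReflTransGen.tail (b := ((k : ℤ) + 1, -(k : ℤ)))
          (Relation.ReflTransGen.tail ih ⟨?_, ?_⟩) ⟨?_, ?_⟩
        · unfold IsUnit4
          simp only [Prod.ext_iff, Prod.fst_sub, Prod.snd_sub]
          omega
        · rw [mem_PS, mem_EH]
          simp only [Prod.fst_add, Prod.snd_add]
          refine ⟨by omega, rp_mem_EC (by omega) ?_ ?_ ?_, ?_⟩
          · simp only [Prod.fst_add, Prod.snd_add]; omega
          · simp only [Prod.fst_add, Prod.snd_add]; omega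
          · simp only [Prod.fst_add, Prod.snd_add]; omega
          · rw [rp_sum]; simp only [Prod.fst_add, Prod.snd_add]; omega
        · unfold IsUnit4
          simp only [Prod.ext_iff, Prod.fst_sub, Prod.snd_sub]
          push_cast
          omega
        · rw [mem_PS, mem_EH]
          simp only [Prod.fst_add, Prod.snd_add]
          push_cast
          refine ⟨by omega, rp_mem_EC (by omega) ?_ ?_ ?_, ?_⟩
          · simp only [Prod.fst_add, Prod.snd_add]; omega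
          · simp only [Prod.fst_add, Prod.snd_add]; omega
          · simp only [Prod.fst_add, Prod.snd_add]; omega
          · rw [rp_sum]; simp only [Prod.fst_add, Prod.snd_add]; push_cast; omega
    exact step n
  have h1 : (1 : ℝ) ≤ (((EH (n : ℤ) 1).powerset.filter (WE n)).card : ℝ) := by
    have : 0 < ((EH (n : ℤ) 1).powerset.filter (WE n)).card :=
      card_pos.2 ⟨EH n 1, mem_filter.2 ⟨mem_powerset.2 (subset_refl _), hall⟩⟩
    exact_mod_cast this
  rw [Pr_eq]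
  have h2 : (1 / 2 : ℝ) ^ (2 * n) ≤ (1 / 2) ^ (EH (n : ℤ) 1).card :=
    pow_le_pow_of_le_one (by norm_num) (by norm_num) hcard
  refine h2.trans ?_
  rw [one_div, inv_pow, ← one_div]
  exact div_le_div_of_nonneg_right h1 (by positivity)

/-! ### the theorem -/

theorem halfArm_le_winds : ∃ C : ℝ, 0 < C ∧ ∀ n : ℕ, 1 ≤ n →
    (planeMeasure {ω | HalfArm n ω}).toReal ≤ C * ((cylMeasure n) {ω | Winds n ω 0}).toReal := by
  refine ⟨2 ^ 318, by positivity, ?_⟩
  intro n hn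
  rcases Nat.lt_or_ge n 9 with hlt | hge
  · -- small circumference
    have h1 : (planeMeasure {ω | HalfArm n ω}).toReal ≤ 1 := by
      have : planeMeasure = coins ((ℤ × ℤ) × Bool) := rfl
      rw [this]
      have h2 : coins ((ℤ × ℤ) × Bool) {ω | HalfArm n ω} ≤ 1 := prob_le_one
      exact ENNReal.toReal_le_of_le_ofReal (by norm_num) (by simpa using h2)
    have h2 := (small_lower hn).trans (cyl_lower n 1)
    have h3 : (1 / 2 : ℝ) ^ 16 ≤ (1 / 2) ^ (2 * n) :=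
      pow_le_pow_of_le_one (by norm_num) (by norm_num) (by omega)
    have h4 : (1 : ℝ) ≤ 2 ^ 318 * (1 / 2) ^ 16 := by
      have e1 : (2 : ℝ) ^ 318 = 2 ^ 302 * 2 ^ 16 := by rw [← pow_add]
      have e2 : (2 : ℝ) ^ 318 * (1 / 2) ^ 16 = 2 ^ 302 := by
        rw [e1, mul_assoc, ← mul_pow]
        norm_num
      rw [e2]
      exact one_le_pow₀ (by norm_num)
    calc (planeMeasure {ω | HalfArm n ω}).toReal ≤ 1 := h1
      _ ≤ 2 ^ 318 * (1 / 2) ^ 16 := h4
      _ ≤ _ := mul_le_mul_of_nonneg_left (h3.trans h2) (by positivity)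
  · set j : ℕ := n / 9 with hjdef
    have hj1 : (1 : ℤ) ≤ (j : ℤ) := by omega
    have hj2 : 8 * (j : ℤ) < (n : ℤ) := by omega
    have hj3 : (n : ℤ) ≤ 18 * (j : ℤ) := by omega
    have h1 := plane_upper (n := n) (j := j) hj1 (by omega)
    have h2 := Pr_WE_lower (n := n) (j := j) (L := 16 * j) hj1 hj2 hj3 le_rfl
    have h3 := cyl_lower n (16 * j)
    have h4 := h2.trans h3
    have h5 : (2 : ℝ) * Pr (FA j) (AT j) = 2 ^ 318 * (Pr (FA j) (AT j) * (1 / 2 ^ 317)) := by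
      have : (2 : ℝ) ^ 318 * (1 / 2 ^ 317) = 2 := by
        have h0 : (2 : ℝ) ^ 317 ≠ 0 := by positivity
        rw [pow_succ (2 : ℝ) 317]
        generalize (2 : ℝ) ^ 317 = y at h0
        field_simp
      rw [mul_left_comm, ← mul_assoc, mul_comm (Pr (FA j) (AT j)) ((2 : ℝ) ^ 318), mul_assoc,
        mul_comm (Pr (FA j) (AT j)) (1 / 2 ^ 317), ← mul_assoc, this]
    rw [h5] at h1
    exact h1.trans (mul_le_mul_of_nonneg_left h4 (by positivity))

end Pool.Agent.H63.Perc
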