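import Mathlib
import Pool.Agent.H65.Perc.FunEq

set_option autoImplicit false
open Polynomial

/-! From the functional equation to linear relations. -/

namespace Pool.Agent.H63.Perc

open Pool.Agent.H65.Perc (HH tt0 tt1 tt2)

/-- `rr s` evaluated at `T` is `T ^ (2 s) (t₁ ^ s + t₂ ^ s)` if `t₁ + t₂ = 3 / T - 1 / T ^ 2`,
`t₁ t₂ = 1 / T`. -/
noncomputable def rr : ℕ → ℝ[X]
  | 0 => 2
  | 1 => 3 * X - 1
  | s + 2 => (3 * X - 1) * rr (s + 1) - X ^ 3 * rr s

lemma rr_zero : rr 0 = 2 := by rw [rr]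
lemma rr_one : rr 1 = 3 * X - 1 := by rw [rr]
lemma rr_add_two (s : ℕ) : rr (s + 2) = (3 * X - 1) * rr (s + 1) - X ^ 3 * rr s := by rw [rr]

noncomputable def WW (l : ℕ) : ℝ[X] := (X - 1) ^ (3 * l + 2) * (X + 2)

lemma WW_succ (l : ℕ) : WW (l + 1) = (X - 1) ^ 3 * WW l := by
  unfold WW
  rw [show 3 * (l + 1) + 2 = 3 + (3 * l + 2) by ring, pow_add]; ring

noncomputable def nu (s : ℕ) : ℝ[X] := X ^ (3 * s) + rr s

lemma nu_rec (s : ℕ) : nu (s + 3) = ((X - 1) ^ 3 + 3 * X ^ 2) * nu (s + 2) -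
    3 * X ^ 4 * nu (s + 1) + X ^ 6 * nu s := by
  unfold nu
  have h1 := rr_add_two (s + 1)
  have h2 := rr_add_two s
  have e1 : s + 1 + 2 = s + 3 := by ring
  have e2 : s + 1 + 1 = s + 2 := by ring
  rw [e1, e2] at h1
  rw [h1, show 3 * (s + 3) = 3 * s + 9 by ring, show 3 * (s + 2) = 3 * s + 6 by ring,
    show 3 * (s + 1) = 3 * s + 3 by ring, pow_add, pow_add, pow_add, h2]
  ring

lemma coeff_sub_one_pow (n k : ℕ) :
    ((X - 1 : ℝ[X]) ^ n).coeff k = (-1) ^ (n - k) * (n.choose k : ℝ) := by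
  have := coeff_X_add_C_pow (-1 : ℝ) n k
  rw [← this]
  congr 2
  rw [C_neg, C_1, sub_eq_add_neg]

lemma WW_coeff_succ (l k : ℕ) : (WW l).coeff (k + 1) =
    (-1) ^ (3 * l + 2 - k) * ((3 * l + 2).choose k : ℝ) +
      2 * ((-1) ^ (3 * l + 2 - (k + 1)) * ((3 * l + 2).choose (k + 1) : ℝ)) := by
  unfold WW
  have h2 : (2 : ℝ[X]) = C 2 := (map_ofNat (C : ℝ →+* ℝ[X]) 2).symm
  rw [mul_add, coeff_add, coeff_mul_X, coeff_sub_one_pow, h2, coeff_mul_C, coeff_sub_one_pow]
  ring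

lemma WW_coeff_zero (l : ℕ) : (WW l).coeff 0 = 2 * (-1) ^ (3 * l + 2) := by
  unfold WW
  rw [mul_coeff_zero, coeff_sub_one_pow]
  simp
  ring

lemma WW_mid (l : ℕ) : (WW l).coeff (2 * l + 2) = 0 := by
  rw [show 2 * l + 2 = (2 * l + 1) + 1 by ring, WW_coeff_succ]
  have h := Nat.choose_succ_right_eq (3 * l + 2) (2 * l + 1)
  have h1 : 3 * l + 2 - (2 * l + 1) = l + 1 := by omega
  have h2 : 3 * l + 2 - (2 * l + 1 + 1) = l := by omega
  rw [h1] at h
  rw [h1, h2]
  have h3 : (((3 * l + 2).choose (2 * l + 1 + 1) : ℕ) : ℝ) * (2 * l + 1 + 1) =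
      ((3 * l + 2).choose (2 * l + 1) : ℕ) * (l + 1) := by exact_mod_cast h
  have h4 : (2 : ℝ) * (((3 * l + 2).choose (2 * l + 1 + 1) : ℕ) : ℝ) =
      ((3 * l + 2).choose (2 * l + 1) : ℕ) := by
    have h5 : ((l : ℝ) + 1) ≠ 0 := by positivity
    apply mul_right_cancel₀ h5
    rw [← h3]; ring
  rw [pow_succ, ← h4]
  ring

lemma nu_zero : nu 0 = 3 := by
  unfold nu; rw [rr_zero]; norm_num

lemma nu_one : nu 1 = (X - 1) ^ 3 + 3 * X ^ 2 := by
  unfold nu; rw [rr_one]; ring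

lemma nu_two : nu 2 = ((X - 1) ^ 3 + 3 * X ^ 2) ^ 2 - 6 * X ^ 4 := by
  have h : rr 2 = (3 * X - 1) * rr 1 - X ^ 3 * rr 0 := rr_add_two 0
  unfold nu; rw [h, rr_one, rr_zero]; ring

lemma coeff_shift (P : ℝ[X]) (a k : ℕ) : (X ^ a * P).coeff (k + a) = P.coeff k := by
  rw [coeff_X_pow_mul]

lemma coeff_nat (P : ℝ[X]) (m k : ℕ) : ((m : ℝ[X]) * P).coeff k = (m : ℝ) * P.coeff k := by
  rw [← C_eq_natCast, coeff_C_mul]

lemma nu_coeff (s : ℕ) : ∀ l, (nu s * WW l).coeff (2 * l + 2 + 2 * s) = 0 := by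
  have key : ∀ s, (∀ l, (nu s * WW l).coeff (2 * l + 2 + 2 * s) = 0) ∧
      (∀ l, (nu (s + 1) * WW l).coeff (2 * l + 2 + 2 * (s + 1)) = 0) ∧
      (∀ l, (nu (s + 2) * WW l).coeff (2 * l + 2 + 2 * (s + 2)) = 0) := by
    intro s
    induction s with
    | zero =>
      refine ⟨fun l => ?_, fun l => ?_, fun l => ?_⟩
      · rw [nu_zero]
        have e : (3 : ℝ[X]) * WW l = ((3 : ℕ) : ℝ[X]) * WW l := by push_cast; ring
        rw [e, coeff_nat, mul_zero, add_zero, WW_mid, mul_zero]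
      · rw [zero_add, nu_one]
        have e : ((X - 1) ^ 3 + 3 * X ^ 2) * WW l = WW (l + 1) + ((3 : ℕ) : ℝ[X]) * (X ^ 2 * WW l) := by
          rw [WW_succ]; push_cast; ring
        rw [e, coeff_add, coeff_nat, show 2 * l + 2 + 2 * 1 = 2 * (l + 1) + 2 by ring, WW_mid,
          show 2 * (l + 1) + 2 = (2 * l + 2) + 2 by ring, coeff_shift, WW_mid]
        simp
      · rw [zero_add, nu_two]
        have e : (((X - 1) ^ 3 + 3 * X ^ 2) ^ 2 - 6 * X ^ 4) * WW l = WW (l + 1 + 1) +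
            ((6 : ℕ) : ℝ[X]) * (X ^ 2 * WW (l + 1)) + ((3 : ℕ) : ℝ[X]) * (X ^ 4 * WW l) := by
          rw [WW_succ, WW_succ]; push_cast; ring
        rw [e, coeff_add, coeff_add, coeff_nat, coeff_nat,
          show 2 * l + 2 + 2 * 2 = 2 * (l + 1 + 1) + 2 by ring, WW_mid,
          show 2 * (l + 1 + 1) + 2 = (2 * (l + 1) + 2) + 2 by ring, coeff_shift, WW_mid,
          show 2 * (l + 1) + 2 + 2 = (2 * l + 2) + 4 by ring, coeff_shift, WW_mid]
        simp
    | succ s ih =>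
      obtain ⟨h0, h1, h2⟩ := ih
      refine ⟨h1, h2, fun l => ?_⟩
      rw [show s + 1 + 2 = s + 3 by ring, nu_rec]
      have e : (((X - 1) ^ 3 + 3 * X ^ 2) * nu (s + 2) - 3 * X ^ 4 * nu (s + 1) + X ^ 6 * nu s) *
          WW l = nu (s + 2) * WW (l + 1) + ((3 : ℕ) : ℝ[X]) * (X ^ 2 * (nu (s + 2) * WW l)) -
          ((3 : ℕ) : ℝ[X]) * (X ^ 4 * (nu (s + 1) * WW l)) + X ^ 6 * (nu s * WW l) := by
        rw [WW_succ]; push_cast; ring
      rw [e, coeff_add, coeff_sub, coeff_add, coeff_nat, coeff_nat]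
      have a1 := h2 (l + 1)
      have a2 := h2 l
      have a3 := h1 l
      have a4 := h0 l
      rw [show 2 * (l + 1) + 2 + 2 * (s + 2) = 2 * l + 2 + 2 * (s + 3) by ring] at a1
      rw [a1, show 2 * l + 2 + 2 * (s + 3) = (2 * l + 2 + 2 * (s + 2)) + 2 by ring, coeff_shift, a2,
        show 2 * l + 2 + 2 * (s + 2) + 2 = (2 * l + 2 + 2 * (s + 1)) + 4 by ring, coeff_shift, a3,
        show 2 * l + 2 + 2 * (s + 1) + 4 = (2 * l + 2 + 2 * s) + 6 by ring, coeff_shift, a4]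
      simp
  exact (key s).1

/-! ### reversed trace -/

/-- `X ^ (2 N)` times the trace over the two small roots -/
noncomputable def RR (N : ℕ) (G : ℝ[X]) : ℝ[X] :=
  ∑ s ∈ Finset.range (N + 1), C (G.coeff s) * (X ^ (2 * (N - s)) * rr s)

lemma rr_eval (T t1 t2 : ℝ) (hT : T ≠ 0) (h1 : t1 + t2 = 3 / T - 1 / T ^ 2) (h2 : t1 * t2 = 1 / T)
    (s : ℕ) : (rr s).eval T = T ^ (2 * s) * (t1 ^ s + t2 ^ s) := by
  have key : ∀ s, (rr s).eval T = T ^ (2 * s) * (t1 ^ s + t2 ^ s) ∧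
      (rr (s + 1)).eval T = T ^ (2 * (s + 1)) * (t1 ^ (s + 1) + t2 ^ (s + 1)) := by
    intro s
    induction s with
    | zero =>
      refine ⟨?_, ?_⟩
      · rw [rr_zero]; norm_num
      · rw [zero_add, rr_one]
        simp only [eval_sub, eval_mul, eval_X, eval_one, mul_one, pow_one]
        rw [h1]
        have : (3 : ℝ[X]).eval T = 3 := by simp
        rw [this]
        field_simp
    | succ s ih =>
      refine ⟨ih.2, ?_⟩
      rw [show s + 1 + 1 = s + 2 by ring, rr_add_two]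
      simp only [eval_sub, eval_mul, eval_X, eval_one, eval_pow]
      have h3 : (3 : ℝ[X]).eval T = 3 := by simp
      rw [h3, ih.1, ih.2]
      have e1 : 3 * T - 1 = T ^ 2 * (t1 + t2) := by rw [h1]; field_simp
      have e2 : T ^ 3 = T ^ 4 * (t1 * t2) := by rw [h2]; field_simp
      rw [e1, e2]
      ring
  exact (key s).1

lemma RR_eval (N : ℕ) (G : ℝ[X]) (hG : G.natDegree ≤ N) (T t1 t2 : ℝ) (hT : T ≠ 0)
    (h1 : t1 + t2 = 3 / T - 1 / T ^ 2) (h2 : t1 * t2 = 1 / T) :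
    (RR N G).eval T = T ^ (2 * N) * (G.eval t1 + G.eval t2) := by
  unfold RR
  rw [eval_finsetSum, eval_eq_sum_range' (Nat.lt_succ_of_le hG),
    eval_eq_sum_range' (Nat.lt_succ_of_le hG), ← Finset.sum_add_distrib, Finset.mul_sum]
  apply Finset.sum_congr rfl
  intro s hs
  have hs' : s ≤ N := by rw [Finset.mem_range] at hs; omega
  rw [eval_mul, eval_C, eval_mul, eval_pow, eval_X, rr_eval T t1 t2 hT h1 h2]
  have e : 2 * N = 2 * (N - s) + 2 * s := by omega
  rw [e, pow_add]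
  ring

lemma rr_natDegree (s : ℕ) : (rr (s + 1)).natDegree ≤ 2 * s + 1 := by
  have key : ∀ s, (rr (s + 1)).natDegree ≤ 2 * s + 1 ∧ (rr (s + 2)).natDegree ≤ 2 * s + 3 := by
    intro s
    induction s with
    | zero =>
      refine ⟨?_, ?_⟩
      · rw [zero_add, rr_one]; compute_degree
      · have h : rr 2 = (3 * X - 1) * rr 1 - X ^ 3 * rr 0 := rr_add_two 0
        rw [zero_add, h, rr_one, rr_zero]
        compute_degree
    | succ s ih =>
      refine ⟨ih.2, ?_⟩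
      rw [show s + 1 + 2 = (s + 1) + 2 by ring, rr_add_two]
      refine (natDegree_sub_le _ _).trans (max_le ?_ ?_)
      · refine natDegree_mul_le.trans ?_
        have h1 : (3 * X - 1 : ℝ[X]).natDegree ≤ 1 := by compute_degree
        have h2 := ih.2
        rw [show s + 1 + 1 = s + 2 by ring]
        omega
      · refine natDegree_mul_le.trans ?_
        have h1 : (X ^ 3 : ℝ[X]).natDegree ≤ 3 := by compute_degree
        have h2 := ih.1
        omega
  exact (key s).1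

lemma RR_natDegree (N : ℕ) (hN : 1 ≤ N) (G : ℝ[X]) (h0 : G.coeff 0 = 0) :
    (RR N G).natDegree ≤ 2 * N - 1 := by
  unfold RR
  refine natDegree_sum_le_of_forall_le _ _ fun s hs => ?_
  rw [Finset.mem_range] at hs
  rcases s with _ | s
  · rw [h0]; simp
  · refine (natDegree_C_mul_le _ _).trans (natDegree_mul_le.trans ?_)
    have h1 := rr_natDegree s
    have h2 : (X ^ (2 * (N - (s + 1))) : ℝ[X]).natDegree ≤ 2 * (N - (s + 1)) := by
      compute_degree
    omega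

lemma RR_key (N : ℕ) (G : ℝ[X]) (hG : G.natDegree ≤ N) (l : ℕ) :
    ((X ^ (2 * N) * G + RR N G) * WW l).coeff (2 * l + 2 + 2 * N) = 0 := by
  have h1 : X ^ (2 * N) * G + RR N G = ∑ s ∈ Finset.range (N + 1),
      C (G.coeff s) * (X ^ (2 * (N - s)) * nu s) := by
    have h0 : X ^ (2 * N) * G = ∑ s ∈ Finset.range (N + 1),
        C (G.coeff s) * (X ^ (2 * (N - s)) * X ^ (3 * s)) := by
      have h00 := G.as_sum_range' (N + 1) (Nat.lt_succ_of_le hG)
      calc X ^ (2 * N) * G = X ^ (2 * N) *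
          ∑ s ∈ Finset.range (N + 1), monomial s (G.coeff s) := by rw [← h00]
        _ = _ := by
          rw [Finset.mul_sum]
          apply Finset.sum_congr rfl
          intro s hs
          have hs' : s ≤ N := by rw [Finset.mem_range] at hs; omega
          rw [← C_mul_X_pow_eq_monomial, ← pow_add, show 2 * (N - s) + 3 * s = 2 * N + s by omega,
            pow_add]
          ring
    rw [h0]
    unfold RR nu
    rw [← Finset.sum_add_distrib]
    apply Finset.sum_congr rfl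
    intro s _
    ring
  rw [h1, Finset.sum_mul, finsetSum_coeff]
  apply Finset.sum_eq_zero
  intro s hs
  have hs' : s ≤ N := by rw [Finset.mem_range] at hs; omega
  rw [mul_assoc, mul_assoc, coeff_C_mul,
    show 2 * l + 2 + 2 * N = (2 * l + 2 + 2 * s) + 2 * (N - s) by omega, coeff_shift, nu_coeff,
    mul_zero]

/-! ### the functional equation bounds the degree of the reversed trace -/

noncomputable def HP (n : ℕ) (P : ℕ → ℝ) : ℝ[X] := ∑ s ∈ Finset.range (n + 1), C (P s) * X ^ s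

lemma HP_coeff (n : ℕ) (P : ℕ → ℝ) (k : ℕ) : (HP n P).coeff k = if k ≤ n then P k else 0 := by
  unfold HP
  rw [finsetSum_coeff]
  simp only [coeff_C_mul, coeff_X_pow]
  simp only [mul_ite, mul_one, mul_zero]
  rw [Finset.sum_ite_eq]
  simp only [Finset.mem_range, Nat.lt_succ_iff]

lemma HP_natDegree (n : ℕ) (P : ℕ → ℝ) : (HP n P).natDegree ≤ n := by
  rw [natDegree_le_iff_coeff_eq_zero]
  intro k hk
  rw [HP_coeff, if_neg (by omega)]

lemma HP_natDegree_eq (n : ℕ) (P : ℕ → ℝ) (hP : P n ≠ 0) : (HP n P).natDegree = n := by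
  refine natDegree_eq_of_le_of_coeff_ne_zero (HP_natDegree n P) ?_
  rw [HP_coeff, if_pos le_rfl]; exact hP

lemma HP_eval (n : ℕ) (P : ℕ → ℝ) (t : ℝ) : (HP n P).eval t = HH n P t := by
  unfold HP HH
  rw [eval_finsetSum]
  simp

lemma tt_rel (z : ℝ) (h0 : z ≠ 0) (h1 : z ≠ 1) (h2 : z ≠ -1) :
    tt0 z ≠ 0 ∧ tt1 z + tt2 z = 3 / tt0 z - 1 / tt0 z ^ 2 ∧ tt1 z * tt2 z = 1 / tt0 z := by
  have a1 : 1 - z ≠ 0 := fun h => h1 (by linarith)
  have a2 : 1 + z ≠ 0 := fun h => h2 (by linarith)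
  have a3 : 1 - z ^ 2 ≠ 0 := by
    have : 1 - z ^ 2 = (1 - z) * (1 + z) := by ring
    rw [this]; exact mul_ne_zero a1 a2
  have e0 : tt0 z = -((1 - z) * (1 + z)) / (4 * z ^ 2) := by unfold tt0; congr 1; ring
  have hne : tt0 z ≠ 0 := by
    rw [e0]
    exact div_ne_zero (neg_ne_zero.2 (mul_ne_zero a1 a2)) (by positivity)
  refine ⟨hne, ?_, ?_⟩
  · rw [e0]; unfold tt1 tt2
    field_simp
    ring
  · rw [e0]; unfold tt1 tt2
    field_simp
    ring

theorem RR_degree (n : ℕ) (hn : 1 ≤ n) (P : ℕ → ℝ) (hP0 : P 0 = 0) (hPn : P n ≠ 0)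
    (Z : Set ℝ) (hZ : Z.Infinite) (hZ0 : ∀ z ∈ Z, z ≠ 0 ∧ z ≠ 1 ∧ z ≠ -1)
    (hfe : ∀ z ∈ Z, HH n P (tt0 z) * HH n P (tt1 z) + HH n P (tt1 z) * HH n P (tt2 z)
      + HH n P (tt0 z) * HH n P (tt2 z) = 3) : (RR n (HP n P)).natDegree ≤ n := by
  set H := HP n P with hH
  set R := RR n H with hR
  set R2 := RR (2 * n) (H ^ 2) with hR2
  have hHd : H.natDegree ≤ n := HP_natDegree n P
  have hH2d : (H ^ 2).natDegree ≤ 2 * n := natDegree_pow_le.trans (by omega)
  have hc0 : H.coeff 0 = 0 := by rw [hH, HP_coeff]; simp [hP0]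
  have hc20 : (H ^ 2).coeff 0 = 0 := by rw [pow_two, mul_coeff_zero, hc0]; simp
  -- the polynomial identity
  have hQ : H * X ^ (2 * n) * R + C (1 / 2) * (R ^ 2 - R2) = 3 * X ^ (4 * n) := by
    apply Polynomial.eq_of_infinite_eval_eq
    have hinf : (tt0 '' Z).Infinite := by
      intro hfin
      apply hZ
      have : Z ⊆ ⋃ y ∈ tt0 '' Z, {z | z ≠ 0 ∧ tt0 z = y} := by
        intro z hz
        simp only [Set.mem_iUnion]
        exact ⟨tt0 z, ⟨z, hz, rfl⟩, (hZ0 z hz).1, rfl⟩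
      refine Set.Finite.subset (hfin.biUnion ?_) this
      intro y _
      -- at most two solutions
      have hsub : {z : ℝ | z ≠ 0 ∧ tt0 z = y} ⊆
          {z | z = Real.sqrt (1 / (1 - 4 * y)) ∨ z = -Real.sqrt (1 / (1 - 4 * y))} := by
        rintro z ⟨hz0, hz⟩
        have hz2 : 0 < z ^ 2 := by positivity
        unfold tt0 at hz
        rw [div_eq_iff (by positivity)] at hz
        have h3 : z ^ 2 * (1 - 4 * y) = 1 := by linarith
        have h4 : 1 - 4 * y ≠ 0 := by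
          intro h; rw [h] at h3; simp at h3
        have h5 : z ^ 2 = 1 / (1 - 4 * y) := by
          rw [eq_div_iff h4]; exact h3
        rw [← h5]
        have h6 := Real.sqrt_sq_eq_abs z
        rcases abs_choice z with h7 | h7
        · left; show z = _; rw [h6, h7]
        · right; show z = _; rw [h6, h7, neg_neg]
      refine Set.Finite.subset (Set.toFinite {Real.sqrt (1 / (1 - 4 * y)),
        -Real.sqrt (1 / (1 - 4 * y))}) ?_
      intro z hz
      have := hsub hz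
      simpa using this
    refine hinf.mono ?_
    rintro _ ⟨z, hz, rfl⟩
    obtain ⟨hz0, hz1, hz2⟩ := hZ0 z hz
    obtain ⟨hne, hs, hp⟩ := tt_rel z hz0 hz1 hz2
    show _ = _
    have h3 : (3 : ℝ[X]).eval (tt0 z) = 3 := by simp
    simp only [eval_add, eval_mul, eval_pow, eval_X, eval_C, eval_sub]
    rw [h3, hR, hR2, RR_eval n H hHd _ _ _ hne hs hp, RR_eval (2 * n) (H ^ 2) hH2d _ _ _ hne hs hp]
    simp only [eval_pow, hH, HP_eval]
    have hf := hfe z hz
    have e : (tt0 z) ^ (4 * n) = (tt0 z) ^ (2 * n) * (tt0 z) ^ (2 * n) := by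
      rw [← pow_add]; congr 1; ring
    have e2 : (tt0 z) ^ (2 * (2 * n)) = (tt0 z) ^ (2 * n) * (tt0 z) ^ (2 * n) := by
      rw [← pow_add]; congr 1; ring
    rw [e, e2]
    generalize (tt0 z) ^ (2 * n) = y at *
    generalize HH n P (tt0 z) = a at *
    generalize HH n P (tt1 z) = b at *
    generalize HH n P (tt2 z) = c at *
    have : 3 * (y * y) = y * y * (a * b + b * c + a * c) := by rw [hf]; ring
    rw [this]
    ring
  -- degrees
  by_cases hR0 : R = 0
  · rw [hR0]; simp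
  have hH0 : H ≠ 0 := by
    intro h
    apply hPn
    have := HP_coeff n P n
    rw [if_pos le_rfl] at this
    rw [← this, ← hH, h]; simp
  have hdeg1 : (H * X ^ (2 * n) * R).natDegree = n + 2 * n + R.natDegree := by
    rw [natDegree_mul (mul_ne_zero hH0 (pow_ne_zero _ X_ne_zero)) hR0,
      natDegree_mul hH0 (pow_ne_zero _ X_ne_zero), natDegree_X_pow, hH, HP_natDegree_eq n P hPn]
  have hRd : R.natDegree ≤ 2 * n - 1 := RR_natDegree n hn H hc0
  have hR2d : R2.natDegree ≤ 2 * (2 * n) - 1 := RR_natDegree (2 * n) (by omega) (H ^ 2) hc20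
  have hle : (H * X ^ (2 * n) * R).natDegree ≤ 4 * n := by
    have e : H * X ^ (2 * n) * R = 3 * X ^ (4 * n) - C (1 / 2) * (R ^ 2 - R2) := by
      rw [← hQ]; ring
    rw [e]
    refine (natDegree_sub_le _ _).trans (max_le ?_ ?_)
    · compute_degree
    · refine (natDegree_C_mul_le _ _).trans ((natDegree_sub_le _ _).trans (max_le ?_ ?_))
      · exact natDegree_pow_le.trans (by omega)
      · omega
  omega

/-- The linear relations. -/
theorem linear_rel (n : ℕ) (G : ℝ[X]) (hG : G.natDegree ≤ n) (hR : (RR n G).natDegree ≤ n)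
    (l : ℕ) (hl : l + 1 < n) : (G * WW l).coeff (2 * l + 2) = 0 := by
  have h1 := RR_key n G hG l
  have h2 : (RR n G * WW l).coeff (2 * l + 2 + 2 * n) = 0 := by
    apply coeff_eq_zero_of_natDegree_lt
    refine lt_of_le_of_lt natDegree_mul_le ?_
    have : (WW l).natDegree ≤ 3 * l + 3 := by
      unfold WW
      refine natDegree_mul_le.trans ?_
      have h3 : ((X - 1 : ℝ[X]) ^ (3 * l + 2)).natDegree ≤ 3 * l + 2 := by
        refine natDegree_pow_le.trans ?_
        have : (X - 1 : ℝ[X]).natDegree ≤ 1 := by compute_degree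
        nlinarith
      have h4 : (X + 2 : ℝ[X]).natDegree ≤ 1 := by compute_degree
      omega
    omega
  rw [add_mul, coeff_add, h2, add_zero, mul_assoc, coeff_shift] at h1
  exact h1

end Pool.Agent.H63.Perc
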