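import Mathlib
import Pool.Agent.H63.Perc.LawA

set_option autoImplicit false
open Polynomial

/-! The closed form of the law, its sums, and uniqueness. -/

namespace Pool.Agent.H63.Perc

/-- the closed form -/
noncomputable def law (n k : ℕ) : ℝ :=
  3 / (2 * n) * (k * Nat.centralBinom k) *
    ((∏ j ∈ Finset.range k, ((n : ℝ) ^ 2 - (j : ℝ) ^ 2)) /
      ∏ j ∈ Finset.range k, (4 * (n : ℝ) ^ 2 - ((j : ℝ) + 1) ^ 2))

lemma law_zero (n : ℕ) : law n 0 = 0 := by unfold law; simp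

lemma den_ne {n j : ℕ} (hj : j + 1 < 2 * n) : (4 * (n : ℝ) ^ 2 - ((j : ℝ) + 1) ^ 2) ≠ 0 := by
  have h : ((j : ℝ) + 1) < 2 * n := by exact_mod_cast hj
  have h2 : 0 ≤ (j : ℝ) := by positivity
  nlinarith

lemma law_rec {n k : ℕ} (hk : k + 1 < 2 * n) :
    law n (k + 1) * (k * (4 * (n : ℝ) ^ 2 - ((k : ℝ) + 1) ^ 2)) =
      law n k * (2 * (2 * k + 1) * ((n : ℝ) ^ 2 - (k : ℝ) ^ 2)) := by
  unfold law
  rw [Finset.prod_range_succ, Finset.prod_range_succ]
  have h1 := Nat.succ_mul_centralBinom_succ k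
  have h2 : ((k : ℝ) + 1) * (Nat.centralBinom (k + 1) : ℝ) =
      2 * (2 * k + 1) * (Nat.centralBinom k : ℝ) := by exact_mod_cast h1
  have h3 := den_ne hk
  have h4 : (∏ j ∈ Finset.range k, (4 * (n : ℝ) ^ 2 - ((j : ℝ) + 1) ^ 2)) ≠ 0 := by
    rw [Finset.prod_ne_zero_iff]
    intro j hj
    rw [Finset.mem_range] at hj
    exact den_ne (by omega)
  push_cast
  rw [h2]
  generalize (∏ j ∈ Finset.range k, (4 * (n : ℝ) ^ 2 - ((j : ℝ) + 1) ^ 2)) = D at *
  generalize (∏ j ∈ Finset.range k, ((n : ℝ) ^ 2 - (j : ℝ) ^ 2)) = N at *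
  generalize (4 * (n : ℝ) ^ 2 - ((k : ℝ) + 1) ^ 2) = q at *
  have hn : (n : ℝ) ≠ 0 := by
    have : 0 < n := by omega
    positivity
  field_simp

lemma law_top (n : ℕ) : law n (n + 1) = 0 := by
  unfold law
  rw [Finset.prod_range_succ]
  simp

lemma law_one (n : ℕ) (hn : 1 ≤ n) : law n 1 = 3 * n / (4 * (n : ℝ) ^ 2 - 1) := by
  have hn' : (n : ℝ) ≠ 0 := by positivity
  unfold law
  simp only [Finset.prod_range_one, Nat.cast_zero, Nat.cast_one, zero_add, one_pow]
  have : Nat.centralBinom 1 = 2 := by decide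
  rw [this]
  push_cast
  field_simp
  ring

lemma law_pos {n k : ℕ} (hk : 1 ≤ k) (hkn : k ≤ n) : 0 < law n k := by
  unfold law
  have hn : (0 : ℝ) < n := by exact_mod_cast (by omega : 0 < n)
  have hk' : (0 : ℝ) < k := by exact_mod_cast (by omega : 0 < k)
  have h1 : (0 : ℝ) < Nat.centralBinom k := by exact_mod_cast Nat.centralBinom_pos k
  have h2 : 0 < ∏ j ∈ Finset.range k, ((n : ℝ) ^ 2 - (j : ℝ) ^ 2) := by
    apply Finset.prod_pos
    intro j hj
    rw [Finset.mem_range] at hj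
    have h3 : (j : ℝ) < n := by exact_mod_cast (by omega : j < n)
    have h4 : 0 ≤ (j : ℝ) := by positivity
    nlinarith
  have h3 : 0 < ∏ j ∈ Finset.range k, (4 * (n : ℝ) ^ 2 - ((j : ℝ) + 1) ^ 2) := by
    apply Finset.prod_pos
    intro j hj
    rw [Finset.mem_range] at hj
    have h3 : (j : ℝ) + 1 ≤ n := by exact_mod_cast (by omega : j + 1 ≤ n)
    have h4 : 0 ≤ (j : ℝ) := by positivity
    nlinarith
  positivity

/-! ### the alternating sums -/

noncomputable def FF (n l s : ℕ) : ℝ := (-1) ^ s * s * law n s * ((3 * l).choose (l + s) : ℝ)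

noncomputable def GG (n l s : ℕ) : ℝ :=
  (-1) ^ s * (l + 1) * (s - 1) * (4 * (n : ℝ) ^ 2 - (s : ℝ) ^ 2) *
    ((3 * l + 2).choose (l + s) : ℝ) * law n s

lemma choose_rel1 (l s : ℕ) : ((l : ℝ) + s + 1) * ((3 * l + 2).choose (l + s + 1) : ℝ) =
    (2 * l + 2 - s) * ((3 * l + 2).choose (l + s) : ℝ) := by
  have h := Nat.choose_succ_right_eq (3 * l + 2) (l + s)
  rcases le_or_gt s (2 * l + 2) with hs | hs
  · have e : 3 * l + 2 - (l + s) = 2 * l + 2 - s := by omega
    rw [e] at h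
    have h' : (((3 * l + 2).choose (l + s + 1) * (l + s + 1) : ℕ) : ℝ) =
        (((3 * l + 2).choose (l + s) * (2 * l + 2 - s) : ℕ) : ℝ) := by exact_mod_cast h
    push_cast [Nat.cast_sub hs] at h'
    linarith
  · rw [Nat.choose_eq_zero_of_lt (by omega : 3 * l + 2 < l + s + 1),
      Nat.choose_eq_zero_of_lt (by omega : 3 * l + 2 < l + s)]
    simp

lemma choose_rel2 (l s : ℕ) : (3 * (l : ℝ) + 2) * (3 * l + 1) * ((3 * l).choose (l + s) : ℝ) =
    (2 * l + 2 - s) * (2 * l + 1 - s) * ((3 * l + 2).choose (l + s) : ℝ) := by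
  have h1 := Nat.choose_mul_succ_eq (3 * l) (l + s)
  have h2 := Nat.choose_mul_succ_eq (3 * l + 1) (l + s)
  have h1' : ((3 * l).choose (l + s) : ℝ) * (3 * l + 1) =
      ((3 * l + 1).choose (l + s) : ℝ) * (2 * l + 1 - s) := by
    rcases le_or_gt s (2 * l + 1) with hs | hs
    · have e : 3 * l + 1 - (l + s) = 2 * l + 1 - s := by omega
      rw [e] at h1
      have h' : (((3 * l).choose (l + s) * (3 * l + 1) : ℕ) : ℝ) =
          (((3 * l + 1).choose (l + s) * (2 * l + 1 - s) : ℕ) : ℝ) := by exact_mod_cast h1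
      push_cast [Nat.cast_sub hs] at h'
      linarith
    · rw [Nat.choose_eq_zero_of_lt (by omega : 3 * l < l + s),
        Nat.choose_eq_zero_of_lt (by omega : 3 * l + 1 < l + s)]
      simp
  have h2' : ((3 * l + 1).choose (l + s) : ℝ) * (3 * l + 2) =
      ((3 * l + 2).choose (l + s) : ℝ) * (2 * l + 2 - s) := by
    rcases le_or_gt s (2 * l + 2) with hs | hs
    · have e : 3 * l + 1 + 1 - (l + s) = 2 * l + 2 - s := by omega
      rw [e] at h2
      have h' : (((3 * l + 1).choose (l + s) * (3 * l + 1 + 1) : ℕ) : ℝ) =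
          (((3 * l + 1 + 1).choose (l + s) * (2 * l + 2 - s) : ℕ) : ℝ) := by exact_mod_cast h2
      push_cast [Nat.cast_sub hs] at h'
      have e2 : 3 * l + 1 + 1 = 3 * l + 2 := by ring
      rw [e2] at h'
      linarith
    · rw [Nat.choose_eq_zero_of_lt (by omega : 3 * l + 1 < l + s),
        Nat.choose_eq_zero_of_lt (by omega : 3 * l + 2 < l + s)]
      simp
  calc (3 * (l : ℝ) + 2) * (3 * l + 1) * ((3 * l).choose (l + s) : ℝ)
      = (3 * (l : ℝ) + 2) * (((3 * l).choose (l + s) : ℝ) * (3 * l + 1)) := by ring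
    _ = (2 * l + 1 - s) * (((3 * l + 1).choose (l + s) : ℝ) * (3 * l + 2)) := by rw [h1']; ring
    _ = _ := by rw [h2']; ring

lemma FG {n l s : ℕ} (hs : s + 1 < 2 * n) :
    2 * (2 * (l : ℝ) + 1) * (((l : ℝ) + 1) ^ 2 - (n : ℝ) ^ 2) * FF n (l + 1) s -
      3 * ((l : ℝ) + 1) * (3 * l + 1) * (3 * l + 2) * FF n l s = GG n l (s + 1) - GG n l s := by
  have h1 := choose_rel1 l s
  have h2 := choose_rel2 l s
  have h3 : ((3 * (l + 1)).choose (l + 1 + s) : ℝ) =
      ((3 * l + 2).choose (l + s) : ℝ) + ((3 * l + 2).choose (l + s + 1) : ℝ) := by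
    have : (3 * (l + 1)).choose (l + 1 + s) = (3 * l + 2 + 1).choose (l + s + 1) := by
      congr 1 <;> ring
    rw [this, Nat.choose_succ_succ]
    push_cast; ring
  have h4 := law_rec hs
  unfold FF GG
  rw [h3]
  have e1 : l + (s + 1) = l + s + 1 := by ring
  rw [e1]
  push_cast
  rw [pow_succ (-1 : ℝ) s]
  generalize ((3 * l + 2).choose (l + s) : ℝ) = c at *
  generalize ((3 * l + 2).choose (l + s + 1) : ℝ) = c' at *
  generalize ((3 * l).choose (l + s) : ℝ) = c0 at *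
  generalize law n (s + 1) = p' at *
  generalize law n s = p at *
  generalize ((-1 : ℝ)) ^ s = ε at *
  have hpos : ((l : ℝ) + s + 1) ≠ 0 := by positivity
  have hc' : c' = (2 * l + 2 - s) * c / ((l : ℝ) + s + 1) := by
    rw [eq_div_iff hpos]; linarith
  have t1 : ε * -1 * ((l : ℝ) + 1) * (s + 1 - 1) * (4 * (n : ℝ) ^ 2 - (s + 1) ^ 2) * c' * p' =
      -(ε * (l + 1) * c' * (p * (2 * (2 * s + 1) * ((n : ℝ) ^ 2 - s ^ 2)))) := by
    rw [← h4]; ring
  have t2 : 3 * ((l : ℝ) + 1) * (3 * l + 1) * (3 * l + 2) * (ε * s * p * c0) =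
      3 * (l + 1) * (ε * s * p) * ((2 * l + 2 - s) * (2 * l + 1 - s) * c) := by
    rw [← h2]; ring
  rw [t1, t2, hc']
  field_simp
  ring

noncomputable def SS (n l : ℕ) : ℝ := ∑ s ∈ Finset.range (n + 1), FF n l s

lemma SS_rec {n : ℕ} (hn : 2 ≤ n) (l : ℕ) :
    2 * (2 * (l : ℝ) + 1) * (((l : ℝ) + 1) ^ 2 - (n : ℝ) ^ 2) * SS n (l + 1) =
      3 * ((l : ℝ) + 1) * (3 * l + 1) * (3 * l + 2) * SS n l := by
  have h1 : ∑ s ∈ Finset.range (n + 1), (GG n l (s + 1) - GG n l s) = 0 := by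
    rw [Finset.sum_range_sub]
    unfold GG
    rw [law_top, law_zero]; simp
  have h2 : ∑ s ∈ Finset.range (n + 1), (GG n l (s + 1) - GG n l s) =
      2 * (2 * (l : ℝ) + 1) * (((l : ℝ) + 1) ^ 2 - (n : ℝ) ^ 2) * SS n (l + 1) -
        3 * ((l : ℝ) + 1) * (3 * l + 1) * (3 * l + 2) * SS n l := by
    unfold SS
    rw [Finset.mul_sum, Finset.mul_sum, ← Finset.sum_sub_distrib]
    apply Finset.sum_congr rfl
    intro s hs
    rw [Finset.mem_range] at hs
    rcases Nat.lt_or_ge (s + 1) (2 * n) with h | h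
    · exact (FG h).symm
    · omega
  linarith

/-- the alternating sums vanish below the diagonal -/
lemma SS_zero {n : ℕ} (hn : 2 ≤ n) {l : ℕ} (hl : l < n) : SS n l = 0 := by
  have key : ∀ d, d < n → SS n (n - 1 - d) = 0 := by
    intro d
    induction d with
    | zero =>
      intro _
      have h := SS_rec hn (n - 1)
      have e : ((n - 1 : ℕ) : ℝ) + 1 = n := by
        have : n - 1 + 1 = n := by omega
        exact_mod_cast this
      rw [e] at h
      have h1 : (n : ℝ) ^ 2 - (n : ℝ) ^ 2 = 0 := by ring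
      rw [h1, mul_zero, zero_mul] at h
      rw [Nat.sub_zero]
      have hp : 3 * (n : ℝ) * (3 * ((n - 1 : ℕ) : ℝ) + 1) * (3 * ((n - 1 : ℕ) : ℝ) + 2) ≠ 0 := by
        positivity
      exact (mul_eq_zero.1 h.symm).resolve_left hp
    | succ d ih =>
      intro hd
      have h := SS_rec hn (n - 1 - (d + 1))
      have e : n - 1 - (d + 1) + 1 = n - 1 - d := by omega
      rw [e, ih (by omega), mul_zero] at h
      have hp : 3 * (((n - 1 - (d + 1) : ℕ) : ℝ) + 1) * (3 * ((n - 1 - (d + 1) : ℕ) : ℝ) + 1) *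
          (3 * ((n - 1 - (d + 1) : ℕ) : ℝ) + 2) ≠ 0 := by positivity
      exact (mul_eq_zero.1 h.symm).resolve_left hp
  have := key (n - 1 - l) (by omega)
  rwa [show n - 1 - (n - 1 - l) = l by omega] at this

lemma SS_up {n : ℕ} (hn : 2 ≤ n) (h0 : SS n n = 0) (l : ℕ) : SS n (n + l) = 0 := by
  induction l with
  | zero => exact h0
  | succ l ih =>
    have h := SS_rec hn (n + l)
    rw [ih, mul_zero] at h
    have hp : 2 * (2 * ((n + l : ℕ) : ℝ) + 1) * ((((n + l : ℕ) : ℝ) + 1) ^ 2 - (n : ℝ) ^ 2) ≠ 0 := by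
      have h1 : (0 : ℝ) ≤ n := by positivity
      have h2 : (0 : ℝ) ≤ l := by positivity
      push_cast
      have h3 : 0 < ((n : ℝ) + l + 1) ^ 2 - (n : ℝ) ^ 2 := by nlinarith
      positivity
    exact (mul_eq_zero.1 h).resolve_left hp

/-! ### the weights -/

lemma weight (l s : ℕ) : (X ^ s * WW l).coeff (2 * l + 2) =
    (-1) ^ (l + s) * (s / (l + 1)) * ((3 * (l + 1)).choose (l + 1 + s) : ℝ) := by
  rw [coeff_X_pow_mul']
  by_cases hs : s ≤ 2 * l + 2
  · rw [if_pos hs]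
    rcases eq_or_lt_of_le hs with h | h
    · subst h
      rw [Nat.sub_self, WW_coeff_zero]
      have e : (3 * (l + 1)).choose (l + 1 + (2 * l + 2)) = 1 := by
        rw [show l + 1 + (2 * l + 2) = 3 * (l + 1) by ring, Nat.choose_self]
      rw [e]
      have h1 : ((l : ℝ) + 1) ≠ 0 := by positivity
      have h2 : l + (2 * l + 2) = 3 * l + 2 := by ring
      rw [h2]
      push_cast
      field_simp
    · obtain ⟨k, hk⟩ : ∃ k, 2 * l + 2 - s = k + 1 := ⟨2 * l + 1 - s, by omega⟩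
      rw [hk, WW_coeff_succ]
      have e1 : 3 * l + 2 - k = l + s + 1 := by omega
      have e2 : 3 * l + 2 - (k + 1) = l + s := by omega
      rw [e1, e2]
      -- binomials
      have c1 : (3 * l + 2).choose k = (3 * l + 2).choose (l + s + 1) := by
        rw [← Nat.choose_symm_of_eq_add (by omega : 3 * l + 2 = k + (l + s + 1))]
      have c2 : (3 * l + 2).choose (k + 1) = (3 * l + 2).choose (l + s) := by
        rw [← Nat.choose_symm_of_eq_add (by omega : 3 * l + 2 = (k + 1) + (l + s))]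
      rw [c1, c2]
      have h3 : ((3 * (l + 1)).choose (l + 1 + s) : ℝ) =
          ((3 * l + 2).choose (l + s) : ℝ) + ((3 * l + 2).choose (l + s + 1) : ℝ) := by
        have : (3 * (l + 1)).choose (l + 1 + s) = (3 * l + 2 + 1).choose (l + s + 1) := by
          congr 1 <;> ring
        rw [this, Nat.choose_succ_succ]
        push_cast; ring
      rw [h3]
      have h1 := choose_rel1 l s
      generalize ((3 * l + 2).choose (l + s) : ℝ) = c at *
      generalize ((3 * l + 2).choose (l + s + 1) : ℝ) = c' at *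
      rw [pow_succ]
      generalize ((-1 : ℝ)) ^ (l + s) = ε at *
      have hpos : ((l : ℝ) + s + 1) ≠ 0 := by positivity
      have hpos2 : ((l : ℝ) + 1) ≠ 0 := by positivity
      have hc' : c' = (2 * l + 2 - s) * c / ((l : ℝ) + s + 1) := by
        rw [eq_div_iff hpos]; linarith
      rw [hc']
      field_simp
      ring
  · rw [if_neg hs, Nat.choose_eq_zero_of_lt (by omega)]
    simp

lemma HP_WW (n : ℕ) (P : ℕ → ℝ) (l : ℕ) : (HP n P * WW l).coeff (2 * l + 2) =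
    ∑ s ∈ Finset.range (n + 1), P s *
      ((-1) ^ (l + s) * (s / (l + 1)) * ((3 * (l + 1)).choose (l + 1 + s) : ℝ)) := by
  unfold HP
  rw [Finset.sum_mul, finsetSum_coeff]
  apply Finset.sum_congr rfl
  intro s _
  rw [mul_assoc, coeff_C_mul, weight]

lemma HP_law (n l : ℕ) : (HP n (law n) * WW l).coeff (2 * l + 2) =
    (-1) ^ l / (l + 1) * SS n (l + 1) := by
  rw [HP_WW]
  unfold SS FF
  rw [Finset.mul_sum]
  apply Finset.sum_congr rfl
  intro s _
  rw [pow_add]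
  ring

/-! ### normalisation and mean -/

lemma law_succ {n : ℕ} (hn : 1 ≤ n) {s : ℕ} (hs1 : 1 ≤ s) (hs : s ≤ n) :
    law n s * (((n : ℝ) + s) * (2 * n - s) * (2 * n - s + 1) * (n + 1)) =
      law (n + 1) s * (((n : ℝ) + 1 - s) * n * (2 * n + s + 1) * (2 * n + s + 2)) := by
  induction s, hs1 using Nat.le_induction with
  | base =>
    rw [law_one n hn, law_one (n + 1) (by omega)]
    have hn' : (1 : ℝ) ≤ n := by exact_mod_cast hn
    have h1 : (4 * (n : ℝ) ^ 2 - 1) ≠ 0 := by nlinarith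
    push_cast
    have h2 : (4 * ((n : ℝ) + 1) ^ 2 - 1) ≠ 0 := by nlinarith
    rw [div_mul_eq_mul_div, div_mul_eq_mul_div, div_eq_div_iff h1 h2]
    ring
  | succ s hs1 ih =>
    have ih' := ih (by omega)
    have r1 := law_rec (n := n) (k := s) (by omega)
    have r2 := law_rec (n := n + 1) (k := s) (by omega)
    push_cast at r1 r2 ⊢
    have hs' : (1 : ℝ) ≤ s := by exact_mod_cast hs1
    have hsn : (s : ℝ) + 1 ≤ n := by exact_mod_cast hs
    generalize law n (s + 1) = a' at *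
    generalize law (n + 1) (s + 1) = b' at *
    generalize law n s = a at *
    generalize law (n + 1) s = b at *
    have d1 : (s : ℝ) * (4 * (n : ℝ) ^ 2 - ((s : ℝ) + 1) ^ 2) ≠ 0 := by
      have : 0 < 4 * (n : ℝ) ^ 2 - ((s : ℝ) + 1) ^ 2 := by nlinarith
      positivity
    have d2 : (s : ℝ) * (4 * ((n : ℝ) + 1) ^ 2 - ((s : ℝ) + 1) ^ 2) ≠ 0 := by
      have : 0 < 4 * ((n : ℝ) + 1) ^ 2 - ((s : ℝ) + 1) ^ 2 := by nlinarith
      positivity
    have d3 : ((n : ℝ) + s) * (2 * n - s) * (2 * n - s + 1) * (n + 1) ≠ 0 := by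
      have h1 : 0 < 2 * (n : ℝ) - s := by linarith
      have h2 : 0 < 2 * (n : ℝ) - s + 1 := by linarith
      positivity
    apply mul_left_cancel₀ (mul_ne_zero (mul_ne_zero d1 d2) d3)
    linear_combination
      ((n + (s + 1)) * (2 * n - (s + 1)) * (2 * n - (s + 1) + 1) * (n + 1)) *
        ((s : ℝ) * (4 * ((n : ℝ) + 1) ^ 2 - ((s : ℝ) + 1) ^ 2)) *
        (((n : ℝ) + s) * (2 * n - s) * (2 * n - s + 1) * (n + 1)) * r1 +
      ((n + (s + 1)) * (2 * n - (s + 1)) * (2 * n - (s + 1) + 1) * (n + 1)) *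
        ((s : ℝ) * (4 * ((n : ℝ) + 1) ^ 2 - ((s : ℝ) + 1) ^ 2)) *
        (2 * (2 * s + 1) * ((n : ℝ) ^ 2 - (s : ℝ) ^ 2)) * ih' -
      ((n + 1 - (s + 1)) * n * (2 * n + (s + 1) + 1) * (2 * n + (s + 1) + 2)) *
        ((s : ℝ) * (4 * (n : ℝ) ^ 2 - ((s : ℝ) + 1) ^ 2)) *
        (((n : ℝ) + s) * (2 * n - s) * (2 * n - s + 1) * (n + 1)) * r2

end Pool.Agent.H63.Perc
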