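import Mathlib
import Pool.Agent.H63.Perc.LawB

set_option autoImplicit false
open Polynomial

/-! Normalisation, mean, uniqueness, and the law forced by the functional equation. -/

namespace Pool.Agent.H63.Perc

open Pool.Agent.H65.Perc (HH tt0 tt1 tt2)

/-- certificate for the normalisation -/
noncomputable def GN (n s : ℕ) : ℝ :=
  -(law (n + 1) s * ((2 * n + 1) * (s - 1) * (2 * n + s + 2)) /
    (3 * (n + 1) * (n + s) * (2 * n + 1 - s)))

/-- certificate for the mean -/
noncomputable def GE (n s : ℕ) : ℝ :=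
  -(law (n + 1) s * (n * (2 * n + s + 2) * ((2 * n + 1) * (s - 1) * (3 * s - 1))) /
    (3 * (n + s) * (2 * n + 1 - s)))

lemma cert {n s : ℕ} (hn : 1 ≤ n) (hs1 : 1 ≤ s) (hs : s ≤ n) :
    law (n + 1) s - law n s = GN n (s + 1) - GN n s ∧
      n * (3 * n + 2) * (s * law (n + 1) s) - (n + 1) * (3 * n + 1) * (s * law n s) =
        GE n (s + 1) - GE n s := by
  have r := law_rec (n := n + 1) (k := s) (by omega)
  have r0 := law_succ hn hs1 hs
  unfold GN GE
  push_cast at r ⊢
  have hs' : (1 : ℝ) ≤ s := by exact_mod_cast hs1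
  have hsn : (s : ℝ) ≤ n := by exact_mod_cast hs
  have hn' : (1 : ℝ) ≤ n := by exact_mod_cast hn
  generalize law (n + 1) (s + 1) = b' at *
  generalize law n s = a at *
  generalize law (n + 1) s = b at *
  generalize (n : ℝ) = x at *
  generalize (s : ℝ) = y at *
  have q1 : y ≠ 0 := by positivity
  have q2 : 2 * x + 1 - y ≠ 0 := by
    have : 0 < 2 * x + 1 - y := by linarith
    positivity
  have q3 : 2 * x - y ≠ 0 := by
    have : 0 < 2 * x - y := by linarith
    positivity
  have q4 : x + y ≠ 0 := by positivity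
  have q5 : x + 1 ≠ 0 := by positivity
  have q6 : 2 * x + 3 + y ≠ 0 := by positivity
  have q7 : x + (y + 1) ≠ 0 := by positivity
  have q8 : x ≠ 0 := by positivity
  have hb' : b' = b * (2 * (2 * y + 1) * ((x + 1 - y) * (x + 1 + y))) /
      (y * ((2 * x + 1 - y) * (2 * x + 3 + y))) := by
    rw [eq_div_iff (mul_ne_zero q1 (mul_ne_zero q2 q6))]
    linear_combination r
  have ha : a = b * ((x + 1 - y) * x * (2 * x + y + 1) * (2 * x + y + 2)) /
      ((x + y) * (2 * x - y) * (2 * x + 1 - y) * (x + 1)) := by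
    rw [eq_div_iff (mul_ne_zero (mul_ne_zero (mul_ne_zero q4 q3) q2) q5)]
    linear_combination r0
  have e1 : 2 * x + 1 - (y + 1) = 2 * x - y := by ring
  rw [hb', ha, e1]
  clear hb' ha r r0 e1
  obtain ⟨u, hu⟩ : ∃ u, u = 2 * x - y := ⟨_, rfl⟩
  obtain ⟨v, hv⟩ : ∃ v, v = 2 * x + 1 - y := ⟨_, rfl⟩
  obtain ⟨w, hw⟩ : ∃ w, w = 2 * x + 3 + y := ⟨_, rfl⟩
  obtain ⟨p, hp⟩ : ∃ p, p = x + y := ⟨_, rfl⟩
  obtain ⟨q, hq⟩ : ∃ q, q = x + (y + 1) := ⟨_, rfl⟩
  obtain ⟨d, hd⟩ : ∃ d, d = x + 1 := ⟨_, rfl⟩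
  rw [← hu] at q3 ⊢
  rw [← hv] at q2 ⊢
  rw [← hw] at q6 ⊢
  rw [← hp] at q4 ⊢
  rw [← hq] at q7 ⊢
  rw [← hd] at q5 ⊢
  constructor
  · field_simp
    rw [hu, hv, hw, hp, hq, hd]
    ring
  · field_simp
    rw [hu, hv, hw, hp, hq, hd]
    ring

lemma law_sum {n : ℕ} (hn : 1 ≤ n) : ∑ s ∈ Finset.range (n + 1), law n s = 1 := by
  induction n, hn using Nat.le_induction with
  | base =>
    rw [Finset.sum_range_succ, Finset.sum_range_one, law_zero, law_one 1 le_rfl]
    norm_num
  | succ n hn ih =>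
    have h1 : ∑ s ∈ Finset.Ico 1 (n + 1), (law (n + 1) s - law n s) =
        GN n (n + 1) - GN n 1 := by
      rw [← Finset.sum_Ico_sub (GN n) (by omega : 1 ≤ n + 1)]
      apply Finset.sum_congr rfl
      intro s hs
      rw [Finset.mem_Ico] at hs
      exact (cert hn hs.1 (by omega)).1
    have h2 : GN n 1 = 0 := by unfold GN; simp
    have h3 : GN n (n + 1) = -law (n + 1) (n + 1) := by
      unfold GN
      push_cast
      have hn' : (0 : ℝ) < n := by exact_mod_cast hn
      have q1 : (2 * (n : ℝ) + 1 - (n + 1)) = n := by ring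
      have q2 : (n : ℝ) + (n + 1) ≠ 0 := by positivity
      have q3 : (n : ℝ) + 1 ≠ 0 := by positivity
      rw [q1]
      field_simp
      ring
    have h4 : ∀ m, 1 ≤ m → ∑ s ∈ Finset.range (m + 1), law n s =
        ∑ s ∈ Finset.Ico 1 (m + 1), law n s := by
      intro m _
      rw [Finset.range_eq_Ico, Finset.sum_eq_sum_Ico_succ_bot (by omega), law_zero, zero_add]
    have h5 : ∑ s ∈ Finset.range (n + 1 + 1), law (n + 1) s =
        ∑ s ∈ Finset.Ico 1 (n + 1), law (n + 1) s + law (n + 1) (n + 1) := by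
      rw [Finset.sum_range_succ, Finset.range_eq_Ico,
        Finset.sum_eq_sum_Ico_succ_bot (by omega : 0 < n + 1), law_zero, zero_add]
    rw [Finset.sum_sub_distrib, h2, h3, sub_zero] at h1
    rw [h4 n hn] at ih
    rw [h5]
    linarith

/-- the mean -/
noncomputable def EE' (n : ℕ) : ℝ := ∑ s ∈ Finset.range (n + 1), (s : ℝ) * law n s

lemma EE_rec {n : ℕ} (hn : 1 ≤ n) :
    (n : ℝ) * (3 * n + 2) * EE' (n + 1) = (n + 1) * (3 * n + 1) * EE' n := by
  have h1 : ∑ s ∈ Finset.Ico 1 (n + 1), ((n : ℝ) * (3 * n + 2) * (s * law (n + 1) s) -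
      (n + 1) * (3 * n + 1) * (s * law n s)) = GE n (n + 1) - GE n 1 := by
    rw [← Finset.sum_Ico_sub (GE n) (by omega : 1 ≤ n + 1)]
    apply Finset.sum_congr rfl
    intro s hs
    rw [Finset.mem_Ico] at hs
    exact (cert hn hs.1 (by omega)).2
  have h2 : GE n 1 = 0 := by unfold GE; simp
  have h3 : GE n (n + 1) = -((n : ℝ) * (3 * n + 2) * ((n + 1) * law (n + 1) (n + 1))) := by
    unfold GE
    push_cast
    have hn' : (0 : ℝ) < n := by exact_mod_cast hn
    have q1 : (2 * (n : ℝ) + 1 - (n + 1)) = n := by ring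
    have q2 : (n : ℝ) + (n + 1) ≠ 0 := by positivity
    rw [q1]
    field_simp
    ring
  have h5 : EE' (n + 1) = ∑ s ∈ Finset.Ico 1 (n + 1), (s : ℝ) * law (n + 1) s +
      (n + 1) * law (n + 1) (n + 1) := by
    unfold EE'
    rw [Finset.sum_range_succ, Finset.range_eq_Ico,
      Finset.sum_eq_sum_Ico_succ_bot (by omega : 0 < n + 1)]
    push_cast; ring
  have h6 : EE' n = ∑ s ∈ Finset.Ico 1 (n + 1), (s : ℝ) * law n s := by
    unfold EE'
    rw [Finset.range_eq_Ico, Finset.sum_eq_sum_Ico_succ_bot (by omega : 0 < n + 1)]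
    simp
  rw [Finset.sum_sub_distrib, ← Finset.mul_sum, ← Finset.mul_sum, h2, h3, sub_zero] at h1
  rw [h5, h6]
  linarith

lemma EE_eq {n : ℕ} (hn : 1 ≤ n) :
    EE' n = 2 * n * ∏ k ∈ Finset.range n, ((3 * (k : ℝ) + 1) / (3 * k + 2)) := by
  induction n, hn using Nat.le_induction with
  | base =>
    unfold EE'
    rw [Finset.sum_range_succ, Finset.sum_range_one, law_zero, law_one 1 le_rfl,
      Finset.prod_range_one]
    norm_num
  | succ n hn ih =>
    have h := EE_rec hn
    rw [ih] at h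
    have hn' : (0 : ℝ) < n := by exact_mod_cast hn
    rw [Finset.prod_range_succ]
    have q1 : (n : ℝ) * (3 * n + 2) ≠ 0 := by positivity
    apply mul_left_cancel₀ q1
    rw [h]
    push_cast
    field_simp

/-! ### uniqueness -/

/-- the linear functional number `l` -/
noncomputable def LL (n : ℕ) (P : ℕ → ℝ) (l : ℕ) : ℝ := (HP n P * WW l).coeff (2 * l + 2)

lemma LL_law_zero {n l : ℕ} (hl : l + 1 < n) : LL n (law n) l = 0 := by
  unfold LL
  rw [HP_law, SS_zero (by omega) hl, mul_zero]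

lemma WW_natDegree (l : ℕ) : (WW l).natDegree = 3 * l + 3 := by
  unfold WW
  have h1 : (X - 1 : ℝ[X]) = X - C 1 := by simp
  have h2 : (X + 2 : ℝ[X]) = X + C 2 := by rw [map_ofNat]
  rw [h1, h2, natDegree_mul (pow_ne_zero _ (X_sub_C_ne_zero 1)) (X_add_C_ne_zero 2),
    natDegree_pow, natDegree_X_sub_C, natDegree_X_add_C]
  ring

lemma WW_monic (l : ℕ) : (WW l).Monic := by
  unfold WW
  have h1 : (X - 1 : ℝ[X]) = X - C 1 := by simp
  have h2 : (X + 2 : ℝ[X]) = X + C 2 := by rw [map_ofNat]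
  rw [h1, h2]
  exact ((monic_X_sub_C 1).pow _).mul (monic_X_add_C 2)

lemma RR_zero_of (n : ℕ) (hn : 1 ≤ n) (P : ℕ → ℝ) (h0 : P 0 = 0)
    (h : ∀ l, LL n P l = 0) : RR n (HP n P) = 0 := by
  by_contra hR
  set R := RR n (HP n P) with hRdef
  have hd : R.natDegree ≤ 2 * n - 1 := RR_natDegree n hn _ (by rw [HP_coeff]; simp [h0])
  set d := R.natDegree with hdd
  have h1 := RR_key n (HP n P) (HP_natDegree n P) (2 * n - d - 1)
  have h2 := h (2 * n - d - 1)
  unfold LL at h2
  rw [add_mul, coeff_add, mul_assoc, coeff_shift, h2, zero_add] at h1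
  have h3 : 2 * (2 * n - d - 1) + 2 + 2 * n = R.natDegree + (WW (2 * n - d - 1)).natDegree := by
    rw [WW_natDegree]; omega
  rw [h3, coeff_mul_degree_add_degree, (WW_monic _).leadingCoeff, mul_one] at h1
  exact hR (leadingCoeff_eq_zero.1 h1)

lemma LL_law_ne {n : ℕ} (hn : 1 ≤ n) : LL n (law n) (n - 1) ≠ 0 := by
  intro h
  rcases Nat.lt_or_ge n 2 with h2 | h2
  · have hn1 : n = 1 := by omega
    subst hn1
    unfold LL at h
    rw [HP_WW] at h
    rw [Finset.sum_range_succ, Finset.sum_range_one, law_zero, law_one 1 le_rfl] at h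
    norm_num [Nat.choose] at h
  · have hall : ∀ l, LL n (law n) l = 0 := by
      intro l
      rcases Nat.lt_or_ge (l + 1) n with h3 | h3
      · exact LL_law_zero h3
      · have h4 : SS n n = 0 := by
          unfold LL at h
          rw [HP_law] at h
          have e : n - 1 + 1 = n := by omega
          rw [e] at h
          have h5 : ((-1 : ℝ)) ^ (n - 1) / (((n - 1 : ℕ) : ℝ) + 1) ≠ 0 := by
            apply div_ne_zero
            · exact pow_ne_zero _ (by norm_num)
            · positivity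
          exact (mul_eq_zero.1 h).resolve_left h5
        have h5 := SS_up h2 h4 (l + 1 - n)
        rw [show n + (l + 1 - n) = l + 1 by omega] at h5
        unfold LL
        rw [HP_law, h5, mul_zero]
    have hR := RR_zero_of n hn (law n) (law_zero n) hall
    have h6 := RR_eval n (HP n (law n)) (HP_natDegree n _) 1 1 1 one_ne_zero (by norm_num)
      (by norm_num)
    rw [hR, HP_eval] at h6
    unfold HH at h6
    simp only [one_pow, mul_one, one_mul, eval_zero] at h6
    rw [law_sum hn] at h6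
    norm_num at h6

lemma LL_eq (n : ℕ) (P : ℕ → ℝ) (l : ℕ) : LL n P l = ∑ s ∈ Finset.range (n + 1), P s *
    ((-1) ^ (l + s) * (s / (l + 1)) * ((3 * (l + 1)).choose (l + 1 + s) : ℝ)) := HP_WW n P l

lemma unique_law {n : ℕ} (hn : 1 ≤ n) : ∀ (P : ℕ → ℝ), P 0 = 0 →
    (∀ l, l + 1 < n → LL n P l = 0) → ∃ c, ∀ s ≤ n, P s = c * law n s := by
  induction n, hn using Nat.le_induction with
  | base =>
    intro P h0 _
    have hp : law 1 1 ≠ 0 := (law_pos le_rfl le_rfl).ne'
    refine ⟨P 1 / law 1 1, ?_⟩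
    intro s hs
    rcases Nat.le_one_iff_eq_zero_or_eq_one.1 hs with h | h
    · rw [h, h0, law_zero, mul_zero]
    · rw [h, div_mul_cancel₀ _ hp]
  | succ n hn ih =>
    intro P h0 hP
    have hp : law (n + 1) (n + 1) ≠ 0 := (law_pos (by omega) le_rfl).ne'
    set c := P (n + 1) / law (n + 1) (n + 1) with hc
    set Q : ℕ → ℝ := fun s => P s - c * law (n + 1) s with hQ
    have hQ0 : Q 0 = 0 := by simp only [hQ]; rw [h0, law_zero]; ring
    have hQn : Q (n + 1) = 0 := by
      simp only [hQ]; rw [hc, div_mul_cancel₀ _ hp, sub_self]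
    have hQL : ∀ l, l < n → LL n Q l = 0 := by
      intro l hl
      have e1 : LL n Q l = LL (n + 1) Q l := by
        rw [LL_eq, LL_eq, Finset.sum_range_succ _ (n + 1), hQn, zero_mul, add_zero]
      have e2 : LL (n + 1) Q l = LL (n + 1) P l - c * LL (n + 1) (law (n + 1)) l := by
        rw [LL_eq, LL_eq, LL_eq, Finset.mul_sum, ← Finset.sum_sub_distrib]
        apply Finset.sum_congr rfl
        intro s _
        simp only [hQ]; ring
      rw [e1, e2, hP l (by omega), LL_law_zero (by omega)]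
      ring
    obtain ⟨c', hc'⟩ := ih Q hQ0 (fun l hl => hQL l (by omega))
    have h1 := hQL (n - 1) (by omega)
    have e3 : LL n Q (n - 1) = c' * LL n (law n) (n - 1) := by
      rw [LL_eq, LL_eq, Finset.mul_sum]
      apply Finset.sum_congr rfl
      intro s hs
      rw [Finset.mem_range] at hs
      rw [hc' s (by omega)]; ring
    rw [e3] at h1
    have hc0 : c' = 0 := (mul_eq_zero.1 h1).resolve_right (LL_law_ne hn)
    refine ⟨c, ?_⟩
    intro s hs
    rcases Nat.lt_or_ge s (n + 1) with h2 | h2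
    · have h3 := hc' s (by omega)
      rw [hc0, zero_mul] at h3
      simp only [hQ] at h3
      linarith
    · have : s = n + 1 := by omega
      rw [this, hc, div_mul_cancel₀ _ hp]

/-- The functional equation determines the law. -/
theorem law_of_funeq (n : ℕ) (hn : 1 ≤ n) (P : ℕ → ℝ) (hP0 : P 0 = 0) (hPn : P n ≠ 0)
    (hsum : ∑ s ∈ Finset.range (n + 1), P s = 1)
    (Z : Set ℝ) (hZ : Z.Infinite) (hZ0 : ∀ z ∈ Z, z ≠ 0 ∧ z ≠ 1 ∧ z ≠ -1)
    (hfe : ∀ z ∈ Z, HH n P (tt0 z) * HH n P (tt1 z) + HH n P (tt1 z) * HH n P (tt2 z)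
      + HH n P (tt0 z) * HH n P (tt2 z) = 3) : ∀ s ≤ n, P s = law n s := by
  have h1 := RR_degree n hn P hP0 hPn Z hZ hZ0 hfe
  obtain ⟨c, hc⟩ := unique_law hn P hP0 (fun l hl =>
    linear_rel n (HP n P) (HP_natDegree n P) h1 l hl)
  have h2 : ∑ s ∈ Finset.range (n + 1), P s = c * ∑ s ∈ Finset.range (n + 1), law n s := by
    rw [Finset.mul_sum]
    apply Finset.sum_congr rfl
    intro s hs
    rw [Finset.mem_range] at hs
    exact hc s (by omega)
  rw [hsum, law_sum hn, mul_one] at h2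
  intro s hs
  rw [hc s hs, ← h2, one_mul]

/-- The mean of the law. -/
theorem mean_law (n : ℕ) (hn : 1 ≤ n) : ∑ s ∈ Finset.range (n + 1), (s : ℝ) * law n s =
    2 * n * ∏ k ∈ Finset.range n, ((3 * (k : ℝ) + 1) / (3 * k + 2)) := EE_eq hn

end Pool.Agent.H63.Perc
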