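import Mathlib
import Pool.Agent.H63.Perc.LawC

set_option autoImplicit false
open Filter Topology MeasureTheory

/-! Pointwise asymptotics of the closed form. -/

namespace Pool.Agent.H63.Perc

/-- normalised central binomial coefficient -/
noncomputable def cb (k : ℕ) : ℝ := √(k : ℝ) * Nat.centralBinom k / 4 ^ k

lemma cb_eq {k : ℕ} (hk : 1 ≤ k) :
    cb k = Stirling.stirlingSeq (2 * k) / Stirling.stirlingSeq k ^ 2 := by
  unfold cb Stirling.stirlingSeq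
  have h1 : (((2 * k).factorial : ℕ) : ℝ) = Nat.centralBinom k * k.factorial * k.factorial := by
    rw [Nat.centralBinom_eq_two_mul_choose]
    have := Nat.choose_mul_factorial_mul_factorial (n := 2 * k) (k := k) (by omega)
    rw [show 2 * k - k = k by omega] at this
    exact_mod_cast this.symm
  rw [h1]
  have hk' : (0 : ℝ) < k := by exact_mod_cast hk
  have h2 : (((2 * k : ℕ) : ℝ) / Real.exp 1) ^ (2 * k) = 4 ^ k * (((k : ℝ) / Real.exp 1) ^ k) ^ 2 := by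
    have a1 : (2 : ℝ) ^ (2 * k) = 4 ^ k := by rw [pow_mul]; norm_num
    have a2 : ((k : ℝ) / Real.exp 1) ^ (2 * k) = (((k : ℝ) / Real.exp 1) ^ k) ^ 2 := by
      rw [← pow_mul, mul_comm]
    push_cast
    rw [mul_div_assoc, mul_pow, a1, a2]
  have h3 : √(2 * ((2 * k : ℕ) : ℝ)) = 2 * √(k : ℝ) := by
    push_cast
    rw [show (2 : ℝ) * (2 * k) = 2 ^ 2 * k by ring, Real.sqrt_mul (by positivity),
      Real.sqrt_sq (by norm_num)]
  have h8 : √(2 * (k : ℝ)) ^ 2 = 2 * k := Real.sq_sqrt (by positivity)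
  have h4 : √(k : ℝ) ^ 2 = k := Real.sq_sqrt hk'.le
  have h5 : 0 < √(k : ℝ) := Real.sqrt_pos.2 hk'
  have h6 : (0 : ℝ) < k.factorial := by exact_mod_cast Nat.factorial_pos k
  have h7 : (0 : ℝ) < ((k : ℝ) / Real.exp 1) ^ k := by positivity
  rw [h2, h3]
  generalize ((k : ℝ) / Real.exp 1) ^ k = a at *
  rw [div_pow, mul_pow, h8]
  generalize √(k : ℝ) = r at *
  rw [← h4]
  field_simp

lemma cb_tendsto : Tendsto cb atTop (𝓝 (1 / √Real.pi)) := by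
  have h1 := Stirling.tendsto_stirlingSeq_sqrt_pi
  have h2 : Tendsto (fun k : ℕ => Stirling.stirlingSeq (2 * k)) atTop (𝓝 √Real.pi) :=
    h1.comp (tendsto_id.const_mul_atTop' (by norm_num : 0 < 2))
  have hpi : 0 < √Real.pi := Real.sqrt_pos.2 Real.pi_pos
  have h3 := h2.div (h1.pow 2) (by positivity)
  have e : √Real.pi / √Real.pi ^ 2 = 1 / √Real.pi := by field_simp
  rw [e] at h3
  refine h3.congr' ?_
  filter_upwards [eventually_ge_atTop 1] with k hk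
  exact (cb_eq hk).symm

lemma cb_nonneg (k : ℕ) : 0 ≤ cb k := by unfold cb; positivity

lemma cb_le (k : ℕ) : cb k ≤ 1 := by
  have key : ∀ k : ℕ, (Nat.centralBinom k : ℝ) ^ 2 * (2 * k + 1) ≤ 16 ^ k := by
    intro k
    induction k with
    | zero => simp
    | succ k ih =>
      have h1 := Nat.succ_mul_centralBinom_succ k
      have h2 : ((k : ℝ) + 1) * (Nat.centralBinom (k + 1) : ℝ) =
          2 * (2 * k + 1) * (Nat.centralBinom k : ℝ) := by exact_mod_cast h1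
      have hk : (0 : ℝ) ≤ k := by positivity
      have h3 : ((k : ℝ) + 1) ^ 2 * ((Nat.centralBinom (k + 1) : ℝ) ^ 2 * (2 * (k + 1 : ℕ) + 1)) =
          4 * (2 * k + 1) * (2 * k + 3) * ((Nat.centralBinom k : ℝ) ^ 2 * (2 * k + 1)) := by
        push_cast
        calc ((k : ℝ) + 1) ^ 2 * ((Nat.centralBinom (k + 1) : ℝ) ^ 2 * (2 * (k + 1) + 1))
            = (((k : ℝ) + 1) * (Nat.centralBinom (k + 1) : ℝ)) ^ 2 * (2 * k + 3) := by ring
          _ = _ := by rw [h2]; ring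
      have h4 : 4 * (2 * (k : ℝ) + 1) * (2 * k + 3) * ((Nat.centralBinom k : ℝ) ^ 2 * (2 * k + 1)) ≤
          4 * (2 * (k : ℝ) + 1) * (2 * k + 3) * 16 ^ k :=
        mul_le_mul_of_nonneg_left ih (by positivity)
      have h5 : 4 * (2 * (k : ℝ) + 1) * (2 * k + 3) * 16 ^ k ≤ ((k : ℝ) + 1) ^ 2 * 16 ^ (k + 1) := by
        have h7 : 4 * (2 * (k : ℝ) + 1) * (2 * k + 3) ≤ ((k : ℝ) + 1) ^ 2 * 16 := by nlinarith
        calc 4 * (2 * (k : ℝ) + 1) * (2 * k + 3) * 16 ^ k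
            ≤ (((k : ℝ) + 1) ^ 2 * 16) * 16 ^ k := mul_le_mul_of_nonneg_right h7 (by positivity)
          _ = _ := by ring
      have h6 : (0 : ℝ) < ((k : ℝ) + 1) ^ 2 := by positivity
      exact le_of_mul_le_mul_left (by linarith) h6
  unfold cb
  rw [div_le_one (by positivity)]
  apply le_of_sq_le_sq _ (by positivity)
  rw [mul_pow, Real.sq_sqrt (by positivity), ← pow_mul, mul_comm k 2, pow_mul]
  have := key k
  norm_num at this ⊢
  nlinarith [sq_nonneg (Nat.centralBinom k : ℝ), (by positivity : (0 : ℝ) ≤ k)]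

/-- the normalised product -/
noncomputable def DD (n k : ℕ) : ℝ :=
  ∏ j ∈ Finset.range k, (4 * ((n : ℝ) ^ 2 - (j : ℝ) ^ 2) / (4 * (n : ℝ) ^ 2 - ((j : ℝ) + 1) ^ 2))

lemma law_eq (n k : ℕ) : law n k = 3 / (2 * n) * (√(k : ℝ) * cb k) * DD n k := by
  unfold law cb DD
  rw [← Finset.prod_div_distrib]
  have h : ∏ j ∈ Finset.range k,
      (4 * ((n : ℝ) ^ 2 - (j : ℝ) ^ 2) / (4 * (n : ℝ) ^ 2 - ((j : ℝ) + 1) ^ 2)) =
      4 ^ k * ∏ j ∈ Finset.range k,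
      (((n : ℝ) ^ 2 - (j : ℝ) ^ 2) / (4 * (n : ℝ) ^ 2 - ((j : ℝ) + 1) ^ 2)) := by
    rw [← Finset.card_range k, ← Finset.prod_const, Finset.card_range, ← Finset.prod_mul_distrib]
    exact Finset.prod_congr rfl (fun j _ => by ring)
  rw [h]
  have h4 : √(k : ℝ) * √(k : ℝ) = k := Real.mul_self_sqrt (by positivity)
  have h5 : √(k : ℝ) * (√(k : ℝ) * (Nat.centralBinom k : ℝ) / 4 ^ k) =
      (k : ℝ) * (Nat.centralBinom k : ℝ) / 4 ^ k := by
    calc √(k : ℝ) * (√(k : ℝ) * (Nat.centralBinom k : ℝ) / 4 ^ k)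
        = (√(k : ℝ) * √(k : ℝ)) * (Nat.centralBinom k : ℝ) / 4 ^ k := by ring
      _ = _ := by rw [h4]
  rw [h5]
  have h6 : (4 : ℝ) ^ k ≠ 0 := by positivity
  field_simp

lemma DD_pos {n k : ℕ} (hkn : k ≤ n) : 0 < DD n k := by
  unfold DD
  apply Finset.prod_pos
  intro j hj
  rw [Finset.mem_range] at hj
  have h1 : (j : ℝ) + 1 ≤ n := by exact_mod_cast (by omega : j + 1 ≤ n)
  have h2 : (0 : ℝ) ≤ j := by positivity
  apply div_pos <;> nlinarith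

lemma DD_upper {n k : ℕ} (hk : 1 ≤ k) (hkn : k ≤ n) :
    DD n k ≤ 4 * (n : ℝ) ^ 2 / (4 * (n : ℝ) ^ 2 - 1) *
      Real.exp (-(((k : ℝ) - 1) * (k - 2) * (2 * k + 1) / (8 * (n : ℝ) ^ 2))) := by
  induction k, hk using Nat.le_induction with
  | base =>
    unfold DD
    rw [Finset.prod_range_one]
    simp
  | succ k hk ih =>
    have ih' := ih (by omega)
    have e : DD n (k + 1) = DD n k *
        (4 * ((n : ℝ) ^ 2 - (k : ℝ) ^ 2) / (4 * (n : ℝ) ^ 2 - ((k : ℝ) + 1) ^ 2)) := by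
      unfold DD; rw [Finset.prod_range_succ]
    have h1 : (k : ℝ) + 1 ≤ n := by exact_mod_cast hkn
    have h2 : (1 : ℝ) ≤ k := by exact_mod_cast hk
    have hd : 0 < 4 * (n : ℝ) ^ 2 - ((k : ℝ) + 1) ^ 2 := by nlinarith
    have hn2 : 0 < (n : ℝ) ^ 2 := by nlinarith
    have hf0 : 0 ≤ 4 * ((n : ℝ) ^ 2 - (k : ℝ) ^ 2) / (4 * (n : ℝ) ^ 2 - ((k : ℝ) + 1) ^ 2) := by
      apply div_nonneg _ hd.le
      nlinarith
    have hu : 4 * ((n : ℝ) ^ 2 - (k : ℝ) ^ 2) / (4 * (n : ℝ) ^ 2 - ((k : ℝ) + 1) ^ 2) ≤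
        Real.exp (-((3 * (k : ℝ) ^ 2 - 2 * k - 1) / (4 * (n : ℝ) ^ 2))) := by
      refine le_trans ?_ (Real.add_one_le_exp _)
      have h3 : 4 * ((n : ℝ) ^ 2 - (k : ℝ) ^ 2) / (4 * (n : ℝ) ^ 2 - ((k : ℝ) + 1) ^ 2) =
          1 - (3 * (k : ℝ) ^ 2 - 2 * k - 1) / (4 * (n : ℝ) ^ 2 - ((k : ℝ) + 1) ^ 2) := by
        rw [eq_sub_iff_add_eq, ← add_div, div_eq_one_iff_eq hd.ne']
        ring
      rw [h3]
      have h4 : (3 * (k : ℝ) ^ 2 - 2 * k - 1) / (4 * (n : ℝ) ^ 2) ≤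
          (3 * (k : ℝ) ^ 2 - 2 * k - 1) / (4 * (n : ℝ) ^ 2 - ((k : ℝ) + 1) ^ 2) := by
        apply div_le_div_of_nonneg_left _ hd
        · nlinarith
        · nlinarith
      linarith
    rw [e]
    have hc : (0 : ℝ) ≤ 4 * (n : ℝ) ^ 2 / (4 * (n : ℝ) ^ 2 - 1) := by
      apply div_nonneg (by positivity)
      nlinarith
    calc DD n k * (4 * ((n : ℝ) ^ 2 - (k : ℝ) ^ 2) / (4 * (n : ℝ) ^ 2 - ((k : ℝ) + 1) ^ 2))
        ≤ (4 * (n : ℝ) ^ 2 / (4 * (n : ℝ) ^ 2 - 1) *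
          Real.exp (-(((k : ℝ) - 1) * (k - 2) * (2 * k + 1) / (8 * (n : ℝ) ^ 2)))) *
          Real.exp (-((3 * (k : ℝ) ^ 2 - 2 * k - 1) / (4 * (n : ℝ) ^ 2))) :=
          mul_le_mul ih' hu hf0 (mul_nonneg hc (Real.exp_pos _).le)
      _ = _ := by
        rw [mul_assoc, ← Real.exp_add]
        congr 2
        push_cast
        field_simp
        ring

lemma DD_lower {n k K : ℕ} (hk : 1 ≤ k) (hkK : k ≤ K) (hKn : K < n) :
    Real.exp (-(((k : ℝ) - 1) * (k - 2) * (2 * k + 1) / (8 * ((n : ℝ) ^ 2 - (K : ℝ) ^ 2)))) ≤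
      DD n k := by
  have hK : (K : ℝ) + 1 ≤ n := by exact_mod_cast hKn
  have hK0 : (0 : ℝ) ≤ K := by positivity
  have hnK : 0 < (n : ℝ) ^ 2 - (K : ℝ) ^ 2 := by nlinarith
  induction k, hk using Nat.le_induction with
  | base =>
    unfold DD
    rw [Finset.prod_range_one]
    have : (1 : ℝ) ≤ n := by linarith
    simp
    rw [one_le_div (by nlinarith)]
    linarith
  | succ k hk ih =>
    have ih' := ih (by omega)
    have e : DD n (k + 1) = DD n k *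
        (4 * ((n : ℝ) ^ 2 - (k : ℝ) ^ 2) / (4 * (n : ℝ) ^ 2 - ((k : ℝ) + 1) ^ 2)) := by
      unfold DD; rw [Finset.prod_range_succ]
    have h1 : (k : ℝ) + 1 ≤ K := by exact_mod_cast hkK
    have h2 : (1 : ℝ) ≤ k := by exact_mod_cast hk
    have hd : 0 < 4 * (n : ℝ) ^ 2 - ((k : ℝ) + 1) ^ 2 := by nlinarith
    have hnk : 0 < (n : ℝ) ^ 2 - (k : ℝ) ^ 2 := by nlinarith
    have hu : Real.exp (-((3 * (k : ℝ) ^ 2 - 2 * k - 1) / (4 * ((n : ℝ) ^ 2 - (K : ℝ) ^ 2)))) ≤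
        4 * ((n : ℝ) ^ 2 - (k : ℝ) ^ 2) / (4 * (n : ℝ) ^ 2 - ((k : ℝ) + 1) ^ 2) := by
      have h3 : (4 * (n : ℝ) ^ 2 - ((k : ℝ) + 1) ^ 2) / (4 * ((n : ℝ) ^ 2 - (k : ℝ) ^ 2)) ≤
          Real.exp ((3 * (k : ℝ) ^ 2 - 2 * k - 1) / (4 * ((n : ℝ) ^ 2 - (K : ℝ) ^ 2))) := by
        refine le_trans ?_ (Real.add_one_le_exp _)
        have h4 : (4 * (n : ℝ) ^ 2 - ((k : ℝ) + 1) ^ 2) / (4 * ((n : ℝ) ^ 2 - (k : ℝ) ^ 2)) =
            (3 * (k : ℝ) ^ 2 - 2 * k - 1) / (4 * ((n : ℝ) ^ 2 - (k : ℝ) ^ 2)) + 1 := by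
          rw [div_add_one (by positivity)]
          congr 1
          ring
        rw [h4]
        gcongr
        · nlinarith
        · omega
      rw [Real.exp_neg]
      rw [inv_le_comm₀ (Real.exp_pos _) (by positivity), inv_div]
      exact h3
    rw [e]
    calc Real.exp (-((((k + 1 : ℕ) : ℝ) - 1) * (((k + 1 : ℕ) : ℝ) - 2) * (2 * ((k + 1 : ℕ) : ℝ) + 1) /
          (8 * ((n : ℝ) ^ 2 - (K : ℝ) ^ 2))))
        = Real.exp (-(((k : ℝ) - 1) * (k - 2) * (2 * k + 1) / (8 * ((n : ℝ) ^ 2 - (K : ℝ) ^ 2)))) *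
          Real.exp (-((3 * (k : ℝ) ^ 2 - 2 * k - 1) / (4 * ((n : ℝ) ^ 2 - (K : ℝ) ^ 2)))) := by
          rw [← Real.exp_add]
          congr 1
          push_cast
          field_simp
          ring
      _ ≤ _ := mul_le_mul ih' hu (Real.exp_pos _).le (DD_pos (by omega)).le

end Pool.Agent.H63.Perc
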