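import Mathlib
import Pool.Agent.H63.Perc.LimA

set_option autoImplicit false
open Filter Topology MeasureTheory Set

/-! The scaling limit of the closed form. -/

namespace Pool.Agent.H63.Perc

/-- the scale `n ^ (2 / 3)` -/
noncomputable def NN (n : ℕ) : ℝ := (n : ℝ) ^ (2 / 3 : ℝ)

/-- the limiting density -/
noncomputable def rho (x : ℝ) : ℝ := 3 / (2 * √Real.pi) * √x * Real.exp (-(x ^ 3 / 4))

lemma one_le_NN {n : ℕ} (hn : 1 ≤ n) : 1 ≤ NN n :=
  Real.one_le_rpow (by exact_mod_cast hn) (by norm_num)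

lemma NN_cube (n : ℕ) : NN n ^ 3 = (n : ℝ) ^ 2 := by
  unfold NN
  rw [← Real.rpow_natCast, ← Real.rpow_mul (by positivity), ← Real.rpow_natCast]
  norm_num

lemma NN_tendsto : Tendsto NN atTop atTop :=
  (tendsto_rpow_atTop (by norm_num : (0 : ℝ) < 2 / 3)).comp tendsto_natCast_atTop_atTop

lemma NN_sqrt {n : ℕ} (hn : 1 ≤ n) : NN n * √(NN n) = n := by
  have h0 : 0 < NN n := lt_of_lt_of_le one_pos (one_le_NN hn)
  have h1 : (NN n * √(NN n)) ^ 2 = (n : ℝ) ^ 2 := by
    rw [mul_pow, Real.sq_sqrt h0.le, ← NN_cube]; ring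
  exact (pow_left_inj₀ (by positivity) (by positivity) two_ne_zero).1 h1

lemma NN_law {n : ℕ} (hn : 1 ≤ n) (k : ℕ) :
    NN n * law n k = 3 / 2 * √(k / NN n) * cb k * DD n k := by
  have h0 : 0 < NN n := lt_of_lt_of_le one_pos (one_le_NN hn)
  rw [law_eq, Real.sqrt_div (by positivity)]
  have h1 := NN_sqrt hn
  have h2 : 0 < √(NN n) := Real.sqrt_pos.2 h0
  rw [← h1]
  generalize NN n = a at *
  generalize √a = b at *
  field_simp

lemma law_gt {n k : ℕ} (h : n < k) : law n k = 0 := by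
  unfold law
  rw [Finset.prod_eq_zero (i := n) (Finset.mem_range.2 h) (by ring)]
  simp

lemma law_nonneg (n k : ℕ) : 0 ≤ law n k := by
  rcases Nat.eq_zero_or_pos k with h | h
  · rw [h, law_zero]
  · rcases le_or_gt k n with h2 | h2
    · exact (law_pos h h2).le
    · rw [law_gt h2]

lemma NN_law_tendsto {x : ℝ} (hx : 0 < x) (κ : ℕ → ℕ)
    (hκ : Tendsto (fun n => (κ n : ℝ) / NN n) atTop (𝓝 x)) :
    Tendsto (fun n => NN n * law n (κ n)) atTop (𝓝 (rho x)) := by
  have hinv : Tendsto (fun n => (NN n)⁻¹) atTop (𝓝 0) := tendsto_inv_atTop_zero.comp NN_tendsto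
  have hsinv : Tendsto (fun n => (√(NN n))⁻¹) atTop (𝓝 0) :=
    tendsto_inv_atTop_zero.comp (Real.tendsto_sqrt_atTop.comp NN_tendsto)
  have hninv : Tendsto (fun n : ℕ => ((n : ℝ))⁻¹) atTop (𝓝 0) :=
    tendsto_inv_atTop_zero.comp tendsto_natCast_atTop_atTop
  -- κ → ∞
  have hκ1 : Tendsto κ atTop atTop := by
    rw [← tendsto_natCast_atTop_iff (R := ℝ)]
    have := hκ.pos_mul_atTop hx NN_tendsto
    refine this.congr' ?_
    filter_upwards [eventually_ge_atTop 1] with n hn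
    have h0 : 0 < NN n := lt_of_lt_of_le one_pos (one_le_NN hn)
    field_simp
  -- κ / n → 0
  have hκn : Tendsto (fun n => (κ n : ℝ) / n) atTop (𝓝 0) := by
    have := hκ.mul hsinv
    rw [mul_zero] at this
    refine this.congr' ?_
    filter_upwards [eventually_ge_atTop 1] with n hn
    have h0 : 0 < NN n := lt_of_lt_of_le one_pos (one_le_NN hn)
    have h2 : 0 < √(NN n) := Real.sqrt_pos.2 h0
    have h1 := NN_sqrt hn
    rw [← h1]
    field_simp
  -- the exponent
  have hq : Tendsto (fun n => ((κ n : ℝ) - 1) * (κ n - 2) * (2 * κ n + 1) / (8 * (n : ℝ) ^ 2))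
      atTop (𝓝 (x ^ 3 / 4)) := by
    have h := (((hκ.sub hinv).mul (hκ.sub (hinv.const_mul 2))).mul
      ((hκ.const_mul 2).add hinv)).div_const 8
    have e : (x - 0) * (x - 2 * 0) * (2 * x + 0) / 8 = x ^ 3 / 4 := by ring
    rw [e] at h
    refine h.congr' ?_
    filter_upwards [eventually_ge_atTop 1] with n hn
    have h0 : 0 < NN n := lt_of_lt_of_le one_pos (one_le_NN hn)
    rw [← NN_cube n]
    field_simp
  have hlt : ∀ᶠ n in atTop, 1 ≤ κ n ∧ κ n < n ∧ 1 ≤ n := by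
    have h1 := hκn.eventually (gt_mem_nhds (show (0 : ℝ) < 1 by norm_num))
    filter_upwards [h1, hκ1.eventually_ge_atTop 1, eventually_ge_atTop 1] with n h1 h2 h3
    refine ⟨h2, ?_, h3⟩
    have hn : (0 : ℝ) < n := by exact_mod_cast h3
    rw [div_lt_one hn] at h1
    exact_mod_cast h1
  have hDD : Tendsto (fun n => DD n (κ n)) atTop (𝓝 (Real.exp (-(x ^ 3 / 4)))) := by
    have hup : Tendsto (fun n : ℕ => 4 * (n : ℝ) ^ 2 / (4 * (n : ℝ) ^ 2 - 1) *
        Real.exp (-(((κ n : ℝ) - 1) * (κ n - 2) * (2 * κ n + 1) / (8 * (n : ℝ) ^ 2))))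
        atTop (𝓝 (Real.exp (-(x ^ 3 / 4)))) := by
      have h1 : Tendsto (fun n : ℕ => 4 * (n : ℝ) ^ 2 / (4 * (n : ℝ) ^ 2 - 1)) atTop (𝓝 1) := by
        have h2 : Tendsto (fun n : ℕ => (1 - ((n : ℝ))⁻¹ ^ 2 / 4)⁻¹) atTop (𝓝 1) := by
          have := (((hninv.pow 2).div_const 4).const_sub 1).inv₀ (by norm_num)
          simpa using this
        refine h2.congr' ?_
        filter_upwards [eventually_ge_atTop 1] with n hn
        have h3 : (1 : ℝ) ≤ n := by exact_mod_cast hn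
        have h4 : 0 < 4 * (n : ℝ) ^ 2 - 1 := by nlinarith
        have h5 : 1 - ((n : ℝ))⁻¹ ^ 2 / 4 = (4 * (n : ℝ) ^ 2 - 1) / (4 * (n : ℝ) ^ 2) := by
          field_simp
        rw [h5, inv_div]
      have h2 := h1.mul ((Real.continuous_exp.tendsto _).comp hq.neg)
      rw [one_mul] at h2
      exact h2
    have hlow : Tendsto (fun n : ℕ => Real.exp (-(((κ n : ℝ) - 1) * (κ n - 2) * (2 * κ n + 1) /
        (8 * ((n : ℝ) ^ 2 - (κ n : ℝ) ^ 2))))) atTop (𝓝 (Real.exp (-(x ^ 3 / 4)))) := by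
      have h1 : Tendsto (fun n : ℕ => (1 - ((κ n : ℝ) / n) ^ 2)⁻¹) atTop (𝓝 1) := by
        have := ((hκn.pow 2).const_sub 1).inv₀ (by norm_num)
        simpa using this
      have h2 := hq.mul h1
      rw [mul_one] at h2
      refine ((Real.continuous_exp.tendsto _).comp h2.neg).congr' ?_
      filter_upwards [hlt] with n hn
      obtain ⟨h3, h4, h5⟩ := hn
      have h6 : (0 : ℝ) < n := by exact_mod_cast h5
      have h7 : (κ n : ℝ) < n := by exact_mod_cast h4
      have h8 : (0 : ℝ) ≤ κ n := by positivity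
      have h9 : 0 < (n : ℝ) ^ 2 - (κ n : ℝ) ^ 2 := by nlinarith
      have h10 : 1 - ((κ n : ℝ) / n) ^ 2 = ((n : ℝ) ^ 2 - (κ n : ℝ) ^ 2) / (n : ℝ) ^ 2 := by
        field_simp
      simp only [Function.comp_apply]
      rw [h10, inv_div]
      congr 1
      field_simp
    refine tendsto_of_tendsto_of_tendsto_of_le_of_le' hlow hup ?_ ?_
    · filter_upwards [hlt] with n hn
      exact DD_lower hn.1 le_rfl hn.2.1
    · filter_upwards [hlt] with n hn
      exact DD_upper hn.1 hn.2.1.le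
  have h1 : Tendsto (fun n => √((κ n : ℝ) / NN n)) atTop (𝓝 √x) :=
    (Real.continuous_sqrt.tendsto _).comp hκ
  have h2 := (((h1.const_mul (3 / 2)).mul (cb_tendsto.comp hκ1)).mul hDD)
  have e : 3 / 2 * √x * (1 / √Real.pi) * Real.exp (-(x ^ 3 / 4)) = rho x := by
    unfold rho; ring
  rw [e] at h2
  refine h2.congr' ?_
  filter_upwards [eventually_ge_atTop 1] with n hn
  rw [NN_law hn]
  rfl

/-- the dominating function -/
noncomputable def dom (x : ℝ) : ℝ := 6 * (x + 1) * Real.exp (-(x ^ 3 / 4))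

lemma dom_bound {n : ℕ} (hn : 1 ≤ n) {x : ℝ} (hx : 0 < x) :
    NN n * law n ⌈x * NN n⌉₊ ≤ dom x := by
  have h0 : 0 < NN n := lt_of_lt_of_le one_pos (one_le_NN hn)
  have hdom : 0 ≤ dom x := by unfold dom; positivity
  set k := ⌈x * NN n⌉₊ with hk
  rcases le_or_gt k n with hkn | hkn
  · have hk1 : 1 ≤ k := Nat.one_le_ceil_iff.2 (by positivity)
    rw [NN_law hn]
    have hkx : x * NN n ≤ k := Nat.le_ceil _
    have hkx' : (k : ℝ) ≤ x * NN n + 1 := (Nat.ceil_lt_add_one (by positivity)).le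
    have h1 : √((k : ℝ) / NN n) ≤ x + 1 := by
      apply Real.sqrt_le_iff.2
      refine ⟨by positivity, ?_⟩
      rw [div_le_iff₀ h0]
      have := one_le_NN hn
      nlinarith [mul_pos hx h0, mul_pos hx hx]
    have hn1 : (1 : ℝ) ≤ n := by exact_mod_cast hn
    have hkn' : (k : ℝ) ≤ n := by exact_mod_cast hkn
    have hk1' : (1 : ℝ) ≤ k := by exact_mod_cast hk1
    have h2 : DD n k ≤ 4 / 3 * (3 * Real.exp (-(x ^ 3 / 4))) := by
      refine (DD_upper hk1 hkn).trans ?_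
      apply mul_le_mul
      · rw [div_le_div_iff₀ (by nlinarith) (by norm_num)]
        nlinarith
      · have h3 : x ^ 3 * (n : ℝ) ^ 2 ≤ (k : ℝ) ^ 3 := by
          rw [← NN_cube, ← mul_pow]
          exact pow_le_pow_left₀ (by positivity) hkx 3
        have h4 : x ^ 3 / 4 - 1 ≤
            ((k : ℝ) - 1) * (k - 2) * (2 * k + 1) / (8 * (n : ℝ) ^ 2) := by
          rw [le_div_iff₀ (by positivity)]
          nlinarith
        calc Real.exp (-(((k : ℝ) - 1) * (k - 2) * (2 * k + 1) / (8 * (n : ℝ) ^ 2)))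
            ≤ Real.exp (1 + -(x ^ 3 / 4)) := Real.exp_le_exp.2 (by linarith)
          _ = Real.exp 1 * Real.exp (-(x ^ 3 / 4)) := Real.exp_add _ _
          _ ≤ 3 * Real.exp (-(x ^ 3 / 4)) := by
            apply mul_le_mul_of_nonneg_right _ (Real.exp_pos _).le
            exact Real.exp_one_lt_three.le
      · exact (Real.exp_pos _).le
      · norm_num
    have h3 := cb_le k
    have h4 := cb_nonneg k
    have h5 : 0 ≤ DD n k := (DD_pos hkn).le
    calc 3 / 2 * √((k : ℝ) / NN n) * cb k * DD n k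
        ≤ 3 / 2 * (x + 1) * 1 * (4 / 3 * (3 * Real.exp (-(x ^ 3 / 4)))) := by
          gcongr
      _ = dom x := by unfold dom; ring
  · rw [law_gt hkn, mul_zero]; exact hdom

lemma dom_integrable : IntegrableOn dom (Ioi 0) := by
  have h1 := integrableOn_rpow_mul_exp_neg_mul_rpow (p := 3) (s := 1) (b := 1 / 4) (by norm_num)
    (by norm_num) (by norm_num)
  have h2 := integrableOn_rpow_mul_exp_neg_mul_rpow (p := 3) (s := 0) (b := 1 / 4) (by norm_num)
    (by norm_num) (by norm_num)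
  have h3 : IntegrableOn (fun x : ℝ => 6 * (x ^ (1 : ℝ) * Real.exp (-(1 / 4) * x ^ (3 : ℝ)) +
      x ^ (0 : ℝ) * Real.exp (-(1 / 4) * x ^ (3 : ℝ)))) (Ioi 0) := (h1.add h2).const_mul 6
  refine IntegrableOn.congr_fun h3 ?_ measurableSet_Ioi
  intro x hx
  have hx' : (0 : ℝ) < x := hx
  unfold dom
  simp only [Real.rpow_one, Real.rpow_zero]
  have e : x ^ (3 : ℝ) = x ^ 3 := by
    rw [show (3 : ℝ) = ((3 : ℕ) : ℝ) by norm_num, Real.rpow_natCast]
  rw [e]
  have e2 : -(1 / 4) * x ^ 3 = -(x ^ 3 / 4) := by ring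
  rw [e2]
  ring

/-- sums as integrals -/
lemma sum_eq_integral (n : ℕ) {N : ℝ} (hN : 0 < N) (h : ℕ → ℝ) (hh : ∀ k, n < k → h k = 0) :
    ∑ k ∈ Finset.range n, h (k + 1) = ∫ x in Ioi 0, N * h ⌈x * N⌉₊ := by
  have hle : ∀ k : ℕ, ((k : ℝ) / N) ≤ ((k + 1 : ℕ) : ℝ) / N := by
    intro k
    gcongr
    exact_mod_cast Nat.le_succ k
  have hc : ∀ k : ℕ, EqOn (fun x => N * h ⌈x * N⌉₊) (fun _ => N * h (k + 1))
      (Ioc ((k : ℝ) / N) (((k + 1 : ℕ) : ℝ) / N)) := by
    intro k x hx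
    have h1 : ⌈x * N⌉₊ = k + 1 := by
      rw [Nat.ceil_eq_iff (by omega)]
      obtain ⟨ha, hb⟩ := hx
      rw [div_lt_iff₀ hN] at ha
      rw [le_div_iff₀ hN] at hb
      refine ⟨?_, hb⟩
      simpa using ha
    simp only [h1]
  have hint : ∀ k < n, IntervalIntegrable (fun x => N * h ⌈x * N⌉₊) volume
      ((fun k : ℕ => (k : ℝ) / N) k) ((fun k : ℕ => (k : ℝ) / N) (k + 1)) := by
    intro k _
    rw [intervalIntegrable_iff_integrableOn_Ioc_of_le (hle k)]
    refine IntegrableOn.congr_fun ?_ (hc k).symm measurableSet_Ioc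
    exact integrableOn_const (by simp)
  have h1 := intervalIntegral.sum_integral_adjacent_intervals hint
  have h2 : ∀ k ∈ Finset.range n, (∫ x in ((fun k : ℕ => (k : ℝ) / N) k)..
      ((fun k : ℕ => (k : ℝ) / N) (k + 1)), N * h ⌈x * N⌉₊) = h (k + 1) := by
    intro k _
    simp only
    rw [intervalIntegral.integral_of_le (hle k),
      setIntegral_congr_fun measurableSet_Ioc (hc k), setIntegral_const]
    simp only [smul_eq_mul, Measure.real, Real.volume_Ioc]
    rw [ENNReal.toReal_ofReal (by linarith [hle k])]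
    push_cast
    field_simp
    ring
  rw [Finset.sum_congr rfl h2] at h1
  rw [h1, intervalIntegral.integral_of_le (by simp only [Nat.cast_zero, zero_div]; positivity)]
  symm
  simp only [Nat.cast_zero, zero_div]
  apply setIntegral_eq_of_subset_of_forall_diff_eq_zero measurableSet_Ioi Ioc_subset_Ioi_self
  intro x hx
  obtain ⟨hx1, hx2⟩ := hx
  have h3 : (n : ℝ) / N < x := by
    by_contra hcon
    exact hx2 ⟨hx1, not_lt.1 hcon⟩
  rw [div_lt_iff₀ hN] at h3
  rw [hh _ (Nat.lt_ceil.2 h3), mul_zero]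

lemma measurable_ceil_comp (N : ℝ) (g : ℕ → ℝ) : Measurable (fun x : ℝ => g ⌈x * N⌉₊) :=
  (measurable_from_nat (f := g)).comp (Nat.measurable_ceil.comp (measurable_id.mul_const N))

/-- **The scaling limit of the closed form.** -/
theorem tendsto_law (f : ℝ → ℝ) (hf : Continuous f) (C : ℝ) (hC : ∀ x, |f x| ≤ C) :
    Tendsto (fun n : ℕ => ∑ k ∈ Finset.range (n + 1), law n k * f ((k : ℝ) / NN n)) atTop
      (𝓝 (∫ x in Ioi 0, rho x * f x)) := by
  have h1 : Tendsto (fun n : ℕ => ∫ x in Ioi 0,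
      NN n * (law n ⌈x * NN n⌉₊ * f ((⌈x * NN n⌉₊ : ℝ) / NN n))) atTop
      (𝓝 (∫ x in Ioi 0, rho x * f x)) := by
    apply tendsto_integral_filter_of_dominated_convergence (fun x => dom x * C)
    · filter_upwards with n
      exact (((measurable_ceil_comp (NN n) (fun k => law n k * f ((k : ℝ) / NN n))).const_mul
        (NN n))).aestronglyMeasurable
    · filter_upwards [eventually_ge_atTop 1] with n hn
      rw [ae_restrict_iff' measurableSet_Ioi]
      filter_upwards with x hx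
      have h0 : 0 < NN n := lt_of_lt_of_le one_pos (one_le_NN hn)
      rw [← mul_assoc, norm_mul, Real.norm_eq_abs, Real.norm_eq_abs,
        abs_of_nonneg (mul_nonneg h0.le (law_nonneg _ _))]
      exact mul_le_mul (dom_bound hn hx) (hC _) (abs_nonneg _)
        (le_trans (mul_nonneg h0.le (law_nonneg _ _)) (dom_bound hn hx))
    · exact dom_integrable.mul_const C
    · rw [ae_restrict_iff' measurableSet_Ioi]
      filter_upwards with x hx
      have hx' : 0 < x := hx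
      have h2 : Tendsto (fun n => (⌈x * NN n⌉₊ : ℝ) / NN n) atTop (𝓝 x) :=
        (tendsto_nat_ceil_mul_div_atTop hx'.le).comp NN_tendsto
      have h3 := (NN_law_tendsto hx' _ h2).mul ((hf.tendsto x).comp h2)
      refine h3.congr (fun n => ?_)
      simp only [Function.comp_apply]
      ring
  refine h1.congr' ?_
  filter_upwards [eventually_ge_atTop 1] with n hn
  have h0 : 0 < NN n := lt_of_lt_of_le one_pos (one_le_NN hn)
  have h2 := sum_eq_integral n h0 (fun k => law n k * f ((k : ℝ) / NN n))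
    (fun k hk => by rw [law_gt hk, zero_mul])
  rw [← h2, Finset.sum_range_succ', law_zero, zero_mul, add_zero]

/-- the limit in terms of a Gaussian variable -/
theorem integral_rho (f : ℝ → ℝ) : ∫ x in Ioi 0, rho x * f x =
    ∫ z, f ((2 * z ^ 2) ^ (1 / 3 : ℝ)) ∂(ProbabilityTheory.gaussianReal 0 1) := by
  have hpi : 0 < √Real.pi := Real.sqrt_pos.2 Real.pi_pos
  set g : ℝ → ℝ := fun y => 1 / √Real.pi * Real.exp (-(y ^ 2 / 4)) * f (y ^ (2 / 3 : ℝ)) with hg
  have h1 := integral_comp_rpow_Ioi_of_pos (g := g) (p := 3 / 2) (by norm_num)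
  have h2 : ∫ x in Ioi 0, rho x * f x = ∫ y in Ioi 0, g y := by
    rw [← h1]
    apply setIntegral_congr_fun measurableSet_Ioi
    intro x hx
    have hx' : (0 : ℝ) < x := hx
    simp only [hg, rho, smul_eq_mul]
    have e1 : (x ^ (3 / 2 : ℝ)) ^ (2 / 3 : ℝ) = x := by
      rw [← Real.rpow_mul hx'.le]; norm_num
    have e2 : (x ^ (3 / 2 : ℝ)) ^ 2 = x ^ 3 := by
      rw [← Real.rpow_natCast, ← Real.rpow_mul hx'.le, ← Real.rpow_natCast]; norm_num
    have e3 : x ^ (3 / 2 - 1 : ℝ) = √x := by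
      rw [Real.sqrt_eq_rpow]; norm_num
    rw [e1, e2, e3]
    field_simp
  have h3 : ∫ y in Ioi 0, g y = √2 * ∫ z in Ioi 0, g (√2 * z) := by
    have := integral_comp_mul_left_Ioi g 0 (b := √2) (by positivity)
    rw [mul_zero] at this
    rw [this, smul_eq_mul, mul_inv_cancel_left₀ (by positivity)]
  rw [h2, h3, ProbabilityTheory.integral_gaussianReal_eq_integral_smul one_ne_zero]
  have h4 : (fun z : ℝ => ProbabilityTheory.gaussianPDFReal 0 1 z • f ((2 * z ^ 2) ^ (1 / 3 : ℝ))) =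
      fun z => (fun w => ProbabilityTheory.gaussianPDFReal 0 1 w *
        f ((2 * w ^ 2) ^ (1 / 3 : ℝ))) |z| := by
    funext z
    simp only [smul_eq_mul, sq_abs]
    congr 1
    unfold ProbabilityTheory.gaussianPDFReal
    simp
  rw [h4, integral_comp_abs (f := fun w => ProbabilityTheory.gaussianPDFReal 0 1 w *
        f ((2 * w ^ 2) ^ (1 / 3 : ℝ)))]
  rw [← integral_const_mul, ← integral_const_mul]
  apply setIntegral_congr_fun measurableSet_Ioi
  intro z hz
  have hz' : (0 : ℝ) < z := hz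
  simp only [hg]
  have e1 : (√2 * z) ^ 2 = 2 * z ^ 2 := by
    rw [mul_pow, Real.sq_sqrt (by norm_num)]
  have e2 : (√2 * z) ^ (2 / 3 : ℝ) = (2 * z ^ 2) ^ (1 / 3 : ℝ) := by
    rw [← e1, ← Real.rpow_natCast, ← Real.rpow_mul (by positivity)]
    norm_num
  rw [e1, e2]
  unfold ProbabilityTheory.gaussianPDFReal
  simp only [NNReal.coe_one, mul_one, sub_zero]
  have e3 : √(2 * Real.pi) = √2 * √Real.pi := Real.sqrt_mul (by norm_num) _
  rw [e3]
  have e4 : -(2 * z ^ 2 / 4) = -z ^ 2 / 2 := by ring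
  rw [e4]
  have h5 : √2 * √2 = (2 : ℝ) := Real.mul_self_sqrt (by norm_num)
  have h6 : 0 < √(2 : ℝ) := by positivity
  have h8 : √2 = 2 * (√2)⁻¹ := by rw [eq_mul_inv_iff_mul_eq₀ h6.ne']; exact h5
  have h7 : √2 * (1 / √Real.pi) = 2 * (√2 * √Real.pi)⁻¹ := by
    rw [mul_inv, one_div, ← mul_assoc, ← h8]
  calc √2 * (1 / √Real.pi * Real.exp (-z ^ 2 / 2) * f ((2 * z ^ 2) ^ (1 / 3 : ℝ)))
      = (√2 * (1 / √Real.pi)) * Real.exp (-z ^ 2 / 2) * f ((2 * z ^ 2) ^ (1 / 3 : ℝ)) := by ring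
    _ = _ := by rw [h7]; ring

end Pool.Agent.H63.Perc
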