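import Mathlib
import Pool.Agent.H63.Perc.LimB
import Pool.Agent.H65.Perc.Assembly

set_option autoImplicit false
open Filter Topology MeasureTheory Set

/-! The law of the number of winding boundary vertices. -/

namespace Pool.Agent.H63.Perc

open Pool.Agent.H65.Perc

/-- the exact law, in integrated form -/
theorem integral_law (n : ℕ) [NeZero n] (g : ℕ → ℝ) :
    ∫ ω, g (windCount n ω) ∂(cylMeasure n) =
      (g 0 + ∑ k ∈ Finset.range (n + 1), law n k * g k) / 2 := by
  obtain ⟨P, hP0, -, hPn, hsum, hz, hfe, hint⟩ := exists_law n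
  have hn : 1 ≤ n := Nat.one_le_iff_ne_zero.2 (NeZero.ne n)
  have h := law_of_funeq n hn P hP0 hPn.ne' hsum (Set.Ioi 5) (Set.Ioi_infinite 5) hz hfe
  rw [hint g]
  congr 2
  apply Finset.sum_congr rfl
  intro k hk
  rw [Finset.mem_range] at hk
  rw [h k (by omega)]

theorem prob_windCount (n : ℕ) [NeZero n] (k : ℕ) :
    ((cylMeasure n) {ω | windCount n ω = k}).toReal =
      ((if k = 0 then 1 else 0) + (if k ≤ n then law n k else 0)) / 2 := by
  have h := integral_law n (fun m => if m = k then (1 : ℝ) else 0)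
  have hm : MeasurableSet {ω : CConf n | windCount n ω = k} :=
    measurable_windCount n (measurableSet_singleton k)
  have h1 : ∫ ω, (if windCount n ω = k then (1 : ℝ) else 0) ∂(cylMeasure n) =
      ((cylMeasure n) {ω | windCount n ω = k}).toReal := by
    have e : (fun ω : CConf n => if windCount n ω = k then (1 : ℝ) else 0) =
        Set.indicator {ω : CConf n | windCount n ω = k} (fun _ => (1 : ℝ)) := by
      funext ω
      simp [Set.indicator_apply]
    rw [e, integral_indicator_const _ hm]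
    simp [Measure.real]
  rw [h1] at h
  rw [h]
  congr 1
  have e1 : (if (0 : ℕ) = k then (1 : ℝ) else 0) = if k = 0 then 1 else 0 := by
    by_cases hk : k = 0
    · simp [hk]
    · rw [if_neg hk, if_neg (Ne.symm hk)]
  rw [e1]
  congr 1
  by_cases hk : k ≤ n
  · rw [if_pos hk, Finset.sum_eq_single k]
    · simp
    · intro b _ hb
      rw [if_neg hb, mul_zero]
    · intro hb
      exact absurd (Finset.mem_range.2 (by omega)) hb
  · rw [if_neg hk]
    apply Finset.sum_eq_zero
    intro b hb
    rw [Finset.mem_range] at hb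
    rw [if_neg (by omega), mul_zero]

theorem prob_winds (n : ℕ) [NeZero n] :
    ((cylMeasure n) {ω | Winds n ω 0}).toReal =
      ∏ k ∈ Finset.range n, ((3 * (k : ℝ) + 1) / (3 * k + 2)) := by
  have h1 := integral_windCount n
  have h2 := integral_law n (fun k => (k : ℝ))
  have hn : 1 ≤ n := Nat.one_le_iff_ne_zero.2 (NeZero.ne n)
  have hn' : (n : ℝ) ≠ 0 := by positivity
  rw [h1] at h2
  have h3 : ∑ k ∈ Finset.range (n + 1), law n k * (k : ℝ) =
      2 * n * ∏ k ∈ Finset.range n, ((3 * (k : ℝ) + 1) / (3 * k + 2)) := by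
    rw [← mean_law n hn]
    exact Finset.sum_congr rfl (fun k _ => mul_comm _ _)
  rw [h3] at h2
  apply mul_left_cancel₀ hn'
  rw [h2]
  push_cast
  ring

theorem tendsto_windCount (f : ℝ → ℝ) (hf : Continuous f) (hb : ∃ C, ∀ x, |f x| ≤ C) :
    Tendsto (fun n : ℕ => ∫ ω, f ((windCount n ω : ℝ) / (n : ℝ) ^ (2 / 3 : ℝ)) ∂(cylMeasure n))
      atTop (𝓝 ((f 0 + ∫ z, f ((2 * z ^ 2) ^ (1 / 3 : ℝ)) ∂(ProbabilityTheory.gaussianReal 0 1)) /
        2)) := by
  obtain ⟨C, hC⟩ := hb
  have h1 := ((tendsto_law f hf C hC).const_add (f 0)).div_const 2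
  rw [integral_rho] at h1
  refine h1.congr' ?_
  filter_upwards [eventually_ge_atTop 1] with n hn
  haveI : NeZero n := ⟨by omega⟩
  have h2 := integral_law n (fun k => f ((k : ℝ) / NN n))
  simp only [Nat.cast_zero, zero_div] at h2
  rw [← h2]
  rfl

end Pool.Agent.H63.Perc
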