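import Mathlib
import Pool.Agent.H63.Perc.LimB

set_option autoImplicit false
open Filter Topology

/-! The generating function of the closed form at a fixed argument. -/

namespace Pool.Agent.H63.Perc

lemma poch (n : ℕ) : (ascPochhammer ℝ n).eval (3 / 2) =
    n.factorial * ((2 * n + 1) * Nat.centralBinom n / 4 ^ n) := by
  induction n with
  | zero => simp
  | succ n ih =>
    rw [ascPochhammer_succ_eval, ih]
    have h1 := Nat.succ_mul_centralBinom_succ n
    have h2 : ((n : ℝ) + 1) * (Nat.centralBinom (n + 1) : ℝ) =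
        2 * (2 * n + 1) * (Nat.centralBinom n : ℝ) := by exact_mod_cast h1
    rw [Nat.factorial_succ]
    push_cast
    have e : (n.factorial : ℝ) * ((2 * n + 1) * Nat.centralBinom n / 4 ^ n) * (3 / 2 + n) =
        (n.factorial : ℝ) * (2 * (2 * n + 1) * Nat.centralBinom n) * (2 * n + 3) / 4 ^ (n + 1) := by
      rw [pow_succ]
      field_simp
      ring
    rw [e, ← h2]
    ring

lemma choose_three_halves (n : ℕ) : Ring.choose ((3 / 2 : ℝ) + n - 1) n =
    (2 * n + 1) * Nat.centralBinom n / 4 ^ n := by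
  have h1 : Ring.choose ((3 / 2 : ℝ) + n - 1) n = Ring.multichoose (3 / 2 : ℝ) n := by
    rw [Ring.choose]
    congr 1
    ring
  have h2 := Ring.factorial_nsmul_multichoose_eq_ascPochhammer (3 / 2 : ℝ) n
  rw [Polynomial.ascPochhammer_smeval_eq_eval, poch, nsmul_eq_mul] at h2
  rw [h1]
  have h3 : (n.factorial : ℝ) ≠ 0 := by exact_mod_cast n.factorial_ne_zero
  exact mul_left_cancel₀ h3 h2

lemma hasSum_three_halves {t : ℝ} (h0 : 0 ≤ t) (h1 : t < 1) :
    HasSum (fun n : ℕ => (2 * (n : ℝ) + 1) * Nat.centralBinom n / 4 ^ n * t ^ n)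
      (1 / (1 - t) ^ (3 / 2 : ℝ)) := by
  have h := (Real.one_div_one_sub_rpow_hasFPowerSeriesOnBall_zero (3 / 2)).hasSum (y := t)
    (by
      rw [Metric.mem_eball, edist_dist, Real.dist_eq, sub_zero, abs_of_nonneg h0]
      rw [← ENNReal.ofReal_one]
      exact (ENNReal.ofReal_lt_ofReal_iff (by norm_num)).2 h1)
  rw [zero_add] at h
  refine h.congr_fun ?_
  intro n
  rw [FormalMultilinearSeries.ofScalars_apply_eq, choose_three_halves]
  simp

lemma hasSum_kcb {t : ℝ} (h0 : 0 ≤ t) (h1 : t < 1) :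
    HasSum (fun k : ℕ => (k : ℝ) * Nat.centralBinom k / 4 ^ k * t ^ k)
      (t / 2 * (1 / (1 - t) ^ (3 / 2 : ℝ))) := by
  have h := (hasSum_three_halves h0 h1).mul_left (t / 2)
  rw [← hasSum_nat_add_iff' 1]
  simp only [Finset.sum_range_one, Nat.cast_zero, zero_mul, zero_div, sub_zero]
  refine h.congr_fun ?_
  intro n
  have h1 := Nat.succ_mul_centralBinom_succ n
  have h2 : ((n : ℝ) + 1) * (Nat.centralBinom (n + 1) : ℝ) =
      2 * (2 * n + 1) * (Nat.centralBinom n : ℝ) := by exact_mod_cast h1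
  push_cast
  rw [h2]
  rw [pow_succ, pow_succ]
  field_simp
  ring

lemma DD_le {n k : ℕ} (hk : 1 ≤ k) (hkn : k ≤ n) : DD n k ≤ 2 := by
  refine (DD_upper hk hkn).trans ?_
  have hn1 : (1 : ℝ) ≤ n := by exact_mod_cast hk.trans hkn
  have h1 : 4 * (n : ℝ) ^ 2 / (4 * (n : ℝ) ^ 2 - 1) ≤ 2 := by
    rw [div_le_iff₀ (by nlinarith)]
    nlinarith
  have h2 : Real.exp (-(((k : ℝ) - 1) * (k - 2) * (2 * k + 1) / (8 * (n : ℝ) ^ 2))) ≤ 1 := by
    rw [Real.exp_le_one_iff, neg_nonpos]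
    apply div_nonneg _ (by positivity)
    rcases Nat.lt_or_ge k 2 with h | h
    · have : k = 1 := by omega
      rw [this]; norm_num
    · have : (2 : ℝ) ≤ k := by exact_mod_cast h
      have h3 : 0 ≤ ((k : ℝ) - 1) * (k - 2) := by nlinarith
      positivity
  have h3 : 0 ≤ 4 * (n : ℝ) ^ 2 / (4 * (n : ℝ) ^ 2 - 1) := by
    apply div_nonneg (by positivity)
    nlinarith
  calc _ ≤ 2 * 1 := mul_le_mul h1 h2 (Real.exp_pos _).le (by norm_num)
    _ = 2 := by norm_num

lemma n_law {n : ℕ} (hn : 1 ≤ n) (k : ℕ) :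
    n * law n k = 3 / 2 * ((k : ℝ) * Nat.centralBinom k / 4 ^ k) * DD n k := by
  rw [law_eq]
  unfold cb
  have h4 : √(k : ℝ) * √(k : ℝ) = k := Real.mul_self_sqrt (by positivity)
  have hn' : (n : ℝ) ≠ 0 := by positivity
  calc (n : ℝ) * (3 / (2 * n) * (√(k : ℝ) * (√(k : ℝ) * (Nat.centralBinom k) / 4 ^ k)) * DD n k)
      = (n * (3 / (2 * n))) * ((√(k : ℝ) * √(k : ℝ)) * (Nat.centralBinom k) / 4 ^ k) * DD n k := by
        ring
    _ = _ := by rw [h4]; congr 2; field_simp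

lemma DD_tendsto (k : ℕ) : Tendsto (fun n : ℕ => DD n k) atTop (𝓝 1) := by
  unfold DD
  have h : ∀ j ∈ Finset.range k, Tendsto (fun n : ℕ =>
      4 * ((n : ℝ) ^ 2 - (j : ℝ) ^ 2) / (4 * (n : ℝ) ^ 2 - ((j : ℝ) + 1) ^ 2)) atTop (𝓝 1) := by
    intro j _
    have hninv : Tendsto (fun n : ℕ => ((n : ℝ))⁻¹ ^ 2) atTop (𝓝 0) := by
      have := (tendsto_inv_atTop_zero.comp (tendsto_natCast_atTop_atTop (R := ℝ))).pow 2
      simpa using this
    have h1 : Tendsto (fun n : ℕ => (4 * (1 - (j : ℝ) ^ 2 * ((n : ℝ))⁻¹ ^ 2)) /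
        (4 - ((j : ℝ) + 1) ^ 2 * ((n : ℝ))⁻¹ ^ 2)) atTop (𝓝 1) := by
      have h2 := ((hninv.const_mul ((j : ℝ) ^ 2)).const_sub 1).const_mul 4
      have h3 := (hninv.const_mul (((j : ℝ) + 1) ^ 2)).const_sub 4
      have h4 := h2.div h3 (by norm_num)
      have e : 4 * (1 - (j : ℝ) ^ 2 * 0) / (4 - ((j : ℝ) + 1) ^ 2 * 0) = 1 := by norm_num
      rw [e] at h4
      exact h4
    refine h1.congr' ?_
    filter_upwards [eventually_ge_atTop 1] with n hn
    have hn' : (n : ℝ) ≠ 0 := by positivity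
    have e1 : 4 * (1 - (j : ℝ) ^ 2 * ((n : ℝ))⁻¹ ^ 2) =
        (4 * ((n : ℝ) ^ 2 - (j : ℝ) ^ 2)) / (n : ℝ) ^ 2 := by field_simp
    have e2 : 4 - ((j : ℝ) + 1) ^ 2 * ((n : ℝ))⁻¹ ^ 2 =
        (4 * (n : ℝ) ^ 2 - ((j : ℝ) + 1) ^ 2) / (n : ℝ) ^ 2 := by field_simp
    rw [e1, e2, div_div_div_cancel_right₀ (by positivity)]
  have := tendsto_finsetProd (Finset.range k) h
  simpa using this

/-- **Asymptotics of the generating function**: `n * E[t ^ s] → (3 / 4) t (1 - t) ^ (-3 / 2)`. -/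
theorem tendsto_H {t : ℝ} (h0 : 0 ≤ t) (h1 : t < 1) :
    Tendsto (fun n : ℕ => n * ∑ k ∈ Finset.range (n + 1), law n k * t ^ k) atTop
      (𝓝 (3 / 4 * t / (1 - t) ^ (3 / 2 : ℝ))) := by
  have hs := hasSum_kcb h0 h1
  have key : Tendsto (fun n : ℕ => ∑' k : ℕ, n * (law n k * t ^ k)) atTop
      (𝓝 (∑' k : ℕ, 3 / 2 * ((k : ℝ) * Nat.centralBinom k / 4 ^ k * t ^ k))) := by
    apply tendsto_tsum_of_dominated_convergence
      (bound := fun k : ℕ => 3 * ((k : ℝ) * Nat.centralBinom k / 4 ^ k * t ^ k))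
    · exact (hs.mul_left 3).summable
    · intro k
      have h2 := (DD_tendsto k).const_mul (3 / 2 * ((k : ℝ) * Nat.centralBinom k / 4 ^ k * t ^ k))
      rw [mul_one] at h2
      refine h2.congr' ?_
      filter_upwards [eventually_ge_atTop 1] with n hn
      have h3 := n_law hn k
      calc 3 / 2 * ((k : ℝ) * Nat.centralBinom k / 4 ^ k * t ^ k) * DD n k
          = (3 / 2 * ((k : ℝ) * Nat.centralBinom k / 4 ^ k) * DD n k) * t ^ k := by ring
        _ = _ := by rw [← h3]; ring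
    · filter_upwards [eventually_ge_atTop 1] with n hn
      intro k
      have h3 : 0 ≤ law n k * t ^ k := mul_nonneg (law_nonneg _ _) (pow_nonneg h0 _)
      rw [Real.norm_of_nonneg (by positivity)]
      rcases Nat.eq_zero_or_pos k with hk | hk
      · rw [hk, law_zero]; simp
      · rcases le_or_gt k n with hkn | hkn
        · rw [← mul_assoc, n_law hn]
          have h4 := DD_le hk hkn
          have h5 : 0 ≤ (k : ℝ) * Nat.centralBinom k / 4 ^ k * t ^ k := by positivity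
          nlinarith
        · rw [law_gt hkn]
          have h5 : 0 ≤ (k : ℝ) * Nat.centralBinom k / 4 ^ k * t ^ k := by positivity
          simp only [zero_mul, mul_zero]
          positivity
  rw [(hs.mul_left (3 / 2)).tsum_eq] at key
  have e : 3 / 2 * (t / 2 * (1 / (1 - t) ^ (3 / 2 : ℝ))) = 3 / 4 * t / (1 - t) ^ (3 / 2 : ℝ) := by
    ring
  rw [e] at key
  refine key.congr (fun n => ?_)
  rw [tsum_eq_sum (s := Finset.range (n + 1)), Finset.mul_sum]
  intro k hk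
  rw [Finset.mem_range] at hk
  rw [law_gt (by omega), zero_mul, mul_zero]

/-- the isotropic case -/
theorem tendsto_H_quarter :
    Tendsto (fun n : ℕ => n * ∑ k ∈ Finset.range (n + 1), law n k * (1 / 4) ^ k) atTop
      (𝓝 (1 / (2 * √3))) := by
  have h := tendsto_H (t := 1 / 4) (by norm_num) (by norm_num)
  have e : 3 / 4 * (1 / 4) / (1 - 1 / 4 : ℝ) ^ (3 / 2 : ℝ) = 1 / (2 * √3) := by
    have h1 : (1 - 1 / 4 : ℝ) ^ (3 / 2 : ℝ) = (3 / 4) * (√3 / 2) := by
      rw [show (1 - 1 / 4 : ℝ) = 3 / 4 by norm_num, show (3 / 2 : ℝ) = 1 + 1 / 2 by norm_num,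
        Real.rpow_add (by norm_num), Real.rpow_one, ← Real.sqrt_eq_rpow,
        Real.sqrt_div (by norm_num), show (4 : ℝ) = 2 ^ 2 by norm_num, Real.sqrt_sq (by norm_num)]
    rw [h1]
    have : √3 ≠ (0 : ℝ) := by positivity
    field_simp
    norm_num
  rw [e] at h
  exact h

end Pool.Agent.H63.Perc
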